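import Pool.Agent.H76.GM.Fd

/-!
Row MB/Bf (project MP_78d38b_MQ, PI helper76), about 120 lines: finite sets of primes with a large sum of `1 / Nv`.

First `exists_nsq`: for `e : K`, `e ≠ 0`, not a square, `S1` finite and `C` there is a finite set `F` of primes outside `S1` at which `e` is not a square, with `C ≤ ∑ 1 / Nv`:
`N := (X ^ 2 - C e).SplittingField` (a number field, Galois over `K`; or any other construction of `K(√e)`, e.g. as in `H88PL`, `H36O2`: search for `sqrt`/`exists_root`), `χ : (N ≃ₐ[K] N) →* ℤˣ` the sign of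
`g (√e) / √e`, `g0` with `χ g0 ≠ 1` (`√e ∉ K`, `IsGalois`), `div_chi χ hg0` (Pool/Agent/H76/GM/E4.lean) with `S := S1 ∪ {v : 2 ∈ v} ∪ {v : e not a unit at v}`. If `e` were a square in `K_v`, `e ≡ s^2 mod v`, then the
Frobenius element `φ` at a place `W` above `v` fixes `√e` modulo `W`, and `√e ≢ -√e mod W` as `v ∤ 2 e`, so `φ √e = √e`: contradiction. (See `mul_frob`/`unr_ord` in Pool/Agent/H76/GM/Fd.lean, E5, E6, `sq_iff_deg`
in Dr/De, and `Frb` in E4 for the tools. Alternative: `H76GM.inert_div` in E3.lean with `K' := K(√e)`: at an inert prime, `sq_iff_deg`-type lemmas show that `e` is not a square in `K_v`.)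
Then `exists_sets`: `V I` by `exists_nsq` for every `I ⊆ Δ` with `∏ I` not a square (`e ≠ 0` as all `d ≠ 0`), `V I = ∅` otherwise; `V1` from `exists_nsq`/`div_chi` is not possible if `K` has no such `e`;
take instead `V1` outside `S1 ∪ ⋃ V I` from `H36PP`/`H76GM.E7`: `∑_v 1 / Nv v` diverges (search: `sum_nv`, `div_all`, used in `H76GM.mul_count` or `H36MT.count_prod` applications, `inert_div`'s proof; or apply
`exists_nsq` to any nonsquare of `K`, for example an element of order one at some prime: `v.valuation_exists_uniformizer K`; this is the simplest way).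
-/

set_option autoImplicit false
set_option linter.unusedSectionVars false
open scoped Classical

open WithZero NumberField IsDedekindDomain H38RT
open H38T1 (SC sc eo la OddP)
open H76PP (dn Nv)
open H88OD H26OD H30OD H30ZO H36CY H30OR H76GM

namespace H76MB

variable {K : Type} [Field K] [NumberField K]

/-- the case of an integral element with a square root in the Galois extension `L` -/
private lemma nsq_aux {L : Type} [Field L] [NumberField L] [Algebra K L] [IsGalois K L]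
    {e : 𝓞 K} (he : e ≠ 0) (hsq : ¬ IsSquare (e : K)) {s : L} (hs : s ^ 2 = algebraMap K L (e : K))
    (S1 : Finset (HeightOneSpectrum (𝓞 K))) (C : ℝ) :
    ∃ F : Finset (HeightOneSpectrum (𝓞 K)), (∀ v ∈ F, v ∉ S1 ∧
      ¬ IsSquare (algebraMap K (v.adicCompletion K) (e : K))) ∧ C ≤ ∑ v ∈ F, 1 / (Nv v : ℝ) := by
  have heK : (e : K) ≠ 0 := fun h => he (RingOfIntegers.coe_injective (h.trans (map_zero _).symm))
  have hs0 : s ≠ 0 := by
    rintro rfl
    rw [zero_pow two_ne_zero] at hs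
    exact (map_ne_zero _).2 heK hs.symm
  have hpm : ∀ g : L ≃ₐ[K] L, g s = s ∨ g s = -s := by
    intro g
    have h1 := congrArg g hs
    rw [map_pow, g.commutes, ← hs] at h1
    exact sq_eq_sq_iff_eq_or_eq_neg.1 h1
  have hne : -s ≠ s := by
    intro h1
    have h2 : (2 : L) * s = 0 := by linear_combination -h1
    rcases mul_eq_zero.1 h2 with h3 | h3
    · exact two_ne_zero h3
    · exact hs0 h3
  let χ : (L ≃ₐ[K] L) →* ℤˣ :=
    { toFun := fun g => if g s = s then 1 else -1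
      map_one' := if_pos rfl
      map_mul' := by
        intro g h
        have e1 : (g * h) s = g (h s) := rfl
        rw [e1]
        rcases hpm g with h1 | h1 <;> rcases hpm h with h2 | h2 <;>
          simp [h1, h2, hne] }
  have hχ : ∀ g, χ g = if g s = s then 1 else -1 := fun g => rfl
  obtain ⟨g0, hg0⟩ : ∃ g0 : L ≃ₐ[K] L, χ g0 ≠ 1 := by
    by_contra hcon
    push Not at hcon
    have h1 : ∀ g : L ≃ₐ[K] L, g s = s := by
      intro g
      by_contra h2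
      have h3 := hcon g
      rw [hχ, if_neg h2] at h3
      exact absurd h3 (by decide)
    obtain ⟨d, hd⟩ := (IsGalois.mem_range_algebraMap_iff_fixed (F := K) (E := L) s).2 h1
    apply hsq
    refine ⟨d, (algebraMap K L).injective ?_⟩
    rw [← hs, map_mul, hd, sq]
  obtain ⟨F, hF, hC⟩ := div_chi χ hg0 (S := ((S1 : Set (HeightOneSpectrum (𝓞 K))) ∪
    {v | (2 : 𝓞 K) ∈ v.asIdeal}) ∪ {v | e ∈ v.asIdeal})
    ((S1.finite_toSet.union (H30MQ.fin_mem two_ne_zero)).union (H30MQ.fin_mem he)) C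
  refine ⟨F, fun v hv => ?_, hC⟩
  obtain ⟨hvS, hvW⟩ := hF v hv
  refine ⟨fun h => hvS (Or.inl (Or.inl (Finset.mem_coe.2 h))), fun hsqv => ?_⟩
  have h2v : (2 : 𝓞 K) ∉ v.asIdeal := fun h => hvS (Or.inl (Or.inr h))
  have hev : e ∉ v.asIdeal := fun h => hvS (Or.inr h)
  have hodd : OddP v := by
    have h3 : v.valuation K ((2 : 𝓞 K) : K) = 1 := v.valuation_eq_one_iff_notMem.mpr h2v
    have h4 : ((2 : 𝓞 K) : K) = 2 := map_ofNat _ 2
    rw [h4] at h3
    exact h3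
  have hVe : v.valuation K (e : K) = 1 := v.valuation_eq_one_iff_notMem.mpr hev
  have hla : la v (sc (e : K)) = 0 := by
    have h01 : ∀ x : ZMod 2, x = 0 ∨ x = 1 := by decide
    rcases h01 (la v (sc (e : K))) with h | h
    · exact h
    · exfalso
      refine H36MX.nsq_of_la hodd heK h ?_ hsqv
      rw [H38T1.eo_sc heK]
      unfold ord
      rw [hVe, WithZero.log_one, neg_zero]
      rfl
  obtain ⟨a, ha⟩ := (H30MQ.la_iff hodd hev).1 hla
  obtain ⟨W, hW⟩ := H76PP.exists_above (L := L) v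
  obtain ⟨φ, hφ1, hφ2⟩ := H36O2.exists_frob (K := K) W
  refine hvW W hW φ ⟨hφ1, hφ2⟩ ?_
  rw [hχ]
  rcases hpm φ with h | h
  · rw [if_pos h]
  exfalso
  have hmem : ∀ x : 𝓞 K, algebraMap (𝓞 K) (𝓞 L) x ∈ W.asIdeal ↔ x ∈ v.asIdeal := by
    intro x
    rw [← hW]
    rfl
  have hsint : IsIntegral ℤ s := by
    refine IsIntegral.of_pow two_pos ?_
    rw [hs]
    exact map_isIntegral_int (algebraMap K L) (RingOfIntegers.isIntegral_coe e)
  obtain ⟨s', hs'⟩ : ∃ s' : 𝓞 L, (s' : L) = s := ⟨⟨s, hsint⟩, rfl⟩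
  have hss : s' ^ 2 = algebraMap (𝓞 K) (𝓞 L) e := by
    apply RingOfIntegers.coe_injective
    have h1 : (s' : L) ^ 2 = algebraMap K L (e : K) := by rw [hs', hs]
    exact h1
  obtain ⟨b, hb⟩ : ∃ b : 𝓞 K, s' - algebraMap (𝓞 K) (𝓞 L) b ∈ W.asIdeal := by
    have h1 : (s' - algebraMap (𝓞 K) (𝓞 L) a) * (s' + algebraMap (𝓞 K) (𝓞 L) a) ∈ W.asIdeal := by
      have h2 : (s' - algebraMap (𝓞 K) (𝓞 L) a) * (s' + algebraMap (𝓞 K) (𝓞 L) a) =
          algebraMap (𝓞 K) (𝓞 L) (e - a ^ 2) := by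
        rw [map_sub, map_pow, ← hss]
        ring
      rw [h2, hmem]
      exact ha
    rcases W.isPrime.mem_or_mem h1 with h2 | h2
    · exact ⟨a, h2⟩
    · exact ⟨-a, by rw [map_neg, sub_neg_eq_add]; exact h2⟩
  have hmaxv : v.asIdeal.IsMaximal := v.isMaximal
  have hN0 : Ideal.absNorm v.asIdeal ≠ 0 := (Ideal.absNorm_eq_zero_iff.not).2 v.ne_bot
  have hfin : Finite (𝓞 K ⧸ v.asIdeal) := by
    apply Nat.finite_of_card_ne_zero
    exact hN0
  obtain ⟨q, hq⟩ : ∃ q, q = Nat.card (𝓞 K ⧸ (dn K W).asIdeal) := ⟨_, rfl⟩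
  have hbq : b ^ q - b ∈ v.asIdeal := by
    let _ : Field (𝓞 K ⧸ v.asIdeal) := Ideal.Quotient.field v.asIdeal
    let _ : Fintype (𝓞 K ⧸ v.asIdeal) := Fintype.ofFinite _
    rw [← Ideal.Quotient.eq_zero_iff_mem, map_sub, map_pow, hq, hW, Nat.card_eq_fintype_card,
      FiniteField.pow_card, sub_self]
  have h3 := hφ2 s'
  rw [hs', h, ← hq] at h3
  have h4 : s' + s' ^ q ∈ W.asIdeal := by
    rw [← W.valuation_lt_one_iff_mem (K := L)]
    have h5 : algebraMap (𝓞 L) L (s' + s' ^ q) = -(-s - s ^ q) := by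
      rw [map_add, map_pow]
      show (s' : L) + (s' : L) ^ q = _
      rw [hs']
      ring
    show W.valuation L (algebraMap (𝓞 L) L (s' + s' ^ q)) < 1
    rw [h5, Valuation.map_neg]
    exact h3
  -- in the residue field
  let m := Ideal.Quotient.mk W.asIdeal
  have m1 : m s' = m (algebraMap (𝓞 K) (𝓞 L) b) := Ideal.Quotient.eq.2 hb
  have m2 : m (algebraMap (𝓞 K) (𝓞 L) b) ^ q = m (algebraMap (𝓞 K) (𝓞 L) b) := by
    rw [← map_pow, ← map_pow]
    refine Ideal.Quotient.eq.2 ?_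
    rw [← map_sub, hmem]
    exact hbq
  have m3 : m s' + m s' ^ q = 0 := by
    rw [← map_pow, ← map_add]
    exact Ideal.Quotient.eq_zero_iff_mem.2 h4
  have m4 : (2 : 𝓞 L) * s' ∈ W.asIdeal := by
    rw [← Ideal.Quotient.eq_zero_iff_mem]
    show m (2 * s') = 0
    rw [two_mul, map_add]
    rw [m1, m2, ← m1] at m3
    exact m3
  rcases W.isPrime.mem_or_mem m4 with h5 | h5
  · apply h2v
    rw [← hmem, map_ofNat]
    exact h5
  · apply hev
    rw [← hmem, ← hss, sq]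
    exact W.asIdeal.mul_mem_left _ h5

theorem exists_nsq {e : K} (he : e ≠ 0) (hsq : ¬ IsSquare e)
    (S1 : Finset (HeightOneSpectrum (𝓞 K))) (C : ℝ) :
    ∃ F : Finset (HeightOneSpectrum (𝓞 K)), (∀ v ∈ F, v ∉ S1 ∧
      ¬ IsSquare (algebraMap K (v.adicCompletion K) e)) ∧ C ≤ ∑ v ∈ F, 1 / (Nv v : ℝ) := by
  obtain ⟨α, β, hβ, hab⟩ := IsFractionRing.div_surjective (A := 𝓞 K) e
  have hβ0 : (β : K) ≠ 0 := by
    intro h
    exact nonZeroDivisors.ne_zero hβ (RingOfIntegers.coe_injective (h.trans (map_zero _).symm))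
  obtain ⟨d, hd⟩ : ∃ d : 𝓞 K, d = α * β := ⟨_, rfl⟩
  have hdK : (d : K) = e * (β : K) ^ 2 := by
    rw [hd, ← hab]
    show (algebraMap (𝓞 K) K) (α * β) = (algebraMap (𝓞 K) K α / algebraMap (𝓞 K) K β) *
      (algebraMap (𝓞 K) K β) ^ 2
    rw [map_mul]
    have h1 : algebraMap (𝓞 K) K β ≠ 0 := hβ0
    field_simp
  have hd0 : d ≠ 0 := by
    rintro rfl
    have h1 : e * (β : K) ^ 2 = 0 := hdK.symm.trans (map_zero _)
    rcases mul_eq_zero.1 h1 with h2 | h2
    · exact he h2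
    · exact hβ0 (pow_eq_zero_iff two_ne_zero |>.1 h2)
  have hdsq : ¬ IsSquare (d : K) := by
    rintro ⟨y, hy⟩
    apply hsq
    refine ⟨y / β, ?_⟩
    have h1 : e * (β : K) ^ 2 = y * y := hdK.symm.trans hy
    field_simp
    linear_combination h1
  obtain ⟨L, iF, iN, iA, iB, iT, iG, s, hs⟩ := H30MQ.exists_fieldN K (K := K) {d}
  have hs' := hs d (Finset.mem_singleton_self d)
  clear iT iB
  obtain ⟨F, hF, hC⟩ := nsq_aux (L := L) hd0 hdsq hs' S1 C
  refine ⟨F, fun v hv => ⟨(hF v hv).1, ?_⟩, hC⟩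
  rintro ⟨y, hy⟩
  apply (hF v hv).2
  refine ⟨y * algebraMap K (v.adicCompletion K) (β : K), ?_⟩
  rw [hdK, map_mul, map_pow, hy]
  ring

private lemma exists_nonsq : ∃ e : K, e ≠ 0 ∧ ¬ IsSquare e := by
  obtain ⟨M, hM⟩ := Ideal.exists_maximal (𝓞 K)
  obtain ⟨v, -⟩ : ∃ v : HeightOneSpectrum (𝓞 K), v.asIdeal = M :=
    ⟨⟨M, hM.isPrime, Ring.ne_bot_of_isMaximal_of_not_isField hM (RingOfIntegers.not_isField K)⟩, rfl⟩
  obtain ⟨π, hπ⟩ := v.valuation_exists_uniformizer K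
  have h0 : π ≠ 0 := by
    rintro rfl
    rw [map_zero] at hπ
    exact WithZero.coe_ne_zero hπ.symm
  refine ⟨π, h0, ?_⟩
  rintro ⟨y, rfl⟩
  have hy : y ≠ 0 := fun h => h0 (by rw [h, mul_zero])
  have h1 : v.valuation K y ≠ 0 := (Valuation.ne_zero_iff _).2 hy
  have h2 := congrArg WithZero.log hπ
  rw [map_mul, WithZero.log_mul h1 h1, WithZero.log_exp] at h2
  omega

theorem exists_sets {Δ : Finset K} (hΔ : ∀ d ∈ Δ, d ≠ 0) (S1 : Finset (HeightOneSpectrum (𝓞 K)))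
    (C : ℝ) :
    ∃ (V : Finset K → Finset (HeightOneSpectrum (𝓞 K))) (V1 : Finset (HeightOneSpectrum (𝓞 K))),
      (∀ I ⊆ Δ, ¬ IsSquare (∏ d ∈ I, d) → (∀ v ∈ V I, v ∉ S1 ∧ v ∉ V1 ∧
        ¬ IsSquare (algebraMap K (v.adicCompletion K) (∏ d ∈ I, d))) ∧
        C ≤ ∑ v ∈ V I, 1 / (Nv v : ℝ)) ∧
      (∀ v ∈ V1, v ∉ S1) ∧ C ≤ ∑ v ∈ V1, 1 / (Nv v : ℝ) := by
  obtain ⟨e, he0, he⟩ := exists_nonsq (K := K)
  obtain ⟨V1, hV1, hC1⟩ := exists_nsq he0 he S1 C
  have h1 : ∀ I : Finset K, ∃ F : Finset (HeightOneSpectrum (𝓞 K)), I ⊆ Δ →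
      ¬ IsSquare (∏ d ∈ I, d) → (∀ v ∈ F, v ∉ S1 ∧ v ∉ V1 ∧
        ¬ IsSquare (algebraMap K (v.adicCompletion K) (∏ d ∈ I, d))) ∧
        C ≤ ∑ v ∈ F, 1 / (Nv v : ℝ) := by
    intro I
    by_cases hI : I ⊆ Δ ∧ ¬ IsSquare (∏ d ∈ I, d)
    · obtain ⟨F, hF, hC⟩ := exists_nsq (Finset.prod_ne_zero_iff.2 fun d hd => hΔ d (hI.1 hd)) hI.2
        (S1 ∪ V1) C
      refine ⟨F, fun _ _ => ⟨fun v hv => ?_, hC⟩⟩
      obtain ⟨h2, h3⟩ := hF v hv
      rw [Finset.mem_union, not_or] at h2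
      exact ⟨h2.1, h2.2, h3⟩
    · exact ⟨∅, fun h2 h3 => absurd ⟨h2, h3⟩ hI⟩
  choose V hV using h1
  exact ⟨V, V1, fun I hI hs => hV I hI hs, fun v hv => (hV1 v hv).1, hC1⟩

end H76MB
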