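import Pool.Agent.H76.MB.Be
import Pool.Agent.H76.MB.Bf

/-!
Row MB/Bg (project MP_78d38b_MQ, PI helper76), about 170 lines: almost all curves.

Follow the proof of `H76GM.dens` (Pool/Agent/H76/GM/Fd.lean) line by line, with `N := K` in `nsqN_count` (or `H30OD.nsq_count`), `M := K` in `MulM`. `S1` : the primes of `S`, those at which some `d ∈ Δ` is not a
unit, those with `6 ∈ v.asIdeal`, those with `Nv v ≤ M₀` (`mul_count K (ε := ε / (2 ^ Δ.card + 4) * c)`; one set for each of the subsets `I ⊆ Δ` with `∏ I` not a square, and `V1`). `exists_sets` (Bf.lean) gives `V I`, `V1`.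
For `p = (a, b)` outside the exceptional sets: no root (`H30OD.de_A`, `Gd.irr`), disc not a square, a prime `v1 ∈ V1` and for every `I` a prime `v_I ∈ V I` with disc of order one, so `MulM K a b v` by `mul_of`
(the condition `ur` for `M := K` is trivial, see `MulM.self` in Dl.lean: `dn_self`). `switch_bal` (Be.lean) with `P := {v | v ∉ S ∧ MulM K a b v ∧ ∀ d ∈ Δ, v.valuation K d = 1}`: `v_I ≠ v1` as `V I` and `V1` are disjoint.
The exceptional set is covered by a union over `Δ.powerset`: `Set.ncard_iUnion_le`-type bound (finite unions), all sets are subsets of the finite set `Bx K X`.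
-/

set_option autoImplicit false
set_option linter.unusedSectionVars false
open scoped Classical

open WithZero NumberField IsDedekindDomain H38RT
open H76PP (dn Nv)
open H76PP (Bx)
open H88OD H26OD H30OD H30ZO H36CY H30OR H76GM

namespace H76MB

/-- **Almost all curves.** -/
theorem dens_bal {K : Type} [Field K] [NumberField K] {Δ : Finset K} (hΔ : ∀ d ∈ Δ, d ≠ 0)
    (S : Finset (HeightOneSpectrum (𝓞 K))) {ε : ℝ} (hε : 0 < ε) :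
    ∃ X₀ : ℝ, ∀ X : ℝ, X₀ ≤ X →
      ({p : 𝓞 K × 𝓞 K | p ∈ Bx K X ∧ ¬ ((∀ t : K, t ^ 3 + (p.1 : K) * t + (p.2 : K) ≠ 0) ∧
        ¬ IsSquare (-(4 * (p.1 : K) ^ 3 + 27 * (p.2 : K) ^ 2)) ∧
        ∀ D0 : K, D0 ≠ 0 → Bal p.1 p.2 Δ D0 →
          ∃ D : K, Rel K S D0 D ∧ ∀ d ∈ Δ, EvS K K p.1 p.2 (d * D))}.ncard : ℝ) ≤
        ε * ((Bx K X).ncard : ℝ) := by
  obtain ⟨c, X₁, hc, hlow⟩ := H36MT.class_lower (K := K) (m := ⊤) top_ne_bot
  obtain ⟨T, hT, hTd⟩ : ∃ T : ℝ, 0 < T ∧ T = 2 ^ Δ.card + 4 := ⟨_, by positivity, rfl⟩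
  obtain ⟨M₀, C, hm⟩ := mul_count K (ε := ε / T * c) (by positivity)
  obtain ⟨DD, X₂, -, h2⟩ := H30OD.de_A K (m := ⊤) top_ne_bot (ε := ε / T) (by positivity)
  -- the excluded primes
  obtain ⟨S1, hS1⟩ : ∃ S1 : Finset (HeightOneSpectrum (𝓞 K)), ∀ v, v ∈ S1 ↔
      (v ∈ S ∨ (∃ d ∈ Δ, v.valuation K d ≠ 1)) ∨
        ((6 : 𝓞 K) ∈ v.asIdeal ∨ ¬ M₀ < Nv v) := by
    have hf1 : {v : HeightOneSpectrum (𝓞 K) | ¬ (M₀ + 1) ≤ Nv v}.Finite :=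
      H76PP.fin_norm K (M₀ + 1)
    have hf2 : {v : HeightOneSpectrum (𝓞 K) | (6 : 𝓞 K) ∈ v.asIdeal}.Finite := by
      refine (H36PP.nv_finite K (Ideal.absNorm (Ideal.span {(6 : 𝓞 K)}) : ℝ)).subset
        fun v hv => ?_
      have h6 : (6 : 𝓞 K) ≠ 0 := by norm_num
      have h7 : v.asIdeal ∣ Ideal.span {(6 : 𝓞 K)} :=
        Ideal.dvd_span_singleton.2 hv
      have h8 : Ideal.absNorm v.asIdeal ∣ Ideal.absNorm (Ideal.span {(6 : 𝓞 K)}) :=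
        map_dvd Ideal.absNorm h7
      have h9 : 0 < Ideal.absNorm (Ideal.span {(6 : 𝓞 K)}) := by
        refine Nat.pos_of_ne_zero ?_
        rw [Ne, Ideal.absNorm_eq_zero_iff, Ideal.span_singleton_eq_bot]
        exact h6
      exact_mod_cast Nat.le_of_dvd h9 h8
    have hf3 : {v : HeightOneSpectrum (𝓞 K) | ∃ d ∈ Δ, v.valuation K d ≠ 1}.Finite := by
      refine (Δ.finite_toSet.biUnion fun d hd => H38RT.fin_bad (hΔ d hd)).subset fun v hv => ?_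
      obtain ⟨d, hd, h⟩ := hv
      exact Set.mem_biUnion (show d ∈ (Δ : Set K) from hd) h
    refine ⟨((S.finite_toSet.union hf3).union (hf2.union hf1)).toFinset, fun v => ?_⟩
    rw [Set.Finite.mem_toFinset]
    simp only [Set.mem_union, Finset.mem_coe, Set.mem_ofPred_eq, Nat.succ_le_iff]
  obtain ⟨V, V1, hV, hV1, hV1C⟩ := exists_sets hΔ S1 C
  -- the properties of the primes
  have key : ∀ (v : HeightOneSpectrum (𝓞 K)), v ∉ S1 →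
      v ∉ S ∧ ((6 : 𝓞 K) ∉ v.asIdeal ∧ M₀ < Nv v) ∧ ∀ d ∈ Δ, v.valuation K d = 1 := by
    intro v hv
    rw [hS1] at hv
    push Not at hv
    obtain ⟨⟨v1, v2⟩, v3, v4⟩ := hv
    exact ⟨v1, ⟨v3, v4⟩, v2⟩
  obtain ⟨X₄, h4⟩ := hm V1 (fun v hv => (key v (hV1 v hv)).2.1) hV1C
  have h5 : ∀ᶠ X : ℝ in Filter.atTop, ∀ I ∈ Δ.powerset, ¬ IsSquare (∏ d ∈ I, d) →
      ({p : 𝓞 K × 𝓞 K | p ∈ Bx K X ∧ ∀ v ∈ V I, ¬ (H76PP.dsc p.1 p.2 ∈ v.asIdeal ∧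
          H76PP.dsc p.1 p.2 ∉ v.asIdeal ^ 2)}.ncard : ℝ) ≤
        ε / T * c * X ^ (5 * Module.finrank ℚ K) := by
    rw [Filter.eventually_all_finset]
    intro I hI
    by_cases hsq : IsSquare (∏ d ∈ I, d)
    · exact Filter.Eventually.of_forall fun X h => absurd hsq h
    · obtain ⟨q1, q2⟩ := hV I (Finset.mem_powerset.1 hI) hsq
      obtain ⟨X₀, h⟩ := hm (V I) (fun v hv => (key v (q1 v hv).1).2.1) q2
      exact Filter.eventually_atTop.2 ⟨X₀, fun X hX _ => h X hX⟩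
  obtain ⟨X₅, h5⟩ := Filter.eventually_atTop.1 h5
  refine ⟨max (max X₁ X₂) (max X₄ X₅), fun X hX => ?_⟩
  have hX1 : X₁ ≤ X := (le_max_left _ _).trans ((le_max_left _ _).trans hX)
  have hX2 : X₂ ≤ X := (le_max_right _ _).trans ((le_max_left _ _).trans hX)
  have hX4 : X₄ ≤ X := (le_max_left _ _).trans ((le_max_right _ _).trans hX)
  have hX5 : X₅ ≤ X := (le_max_right _ _).trans ((le_max_right _ _).trans hX)
  have g1 := hlow X hX1 0 0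
  have h6 : {p : 𝓞 K × 𝓞 K | p ∈ Bx K X ∧ p.1 - 0 ∈ (⊤ : Ideal (𝓞 K)) ∧
      p.2 - 0 ∈ (⊤ : Ideal (𝓞 K))} = Bx K X := by
    ext p
    simp
  rw [h6] at g1
  have g2 := h2 X hX2
  have g4 := h4 X hX4
  have g5 := h5 X hX5
  have hfin : ∀ P : 𝓞 K × 𝓞 K → Prop, {p : 𝓞 K × 𝓞 K | p ∈ Bx K X ∧ P p}.Finite := fun P =>
    (H36PP.Bx_finite K X).subset fun p hp => hp.1
  obtain ⟨J, hJ⟩ : ∃ J : Finset (Finset K), ∀ I, I ∈ J ↔ I ⊆ Δ ∧ ¬ IsSquare (∏ d ∈ I, d) :=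
    ⟨Δ.powerset.filter fun I => ¬ IsSquare (∏ d ∈ I, d), fun I => by
      rw [Finset.mem_filter, Finset.mem_powerset]⟩
  have hJc : (J.card : ℝ) ≤ 2 ^ Δ.card := by
    have h : J.card ≤ Δ.powerset.card := Finset.card_le_card fun I hI =>
      Finset.mem_powerset.2 ((hJ I).1 hI).1
    rw [Finset.card_powerset] at h
    exact_mod_cast h
  have hsub : {p : 𝓞 K × 𝓞 K | p ∈ Bx K X ∧ ¬ ((∀ t : K, t ^ 3 + (p.1 : K) * t + (p.2 : K) ≠ 0) ∧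
        ¬ IsSquare (-(4 * (p.1 : K) ^ 3 + 27 * (p.2 : K) ^ 2)) ∧
        ∀ D0 : K, D0 ≠ 0 → Bal p.1 p.2 Δ D0 →
          ∃ D : K, Rel K S D0 D ∧ ∀ d ∈ Δ, EvS K K p.1 p.2 (d * D))} ⊆
      ({p : 𝓞 K × 𝓞 K | p ∈ Bx K X ∧ ¬ H30OD.Gd K DD p} ∪
      {p : 𝓞 K × 𝓞 K | p ∈ Bx K X ∧ ∀ v ∈ V1, ¬ (H76PP.dsc p.1 p.2 ∈ v.asIdeal ∧
          H76PP.dsc p.1 p.2 ∉ v.asIdeal ^ 2)}) ∪
      ⋃ I ∈ J, {p : 𝓞 K × 𝓞 K | p ∈ Bx K X ∧ ∀ v ∈ V I, ¬ (H76PP.dsc p.1 p.2 ∈ v.asIdeal ∧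
          H76PP.dsc p.1 p.2 ∉ v.asIdeal ^ 2)} := by
    rintro p ⟨hp, hno⟩
    by_contra hcc
    simp only [Set.mem_union, Set.mem_ofPred_eq, not_or] at hcc
    obtain ⟨⟨c1, c3⟩, c4⟩ := hcc
    have d1 : H30OD.Gd K DD p := by
      by_contra h
      exact c1 ⟨hp, h⟩
    obtain ⟨v1, hv1, w1, w2⟩ : ∃ v ∈ V1, H76PP.dsc p.1 p.2 ∈ v.asIdeal ∧
        H76PP.dsc p.1 p.2 ∉ v.asIdeal ^ 2 := by
      by_contra h
      push Not at h
      exact c3 ⟨hp, fun v hv hh => hh.2 (h v hv hh.1)⟩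
    have ur : ∀ v w : HeightOneSpectrum (𝓞 K), dn K w = v → ∀ x : K, x ≠ 0 →
        ord (w.valuation K) (algebraMap K K x) = ord (v.valuation K) x := by
      intro v w hw x _
      rw [dn_self] at hw
      rw [hw]
      rfl
    apply hno
    refine ⟨d1.irr, d1.nsq, fun D0 hD0 hB => ?_⟩
    obtain ⟨k1, k2, k3⟩ := key v1 (hV1 v1 hv1)
    refine switch_bal d1.irr d1.nsq hΔ S
      (P := {v | v ∉ S ∧ MulM K p.1 p.2 v ∧ ∀ d ∈ Δ, v.valuation K d = 1}) (fun v hv => hv)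
      (v1 := v1) ⟨k1, mul_of k2.1 w1 w2 (ur v1), k3⟩ (fun I hI _ hsq => ?_) hD0 hB
    obtain ⟨q1, q2⟩ := hV I hI hsq
    obtain ⟨v, hv, w3, w4⟩ : ∃ v ∈ V I, H76PP.dsc p.1 p.2 ∈ v.asIdeal ∧
        H76PP.dsc p.1 p.2 ∉ v.asIdeal ^ 2 := by
      by_contra h
      push Not at h
      exact c4 (Set.mem_biUnion (show I ∈ (J : Set (Finset K)) from (hJ I).2 ⟨hI, hsq⟩)
        ⟨hp, fun v hv hh => hh.2 (h v hv hh.1)⟩)
    obtain ⟨k4, k5, k6⟩ := key v (q1 v hv).1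
    exact ⟨v, ⟨k4, mul_of k5.1 w3 w4 (ur v), k6⟩, fun h => (q1 v hv).2.1 (by
      rw [h]
      exact hv1), (q1 v hv).2.2⟩
  have hfinU : (⋃ I ∈ J, {p : 𝓞 K × 𝓞 K | p ∈ Bx K X ∧ ∀ v ∈ V I,
      ¬ (H76PP.dsc p.1 p.2 ∈ v.asIdeal ∧ H76PP.dsc p.1 p.2 ∉ v.asIdeal ^ 2)}).Finite :=
    J.finite_toSet.biUnion fun I _ => hfin _
  have h8 := Nat.cast_le (α := ℝ).2 ((Set.ncard_le_ncard hsub
    (((hfin _).union (hfin _)).union hfinU)).trans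
      ((Set.ncard_union_le _ _).trans (add_le_add (Set.ncard_union_le _ _)
        (J.set_ncard_biUnion_le _))))
  rw [Nat.cast_add, Nat.cast_add, Nat.cast_sum] at h8
  refine h8.trans ?_
  have h9 : ε / T * c * X ^ (5 * Module.finrank ℚ K) ≤ ε / T * ((Bx K X).ncard : ℝ) := by
    rw [mul_assoc]
    exact mul_le_mul_of_nonneg_left g1 (by positivity)
  have h10 : (∑ I ∈ J, (({p : 𝓞 K × 𝓞 K | p ∈ Bx K X ∧ ∀ v ∈ V I,
      ¬ (H76PP.dsc p.1 p.2 ∈ v.asIdeal ∧ H76PP.dsc p.1 p.2 ∉ v.asIdeal ^ 2)}.ncard : ℕ) : ℝ)) ≤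
      2 ^ Δ.card * (ε / T * ((Bx K X).ncard : ℝ)) := by
    refine (Finset.sum_le_card_nsmul J _ (ε / T * ((Bx K X).ncard : ℝ)) fun I hI => ?_).trans ?_
    · obtain ⟨i1, i2⟩ := (hJ I).1 hI
      exact (g5 I (Finset.mem_powerset.2 i1) i2).trans h9
    · rw [nsmul_eq_mul]
      exact mul_le_mul_of_nonneg_right hJc (by positivity)
  have h11 : ε * ((Bx K X).ncard : ℝ) = T * (ε / T * ((Bx K X).ncard : ℝ)) := by
    field_simp
  have h12 : 0 ≤ ε / T * ((Bx K X).ncard : ℝ) := by positivity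
  rw [h11]
  nlinarith [g4.trans h9]

end H76MB
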