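import Pool.Agent.H76.MB.Cg

/-!
Row MB/Ch (project MP_78d38b_MQ, PI helper76), about 150 lines: the parity of the 2-Selmer rank for two arbitrary twists.

`par_any`: `T1` := the union of the sets of `exists_T1` for `(D, E)`; `exists_sys` for `T1`; `Y`, `YE` from `exists_IsY`; `X` := the subgroup of the `c ∈ HH K L` with `eo w c = 0` for `dn K w ∉ Sg`, `dn K w ∉ T` (a subgroup: `H38T1.eo_add`); `lag3` (Cb.lean) gives `p n q` with `YE.relIndex Y = 2 ^ q`,
`q = ∑ kap` by `exists_T1` (`Nat.pow_right_injective`). `S.V D c ↔ c ∈ Y ∧ ∀ j, r j c = 0`: `D` has even order outside `Sg`, so at `v ∉ Sg` `S.Lv D v c ↔ ∀ w above v, eo w c = 0` (`Wc_even`, see `hgood` in the proof of `Tk_main`, Pool/Agent/H30/OR/Tk.lean), and the clause on `r` in `exists_sys`.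
`kap_symm`: first for a set `Sg` with the properties of `exists_sys` and which contains the primes at which `D` or `E` has odd order, and the prime of `p` if `p` is finite. Choose `E' : K`, `E' ≠ 0`, `E' / E` a square at `p` and `E' / D` a square at the other places of `plc Sg`
(weak approximation over `K` at finite and real places; `approx_pos`/`exists_al`, Pool/Agent/H76/GM/Dl.lean, gives a positive `y` with prescribed classes; for real `p` and for the signs multiply by an element with prescribed signs which is a square at `Sg`: `H88PL.exists_sign` or a weak approximation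
lemma with signs). Then `kap S D E' q = 0 = kap S E' D q` for `q ≠ p` (`WW_sq`, `kap_self`) and `kap S D E' p = kap S D E p`, `kap S E' D p = kap S E D p`. `exists_sys` with `T1` ⊇ the sets of `exists_T1` for `(D, E')` and `(E', D)` and the primes outside `Sg` at which `E'` has odd order.
`lag3` gives `Nat.card Y = Nat.card YE'`, so `YE'.relIndex Y = Y.relIndex YE'` (both are the quotient of this number by `Nat.card (Y ⊓ YE')`), and `exists_T1` gives `2 ^ kap S D E p = 2 ^ kap S E D p`.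
-/

set_option autoImplicit false
set_option linter.unusedSectionVars false
open scoped Classical

open WithZero NumberField IsDedekindDomain H38RT
open H38T1 (SC sc scu rep rep_ne sc_rep sc_mul sc_eq_zero sc_surj eo la si Pri OddP tp unif ka)
open H76PP H36MX H76MQ H30ZO H76OD H88OD H26OD H30OD H36CY H30OR H76GM

namespace H76MB

variable {K L : Type} [Field K] [NumberField K] [Field L] [NumberField L] [Algebra K L]
  {a b : 𝓞 K} {θ : L}

/-- The group of the classes which are even outside `Sg` and `T`. -/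
private theorem ch_X (K L : Type) [Field K] [NumberField K] [Field L] [NumberField L]
    [Algebra K L] (Sg T : Finset (HeightOneSpectrum (𝓞 K))) :
    ∃ X : AddSubgroup (SC L), ∀ c, c ∈ X ↔ c ∈ HH K L ∧
      ∀ w : HeightOneSpectrum (𝓞 L), dn K w ∉ Sg → dn K w ∉ T → eo w c = 0 := by
  refine ⟨{ carrier := {c | c ∈ HH K L ∧
              ∀ w : HeightOneSpectrum (𝓞 L), dn K w ∉ Sg → dn K w ∉ T → eo w c = 0}
            add_mem' := ?_
            zero_mem' := ?_
            neg_mem' := ?_ }, fun c => Iff.rfl⟩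
  · rintro x y ⟨hx, hx'⟩ ⟨hy, hy'⟩
    refine ⟨add_mem hx hy, fun w h1 h2 => ?_⟩
    rw [H38T1.eo_add, hx' w h1 h2, hy' w h1 h2, add_zero]
  · refine ⟨zero_mem _, fun w _ _ => ?_⟩
    exact map_zero (AddMonoidHom.mk' (eo w) (H38T1.eo_add w))
  · rintro x ⟨hx, hx'⟩
    refine ⟨neg_mem hx, fun w h1 h2 => ?_⟩
    have h3 := map_neg (AddMonoidHom.mk' (eo w) (H38T1.eo_add w)) x
    change eo w (-x) = -eo w x at h3
    rw [h3, hx' w h1 h2, neg_zero]

/-- The Selmer group inside the relaxed group. -/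
private theorem ch_V (S : Ext K K L (a : K) (b : K) θ) {Sg T : Finset (HeightOneSpectrum (𝓞 K))}
    (h2 : ∀ v : HeightOneSpectrum (𝓞 K), v ∉ Sg → v.valuation K 2 = 1)
    (hd : ∀ v : HeightOneSpectrum (𝓞 K), v ∉ Sg →
      v.valuation K (4 * (a : K) ^ 3 + 27 * (b : K) ^ 2) = 1) (hdis : Disjoint Sg T)
    {J : Type} {r : J → (SC L →+ ZMod 2)}
    (hr0 : ∀ c ∈ HH K L, (∀ j, r j c = 0) ↔
        ∀ w : HeightOneSpectrum (𝓞 L), dn K w ∈ T → eo w c = 0) {F : K} (hF : F ≠ 0)
    (hFe : ∀ v : HeightOneSpectrum (𝓞 K), v ∉ Sg → Even (ord (v.valuation K) F))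
    {Y : AddSubgroup (SC L)} (hY : IsY S F Sg T Y) (c : SC L) :
    S.V F c ↔ c ∈ Y ∧ ∀ j, r j c = 0 := by
  have h : Cub K L (a : K) (b : K) θ := S.cub
  have hgood : ∀ v : HeightOneSpectrum (𝓞 K), v ∉ Sg → ∀ c ∈ HH K L,
      (S.Lv F v c ↔ ∀ w : HeightOneSpectrum (𝓞 L), dn K w = v → eo w c = 0) := by
    intro v hv c hc
    exact Wc_even h (S.ha v) (S.hb v) (h2 v hv) (hd v hv) hF (hFe v hv) hc
  constructor
  · intro hc
    have h4 : ∀ w : HeightOneSpectrum (𝓞 L), dn K w ∉ Sg → eo w c = 0 := fun w hw =>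
      (hgood _ hw c hc.hh).1 (hc.fin _) w rfl
    refine ⟨(hY c).2 ⟨hc.hh, fun v _ => hc.fin v, fun s => hc.inf s, fun w hw _ => h4 w hw⟩, ?_⟩
    exact (hr0 c hc.hh).2 fun w hw => h4 w fun h5 => Finset.disjoint_left.1 hdis h5 hw
  · rintro ⟨hc, hr⟩
    obtain ⟨k1, k2, k3, k4⟩ := (hY c).1 hc
    have h5 := (hr0 c k1).1 hr
    refine ⟨k1, fun v => ?_, k3⟩
    by_cases hv : v ∈ Sg
    · exact k2 v hv
    · rw [hgood v hv c k1]
      intro w hw
      by_cases hT : v ∈ T
      · exact h5 w (by rw [hw]; exact hT)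
      · exact k4 w (by rw [hw]; exact hv) (by rw [hw]; exact hT)

/-- **The parity for two arbitrary twists.** -/
theorem par_any (S : Ext K K L (a : K) (b : K) θ) {Sg : Finset (HeightOneSpectrum (𝓞 K))}
    (h2 : ∀ v : HeightOneSpectrum (𝓞 K), v ∉ Sg → v.valuation K 2 = 1)
    (h3 : ∀ v : HeightOneSpectrum (𝓞 K), v ∉ Sg → v.valuation K 3 = 1)
    (hd : ∀ v : HeightOneSpectrum (𝓞 K), v ∉ Sg →
      v.valuation K (4 * (a : K) ^ 3 + 27 * (b : K) ^ 2) = 1)
    {D E : K} (hD : D ≠ 0) (hE : E ≠ 0)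
    (hDe : ∀ v : HeightOneSpectrum (𝓞 K), v ∉ Sg → Even (ord (v.valuation K) D))
    (hEe : ∀ v : HeightOneSpectrum (𝓞 K), v ∉ Sg → Even (ord (v.valuation K) E)) :
    ∃ p n : ℕ, Nat.card {c : SC L // S.V D c} = 2 ^ p ∧ Nat.card {c : SC L // S.V E c} = 2 ^ n ∧
      Even (p + n + ∑ q ∈ plc Sg, kap S D E q) := by
  obtain ⟨T1, hT1⟩ := exists_T1 S hD hE Sg
  obtain ⟨T, J, _, r, u, hsub, hdis, hinj, hr0, hmain⟩ := exists_sys S h2 h3 hd T1
  obtain ⟨Y, hY⟩ := exists_IsY S hD Sg T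
  obtain ⟨YE, hYE⟩ := exists_IsY S hE Sg T
  obtain ⟨X, hX⟩ := ch_X K L Sg T
  have m1 := hmain D hD (fun v hv _ => hDe v hv) Y hY
  have m2 := hmain E hE (fun v hv _ => hEe v hv) YE hYE
  obtain ⟨-, p, n, q, hp, hn, hq, hev⟩ := lag3 r u (X := X) (A := Y) (B := YE)
    (fun x hx => hinj x ((hX x).1 hx).1 ((hX x).1 hx).2)
    (fun x hx => (hX x).2 ⟨((hY x).1 hx).1, ((hY x).1 hx).2.2.2⟩)
    (fun x hx => (hX x).2 ⟨((hYE x).1 hx).1, ((hYE x).1 hx).2.2.2⟩) m1.2 m2.2 m1.1 m2.1
  refine ⟨p, n, ?_, ?_, ?_⟩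
  · rw [← hp]
    exact Nat.card_congr (Equiv.subtypeEquivRight (ch_V S h2 hd hdis hr0 hD hDe hY))
  · rw [← hn]
    exact Nat.card_congr (Equiv.subtypeEquivRight (ch_V S h2 hd hdis hr0 hE hEe hYE))
  · have h4 := hT1 T hsub Y YE hY hYE
    rw [hq] at h4
    rw [← Nat.pow_right_injective (le_refl 2) h4]
    exact hev

/-- An element which is a square at `Sg` and negative at exactly one real place. -/
private theorem ch_sgn {K : Type} [Field K] [NumberField K] (s0 : K →+* ℝ)
    (Sg : Finset (HeightOneSpectrum (𝓞 K))) :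
    ∃ δ : K, δ ≠ 0 ∧ (∀ u ∈ Sg, IsSquare (algebraMap K (u.adicCompletion K) δ)) ∧ s0 δ < 0 ∧
      ∀ s : K →+* ℝ, s ≠ s0 → 0 < s δ := by
  obtain ⟨α, hα⟩ := Field.exists_primitive_element ℚ K
  have hne : ∀ s : K →+* ℝ, s ≠ s0 → s α ≠ s0 α := by
    intro s hs h1
    apply hs
    have h3 : IntermediateField.adjoin ℚ {α} ≤
        ((RingHom.eqLocusField s s0).toIntermediateField fun q => by
          show s (algebraMap ℚ K q) = s0 (algebraMap ℚ K q)
          rw [eq_ratCast, map_ratCast, map_ratCast]) := by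
      rw [IntermediateField.adjoin_le_iff]
      intro y hy
      rw [Set.mem_singleton_iff] at hy
      subst hy
      exact h1
    rw [hα] at h3
    exact RingHom.ext fun x => h3 (IntermediateField.mem_top (x := x))
  have hfin : (Set.range fun s : K →+* ℝ => s α).Finite := Set.finite_range _
  -- an open interval around `s0 α` without other conjugates
  obtain ⟨ε, hε, hε'⟩ : ∃ ε : ℝ, 0 < ε ∧ ∀ s : K →+* ℝ, s ≠ s0 → ε ≤ |s α - s0 α| := by
    have _ : Fintype (K →+* ℝ) := Fintype.ofFinite _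
    by_cases hemp : (Finset.univ.filter fun s : K →+* ℝ => s ≠ s0).Nonempty
    · refine ⟨(Finset.univ.filter fun s : K →+* ℝ => s ≠ s0).inf' hemp fun s => |s α - s0 α|,
        ?_, fun s hs => Finset.inf'_le (fun s : K →+* ℝ => |s α - s0 α|)
          (Finset.mem_filter.2 ⟨Finset.mem_univ s, hs⟩)⟩
      rw [Finset.lt_inf'_iff]
      intro s hs
      exact abs_pos.2 (sub_ne_zero.2 (hne s (Finset.mem_filter.1 hs).2))
    · refine ⟨1, one_pos, fun s hs => absurd ⟨s, Finset.mem_filter.2 ⟨Finset.mem_univ _, hs⟩⟩ hemp⟩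
  obtain ⟨q1, hq1, hq1'⟩ := exists_rat_btwn (sub_lt_self (s0 α) hε)
  obtain ⟨q2, hq2, hq2'⟩ := exists_rat_btwn (lt_add_of_pos_right (s0 α) hε)
  obtain ⟨z, hz⟩ : ∃ z : K, z = (α - (q1 : K)) * (α - (q2 : K)) := ⟨_, rfl⟩
  have hsz : ∀ s : K →+* ℝ, s z = (s α - q1) * (s α - q2) := by
    intro s
    rw [hz, map_mul, map_sub, map_sub, map_ratCast, map_ratCast]
  have hz1 : s0 z < 0 := by
    rw [hsz]
    exact mul_neg_of_pos_of_neg (by linarith) (by linarith)
  have hz2 : ∀ s : K →+* ℝ, s ≠ s0 → 0 < s z := by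
    intro s hs
    rw [hsz]
    have h1 := hε' s hs
    rcases le_abs.1 h1 with h4 | h4
    · exact mul_pos (by linarith) (by linarith)
    · exact mul_pos_of_neg_of_neg (by linarith) (by linarith)
  have hz0 : z ≠ 0 := by
    rintro rfl
    rw [map_zero] at hz1
    exact lt_irrefl _ hz1
  obtain ⟨y, hy0, hy, hpos⟩ := approx_pos Sg (fun _ => z) fun _ _ => hz0
  refine ⟨z * y, mul_ne_zero hz0 hy0, fun u hu => ?_, ?_, fun s hs => ?_⟩
  · obtain ⟨-, t, -, ht⟩ := hy u hu
    refine ⟨algebraMap K (u.adicCompletion K) z * t, ?_⟩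
    rw [map_mul, ht]
    ring
  · rw [map_mul]
    exact mul_neg_of_neg_of_pos hz1 (hpos s0)
  · rw [map_mul]
    exact mul_pos (hz2 s hs) (hpos s)

/-- An element with prescribed class at one place, a square at the other places. -/
private theorem ch_app {K : Type} [Field K] [NumberField K] {x : K} (hx : x ≠ 0)
    (p : HeightOneSpectrum (𝓞 K) ⊕ (K →+* ℝ)) (Sg : Finset (HeightOneSpectrum (𝓞 K))) :
    ∃ y : K, y ≠ 0 ∧ LSq p (y * x) ∧ ∀ q ∈ plc Sg, q ≠ p → LSq q y := by
  rcases p with v | s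
  · obtain ⟨y, hy0, hpos, h1, -, t, -, ht⟩ := exists_al Sg hx v
    refine ⟨y, hy0, ?_, ?_⟩
    · refine ⟨algebraMap K (v.adicCompletion K) x * t, ?_⟩
      rw [map_mul, ht]
      ring
    · rintro (u | s) hu hne
      · have hu' : u ∈ Sg := Finset.inl_mem_disjSum.1 hu
        exact (h1 u hu' fun h4 => hne (by rw [h4])).1
      · exact hpos s
  · by_cases hs : 0 < s x
    · refine ⟨1, one_ne_zero, ?_, ?_⟩
      · show 0 < s (1 * x)
        rw [one_mul]
        exact hs
      · rintro (u | s) - -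
        · show IsSquare (algebraMap K (u.adicCompletion K) 1)
          rw [map_one]
          exact IsSquare.one
        · show 0 < s 1
          rw [map_one]
          exact one_pos
    · have hs' : s x < 0 := lt_of_le_of_ne (not_lt.1 hs) ((map_ne_zero s).2 hx)
      obtain ⟨δ, hδ0, h1, h2, h3⟩ := ch_sgn s Sg
      refine ⟨δ, hδ0, ?_, ?_⟩
      · show 0 < s (δ * x)
        rw [map_mul]
        exact mul_pos_of_neg_of_neg h2 hs'
      · rintro (u | s') hu hne
        · exact h1 u (Finset.inl_mem_disjSum.1 hu)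
        · exact h3 s' fun h4 => hne (by rw [h4])

private theorem ch_card {M : Type} [AddCommGroup M] (A B : AddSubgroup M) :
    Nat.card (A ⊓ B : AddSubgroup M) * B.relIndex A = Nat.card A := by
  rw [← AddSubgroup.inf_relIndex_left, AddSubgroup.relIndex,
    Nat.card_congr (AddSubgroup.addSubgroupOfEquivOfLe (inf_le_left : A ⊓ B ≤ A)).toEquiv.symm]
  exact AddSubgroup.card_mul_index _

private theorem ch_ord {K : Type} [Field K] [NumberField K] {v : HeightOneSpectrum (𝓞 K)} {x : K}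
    (h : v.valuation K x = 1) : ord (v.valuation K) x = 0 := by
  unfold ord
  rw [h, log_one, neg_zero]

/-- **The distance of the local conditions is symmetric.** -/
theorem kap_symm (S : Ext K K L (a : K) (b : K) θ) {D E : K} (hD : D ≠ 0) (hE : E ≠ 0)
    (p : HeightOneSpectrum (𝓞 K) ⊕ (K →+* ℝ)) : kap S D E p = kap S E D p := by
  obtain ⟨Sg, hSg, hp⟩ : ∃ Sg : Finset (HeightOneSpectrum (𝓞 K)),
      (∀ v, v ∉ Sg → v.valuation K 2 = 1 ∧ v.valuation K 3 = 1 ∧
        v.valuation K (4 * (a : K) ^ 3 + 27 * (b : K) ^ 2) = 1 ∧ v.valuation K D = 1) ∧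
      p ∈ plc Sg := by
    obtain ⟨Sp, hSp⟩ : ∃ Sp : Finset (HeightOneSpectrum (𝓞 K)), p ∈ plc Sp := by
      rcases p with v | s
      · exact ⟨{v}, Finset.inl_mem_disjSum.2 (Finset.mem_singleton_self v)⟩
      · exact ⟨∅, Finset.inr_mem_disjSum.2 (Finset.mem_univ s)⟩
    refine ⟨Sp ∪ ((fin_bad (K := K) (x := 2) two_ne_zero).toFinset ∪
      ((fin_bad (K := K) (x := 3) three_ne_zero).toFinset ∪
        ((fin_bad (K := K) S.dne).toFinset ∪ (fin_bad hD).toFinset))), fun v hv => ?_, ?_⟩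
    · rw [Finset.mem_union, Finset.mem_union, Finset.mem_union, Finset.mem_union, not_or, not_or,
        not_or, not_or] at hv
      obtain ⟨-, k2, k3, kd, kD⟩ := hv
      refine ⟨?_, ?_, ?_, ?_⟩
      · by_contra h; exact k2 ((Set.Finite.mem_toFinset _).2 h)
      · by_contra h; exact k3 ((Set.Finite.mem_toFinset _).2 h)
      · by_contra h; exact kd ((Set.Finite.mem_toFinset _).2 h)
      · by_contra h; exact kD ((Set.Finite.mem_toFinset _).2 h)
    · rcases p with v | s
      · exact Finset.inl_mem_disjSum.2 (Finset.mem_union_left _ (Finset.inl_mem_disjSum.1 hSp))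
      · exact Finset.inr_mem_disjSum.2 (Finset.mem_univ s)
  -- the element `E'`
  obtain ⟨y, hy0, hy1, hy2⟩ := ch_app (div_ne_zero hD hE) p Sg
  obtain ⟨E', hE'⟩ : ∃ E', E' = D * y := ⟨_, rfl⟩
  have hE0 : E' ≠ 0 := by
    rw [hE']
    exact mul_ne_zero hD hy0
  have e1 : WW S E p = WW S E' p := WW_sq S hE hE0 (by
    rw [hE', show D * y / E = y * (D / E) by ring]
    exact hy1)
  have e2 : ∀ q ∈ plc Sg, q ≠ p → WW S D q = WW S E' q := fun q hq hne => WW_sq S hD hE0 (by
    rw [hE', mul_div_cancel_left₀ _ hD]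
    exact hy2 q hq hne)
  obtain ⟨T1, hT1⟩ := exists_T1 S hD hE0 Sg
  obtain ⟨T2, hT2⟩ := exists_T1 S hE0 hD Sg
  obtain ⟨T, J, _, r, u, hsub, hdis, hinj, hr0, hmain⟩ := exists_sys S (fun v hv => (hSg v hv).1)
    (fun v hv => (hSg v hv).2.1) (fun v hv => (hSg v hv).2.2.1)
    (T1 ∪ (T2 ∪ (fin_bad hE0).toFinset))
  obtain ⟨Y, hY⟩ := exists_IsY S hD Sg T
  obtain ⟨YE, hYE⟩ := exists_IsY S hE0 Sg T
  obtain ⟨X, hX⟩ := ch_X K L Sg T
  have m1 := hmain D hD (fun v hv _ => by
    rw [ch_ord (hSg v hv).2.2.2]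
    exact Even.zero) Y hY
  have m2 := hmain E' hE0 (fun v hv hvT => by
    have h4 : v.valuation K E' = 1 := by
      by_contra h
      have h5 := hsub (Finset.mem_union_right _ (Finset.mem_union_right _
        ((Set.Finite.mem_toFinset _).2 h)))
      rw [Finset.mem_union] at h5
      exact h5.elim hv hvT
    rw [ch_ord h4]
    exact Even.zero) YE hYE
  obtain ⟨hcard, -⟩ := lag3 r u (X := X) (A := Y) (B := YE)
    (fun x hx => hinj x ((hX x).1 hx).1 ((hX x).1 hx).2)
    (fun x hx => (hX x).2 ⟨((hY x).1 hx).1, ((hY x).1 hx).2.2.2⟩)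
    (fun x hx => (hX x).2 ⟨((hYE x).1 hx).1, ((hYE x).1 hx).2.2.2⟩) m1.2 m2.2 m1.1 m2.1
  have hYc : Nat.card Y ≠ 0 := by
    intro h4
    have h5 := m1.1
    rw [h4] at h5
    exact (Nat.two_pow_pos _).ne' (Nat.le_zero.1 h5)
  have hrel : YE.relIndex Y = Y.relIndex YE := by
    have c1 := ch_card Y YE
    have c2 := ch_card YE Y
    rw [inf_comm] at c2
    have h5 : Nat.card (Y ⊓ YE : AddSubgroup (SC L)) ≠ 0 := by
      intro h4
      rw [h4, zero_mul] at c1
      exact hYc c1.symm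
    refine Nat.eq_of_mul_eq_mul_left (Nat.pos_of_ne_zero h5) ?_
    rw [c1, c2, hcard]
  have s1 := hT1 T (fun v hv => hsub (Finset.mem_union_left _ hv)) Y YE hY hYE
  have s2 := hT2 T (fun v hv => hsub (Finset.mem_union_right _ (Finset.mem_union_left _ hv)))
    YE Y hYE hY
  rw [hrel, s2] at s1
  have s3 := Nat.pow_right_injective (le_refl 2) s1
  have z1 : ∀ q ∈ plc Sg, q ≠ p → kap S E' D q = 0 := by
    intro q hq hne
    have h4 := kap_self S E' q
    unfold kap at h4 ⊢
    rw [e2 q hq hne]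
    exact h4
  have z2 : ∀ q ∈ plc Sg, q ≠ p → kap S D E' q = 0 := by
    intro q hq hne
    have h4 := kap_self S E' q
    unfold kap at h4 ⊢
    rw [e2 q hq hne]
    exact h4
  rw [Finset.sum_eq_single_of_mem p hp z1, Finset.sum_eq_single_of_mem p hp z2] at s3
  have w1 : kap S D E p = kap S D E' p := by
    unfold kap
    rw [e1]
  have w2 : kap S E D p = kap S E' D p := by
    unfold kap
    rw [e1]
  rw [w1, w2]
  exact s3.symm

end H76MB
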