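import Pool.Agent.H76.MB.Ba
import Pool.Agent.H76.MB.Ch

/-!
Row MB/Ci (project MP_78d38b_MQ, PI helper76), about 150 lines: the balance of the parities is a local question.  CHANGED 21:50: new definition of `CycAt`, simpler proof, `kap_symm` is not needed.

(0) `S : Ext K K L a b θ` from `hir`, `hsq`: `exists_self`, `exists_upM` as in `par_KM` (Pool/Agent/H76/GM/Fa.lean); `EvS K K a b D ↔ Even p` if `Nat.card {c // S.V D c} = 2 ^ p` (`evS_iff`, `pow_four_iff`). With `Sg` ⊇ all primes at which 2, 3, the discriminant, `D`, `D0` or some `d ∈ Δ` is not a unit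
(`exists_okA`, Ba.lean): for `x, y` among the `d * D`, `d * D0` (`d ∈ Δ`): `pf1 x + pf1 y = ∑ q ∈ plc Sg, (kap S x y q : ZMod 2)` (`par_any`), where `pf1 x := if EvS K K a b x then 0 else 1`, `pf a b D d = pf1 (d * D)`.
(1) Let `I ⊆ Δ`, `Even I.card`, `∏ I` a square, `d1 ∈ I`, `q ∈ plc Sg` with: for all `d, d', d'' ∈ Δ` one of `d d'`, `d' d''`, `d d''` is a square at `q` (at a real place this is automatic: two of three signs are equal). `I1 := {d ∈ I | ¬ LSq q (d * d1)}`: all `d, d' ∈ I1` have `LSq q (d * d')`, and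
`I1.card` is even: `∏ I` is a square at `q` and it is `(∏ (I \ I1)) * ∏ I1`, where the first product is `d1 ^ card` and the second `d2 ^ card` times a square at `q` (`d2 ∈ I1`); both cardinalities have the same parity; if they were odd, `d1 * d2` would be a square at `q`.
`bal_near`: for such `I`: `∑ d ∈ I, (pf a b D0 d + pf a b D d) = ∑ q ∈ plc Sg, ∑ d ∈ I, kap S (d * D0) (d * D) q`, and every inner sum is even: if `LSq q (D / D0)` all terms are `0` (`WW_sq`, `kap_self`: `kap` depends on `WW` only). Otherwise `kap S (d * D0) (d * D) q` has one value on `I \ I1` and one value on `I1`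
(`WW_sq`: `d * D0` and `d' * D0` differ by a square at `q` if `d * d'` is one), and both cardinalities are even. (`I = ∅` is trivial.)
`bal_cyc`: `∑ d ∈ I, pf a b D d = ∑ d ∈ I, (pf a b D d + pf a b D d1)` (`I.card` even) `= ∑ q, ∑ d ∈ I, kap S (d * D) (d1 * D) q`: at `q` the terms with `d ∉ I1` are `0` and the others have one common value; `I1.card` is even.
-/

set_option autoImplicit false
set_option linter.unusedSectionVars false
open scoped Classical

open WithZero NumberField IsDedekindDomain H38RT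
open H38T1 (SC sc scu rep rep_ne sc_rep sc_mul sc_eq_zero sc_surj eo la si Pri OddP tp unif ka)
open H76PP H36MX H76MQ H30ZO H76OD H88OD H26OD H30OD H36CY H30OR H76GM

namespace H76MB

variable {K : Type} [Field K] [NumberField K] {a b : 𝓞 K}

/-- The elements of `Δ` have at most two classes modulo squares at `v`. -/
def CycAt (Δ : Finset K) (v : HeightOneSpectrum (𝓞 K)) : Prop :=
  ∀ d ∈ Δ, ∀ d' ∈ Δ, ∀ d'' ∈ Δ, IsSquare (algebraMap K (v.adicCompletion K) (d * d')) ∨
    IsSquare (algebraMap K (v.adicCompletion K) (d' * d'')) ∨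
    IsSquare (algebraMap K (v.adicCompletion K) (d * d''))

private theorem lsq_mul {p : HeightOneSpectrum (𝓞 K) ⊕ (K →+* ℝ)} {x y : K} (hx : LSq p x)
    (hy : LSq p y) : LSq p (x * y) := by
  cases p with
  | inl v =>
    change IsSquare (algebraMap K (v.adicCompletion K) (x * y))
    rw [map_mul]
    exact IsSquare.mul hx hy
  | inr s =>
    change 0 < s (x * y)
    rw [map_mul]
    exact mul_pos hx hy

private theorem lsq_div {p : HeightOneSpectrum (𝓞 K) ⊕ (K →+* ℝ)} {x y : K} (hx : LSq p x)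
    (hy : LSq p y) : LSq p (x / y) := by
  cases p with
  | inl v =>
    change IsSquare (algebraMap K (v.adicCompletion K) (x / y))
    rw [map_div₀]
    exact IsSquare.div hx hy
  | inr s =>
    change 0 < s (x / y)
    rw [map_div₀]
    exact div_pos hx hy

private theorem lsq_self {p : HeightOneSpectrum (𝓞 K) ⊕ (K →+* ℝ)} {x : K} (hx : x ≠ 0) :
    LSq p (x * x) := by
  cases p with
  | inl v =>
    change IsSquare (algebraMap K (v.adicCompletion K) (x * x))
    rw [map_mul]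
    exact ⟨_, rfl⟩
  | inr s =>
    change 0 < s (x * x)
    rw [map_mul]
    exact mul_self_pos.2 ((map_ne_zero s).2 hx)

private theorem lsq_one (p : HeightOneSpectrum (𝓞 K) ⊕ (K →+* ℝ)) : LSq p (1 : K) := by
  have h := lsq_self (p := p) (x := (1 : K)) one_ne_zero
  rwa [mul_one] at h

private theorem lsq_of_mul {p : HeightOneSpectrum (𝓞 K) ⊕ (K →+* ℝ)} {x y : K} (hx0 : x ≠ 0)
    (hx : LSq p x) (h : LSq p (x * y)) : LSq p y := by
  have h1 := lsq_div h hx
  rwa [mul_div_cancel_left₀ _ hx0] at h1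

private theorem lsq_prod {p : HeightOneSpectrum (𝓞 K) ⊕ (K →+* ℝ)} {I : Finset K} {f : K → K}
    (h : ∀ d ∈ I, LSq p (f d)) : LSq p (∏ d ∈ I, f d) :=
  Finset.prod_induction f (LSq p) (fun _ _ => lsq_mul) (lsq_one p) h

/-- `y / x` is a square if `x * y` is one. -/
private theorem lsq_quot {p : HeightOneSpectrum (𝓞 K) ⊕ (K →+* ℝ)} {x y : K} (hx : x ≠ 0)
    (h : LSq p (x * y)) : LSq p (y / x) := by
  have h1 := lsq_div h (lsq_self (p := p) hx)
  rwa [mul_div_mul_left _ _ hx] at h1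

/-- The elements of `Δ` have at most two classes modulo squares at a place. -/
private def CycP (Δ : Finset K) (p : HeightOneSpectrum (𝓞 K) ⊕ (K →+* ℝ)) : Prop :=
  ∀ d ∈ Δ, ∀ d' ∈ Δ, ∀ d'' ∈ Δ, LSq p (d * d') ∨ LSq p (d' * d'') ∨ LSq p (d * d'')

private theorem cycP_real {Δ : Finset K} (hΔ : ∀ d ∈ Δ, d ≠ 0) (s : K →+* ℝ) :
    CycP Δ (Sum.inr s) := by
  intro x hx y hy z hz
  change 0 < s (x * y) ∨ 0 < s (y * z) ∨ 0 < s (x * z)
  rw [map_mul, map_mul, map_mul]
  have h1 : s x ≠ 0 := (map_ne_zero s).2 (hΔ x hx)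
  have h2 : s y ≠ 0 := (map_ne_zero s).2 (hΔ y hy)
  have h3 : s z ≠ 0 := (map_ne_zero s).2 (hΔ z hz)
  rcases lt_or_gt_of_ne h1 with h1 | h1 <;> rcases lt_or_gt_of_ne h2 with h2 | h2 <;>
    rcases lt_or_gt_of_ne h3 with h3 | h3
  · exact Or.inl (mul_pos_of_neg_of_neg h1 h2)
  · exact Or.inl (mul_pos_of_neg_of_neg h1 h2)
  · exact Or.inr (Or.inr (mul_pos_of_neg_of_neg h1 h3))
  · exact Or.inr (Or.inl (mul_pos h2 h3))
  · exact Or.inr (Or.inl (mul_pos_of_neg_of_neg h2 h3))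
  · exact Or.inr (Or.inr (mul_pos h1 h3))
  · exact Or.inl (mul_pos h1 h2)
  · exact Or.inl (mul_pos h1 h2)

private theorem sum_even_const {ι : Type} {I : Finset ι} {f : ι → ZMod 2} {c : ZMod 2}
    (h : ∀ d ∈ I, f d = c) (hev : Even I.card) : ∑ d ∈ I, f d = 0 := by
  rw [Finset.sum_congr rfl h, Finset.sum_const, nsmul_eq_mul,
    (ZMod.natCast_eq_zero_iff _ 2).2 hev.two_dvd, zero_mul]

private noncomputable def pf1 (a b : 𝓞 K) (x : K) : ZMod 2 := if EvS K K a b x then 0 else 1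

private theorem kap_congr {L : Type} [Field L] [NumberField L] [Algebra K L] {θ : L} {a b : K}
    (S : Ext K K L a b θ) {D D' E E' : K} {p : HeightOneSpectrum (𝓞 K) ⊕ (K →+* ℝ)}
    (h1 : WW S D p = WW S D' p) (h2 : WW S E p = WW S E' p) :
    kap S D E p = kap S D' E' p := by
  unfold kap
  rw [h1, h2]

private theorem pf1_eq {L : Type} [Field L] [NumberField L] [Algebra K L] {θ : L}
    (S : Ext K K L (a : K) (b : K) θ) {x : K} (hx : x ≠ 0) {p : ℕ}
    (hp : Nat.card {c : SC L // S.V x c} = 2 ^ p) : pf1 a b x = (p : ZMod 2) := by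
  have h1 : EvS K K a b x ↔ Even p := (evS_iff (K := K) (M := K) S hx).trans (pow_four_iff hp)
  unfold pf1
  by_cases h : Even p
  · rw [if_pos (h1.2 h)]
    exact ((ZMod.natCast_eq_zero_iff _ 2).2 h.two_dvd).symm
  · rw [if_neg fun h' => h (h1.1 h')]
    exact (ZMod.natCast_eq_one_iff_odd.2 (Nat.not_even_iff_odd.1 h)).symm

private theorem key {L : Type} [Field L] [NumberField L] [Algebra K L] {θ : L}
    (S : Ext K K L (a : K) (b : K) θ) {Sg : Finset (HeightOneSpectrum (𝓞 K))}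
    (h2 : ∀ v : HeightOneSpectrum (𝓞 K), v ∉ Sg → v.valuation K 2 = 1)
    (h3 : ∀ v : HeightOneSpectrum (𝓞 K), v ∉ Sg → v.valuation K 3 = 1)
    (hd : ∀ v : HeightOneSpectrum (𝓞 K), v ∉ Sg →
      v.valuation K (4 * (a : K) ^ 3 + 27 * (b : K) ^ 2) = 1)
    {x y : K} (hx : x ≠ 0) (hy : y ≠ 0)
    (hxe : ∀ v : HeightOneSpectrum (𝓞 K), v ∉ Sg → v.valuation K x = 1)
    (hye : ∀ v : HeightOneSpectrum (𝓞 K), v ∉ Sg → v.valuation K y = 1) :
    pf1 a b x + pf1 a b y = ∑ q ∈ plc Sg, ((kap S x y q : ℕ) : ZMod 2) := by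
  have hord : ∀ z : K, (∀ v : HeightOneSpectrum (𝓞 K), v ∉ Sg → v.valuation K z = 1) →
      ∀ v : HeightOneSpectrum (𝓞 K), v ∉ Sg → Even (ord (v.valuation K) z) := by
    intro z hz v hv
    have e : ord (v.valuation K) z = 0 := by
      unfold ord
      rw [hz v hv, log_one, neg_zero]
    rw [e]
    exact Even.zero
  obtain ⟨p, n, hp, hn, hev⟩ := par_any S h2 h3 hd hx hy (hord x hxe) (hord y hye)
  rw [pf1_eq S hx hp, pf1_eq S hy hn, ← Nat.cast_sum]
  have h := (ZMod.natCast_eq_zero_iff _ 2).2 hev.two_dvd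
  rw [Nat.cast_add, Nat.cast_add] at h
  exact CharTwo.add_eq_zero.1 h

/-- The sum over `I` of a function of the class at `q`. -/
private theorem sum_cyc {Δ : Finset K} (hΔ : ∀ d ∈ Δ, d ≠ 0)
    {q : HeightOneSpectrum (𝓞 K) ⊕ (K →+* ℝ)} (h : CycP Δ q) {I : Finset K} (hI : I ⊆ Δ)
    (hev : Even I.card) (hsq : IsSquare (∏ d ∈ I, d)) {g : K → ZMod 2}
    (hg : ∀ d ∈ I, ∀ d' ∈ I, LSq q (d * d') → g d = g d') : ∑ d ∈ I, g d = 0 := by
  have hne : ∀ d ∈ I, d ≠ 0 := fun d hd => hΔ d (hI hd)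
  rcases I.eq_empty_or_nonempty with he | ⟨d1, hd1⟩
  · rw [he, Finset.sum_empty]
  have h11 : ∀ d ∈ I, ∀ d' ∈ I, ¬ LSq q (d * d1) → ¬ LSq q (d' * d1) → LSq q (d * d') := by
    intro d hd d' hd' n1 n2
    rw [mul_comm d' d1] at n2
    exact ((h d (hI hd) d1 (hI hd1) d' (hI hd')).resolve_left n1).resolve_left n2
  have hcard := Finset.card_filter_add_card_filter_not (s := I) (fun d => LSq q (d * d1))
  have hodd : Even (I.filter fun d => ¬ LSq q (d * d1)).card := by
    by_contra hno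
    rw [Nat.not_even_iff_odd] at hno
    have hno0 : Odd (I.filter fun d => LSq q (d * d1)).card := by
      rw [← Nat.not_even_iff_odd]
      intro h0
      rw [← hcard] at hev
      exact Nat.not_even_iff_odd.2 hno ((Nat.even_add.1 hev).1 h0)
    obtain ⟨k, hk⟩ := hno
    obtain ⟨l, hl⟩ := hno0
    obtain ⟨d2, hd2⟩ : (I.filter fun d => ¬ LSq q (d * d1)).Nonempty := by
      rw [← Finset.card_pos]
      omega
    obtain ⟨m1, m2⟩ := Finset.mem_filter.1 hd2
    have p0 : LSq q (∏ d ∈ I.filter (fun d => LSq q (d * d1)), d * d1) :=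
      lsq_prod fun d hd => (Finset.mem_filter.1 hd).2
    have p1 : LSq q (∏ d ∈ I.filter (fun d => ¬ LSq q (d * d1)), d * d2) :=
      lsq_prod fun d hd => h11 d (Finset.mem_filter.1 hd).1 d2 m1 (Finset.mem_filter.1 hd).2 m2
    have pI : LSq q (∏ d ∈ I, d) := by
      obtain ⟨r, hr⟩ := hsq
      rw [hr]
      refine lsq_self ?_
      rintro rfl
      rw [mul_zero] at hr
      exact Finset.prod_ne_zero_iff.2 hne hr
    have hsplit := Finset.prod_filter_mul_prod_filter_not I (fun d => LSq q (d * d1))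
      (fun d => d)
    rw [Finset.prod_mul_distrib, Finset.prod_const, hl] at p0
    rw [Finset.prod_mul_distrib, Finset.prod_const, hk] at p1
    have p2 := lsq_mul p0 p1
    have hk0 : d1 ^ l * d2 ^ k ≠ 0 :=
      mul_ne_zero (pow_ne_zero _ (hne d1 hd1)) (pow_ne_zero _ (hne d2 m1))
    have e : (∏ d ∈ I.filter (fun d => LSq q (d * d1)), d) * d1 ^ (2 * l + 1) *
        ((∏ d ∈ I.filter (fun d => ¬ LSq q (d * d1)), d) * d2 ^ (2 * k + 1)) =
        ((∏ d ∈ I, d) * ((d1 ^ l * d2 ^ k) * (d1 ^ l * d2 ^ k))) * (d2 * d1) := by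
      rw [← hsplit]
      ring
    rw [e] at p2
    exact m2 (lsq_of_mul (mul_ne_zero (Finset.prod_ne_zero_iff.2 hne) (mul_ne_zero hk0 hk0))
      (lsq_mul pI (lsq_self hk0)) p2)
  have heven : Even (I.filter fun d => LSq q (d * d1)).card := by
    rw [← hcard] at hev
    exact (Nat.even_add.1 hev).2 hodd
  rw [← Finset.sum_filter_add_sum_filter_not I (fun d => LSq q (d * d1))]
  have e0 : ∑ d ∈ I.filter (fun d => LSq q (d * d1)), g d = 0 :=
    sum_even_const (c := g d1) (fun d hd =>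
      hg d (Finset.mem_filter.1 hd).1 d1 hd1 (Finset.mem_filter.1 hd).2) heven
  have e1 : ∑ d ∈ I.filter (fun d => ¬ LSq q (d * d1)), g d = 0 := by
    rcases (I.filter fun d => ¬ LSq q (d * d1)).eq_empty_or_nonempty with he | ⟨d2, hd2⟩
    · rw [he, Finset.sum_empty]
    · obtain ⟨m1, m2⟩ := Finset.mem_filter.1 hd2
      refine sum_even_const (c := g d2) (fun d hd => ?_) hodd
      obtain ⟨n1, n2⟩ := Finset.mem_filter.1 hd
      exact hg d n1 d2 m1 (h11 d n1 d2 m1 n2 m2)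
  rw [e0, e1, add_zero]

private theorem place_sum {L : Type} [Field L] [NumberField L] [Algebra K L] {θ : L} {a b : K}
    (S : Ext K K L a b θ) {Δ : Finset K} (hΔ : ∀ d ∈ Δ, d ≠ 0) {D0 D : K} (hD0 : D0 ≠ 0)
    (hD : D ≠ 0) {q : HeightOneSpectrum (𝓞 K) ⊕ (K →+* ℝ)}
    (h : LSq q (D / D0) ∨ CycP Δ q) {I : Finset K} (hI : I ⊆ Δ) (hev : Even I.card)
    (hsq : IsSquare (∏ d ∈ I, d)) :
    ∑ d ∈ I, ((kap S (d * D0) (d * D) q : ℕ) : ZMod 2) = 0 := by
  have hne : ∀ d ∈ I, d ≠ 0 := fun d hd => hΔ d (hI hd)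
  rcases h with h | h
  · refine Finset.sum_eq_zero fun d hd => ?_
    have e : WW S (d * D0) q = WW S (d * D) q :=
      WW_sq S (mul_ne_zero (hne d hd) hD0) (mul_ne_zero (hne d hd) hD)
        (by rw [mul_div_mul_left _ _ (hne d hd)]; exact h)
    rw [kap_congr S e rfl, kap_self, Nat.cast_zero]
  · refine sum_cyc hΔ h hI hev hsq fun d hd d' hd' hq => ?_
    have n := hne d hd
    have m := hne d' hd'
    rw [kap_congr S (WW_sq S (mul_ne_zero n hD0) (mul_ne_zero m hD0)
      (by rw [mul_div_mul_right _ _ hD0]; exact lsq_quot n hq))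
      (WW_sq S (mul_ne_zero n hD) (mul_ne_zero m hD)
      (by rw [mul_div_mul_right _ _ hD]; exact lsq_quot n hq))]

/-- The balance does not change if the twist changes by local squares at the non-cyclic primes. -/
theorem bal_near (hir : ∀ t : K, t ^ 3 + (a : K) * t + (b : K) ≠ 0)
    (hsq : ¬ IsSquare (-(4 * (a : K) ^ 3 + 27 * (b : K) ^ 2))) {Δ : Finset K}
    (hΔ : ∀ d ∈ Δ, d ≠ 0) {D0 D : K} (hD0 : D0 ≠ 0) (hD : D ≠ 0)
    (h : ∀ v : HeightOneSpectrum (𝓞 K),
      IsSquare (algebraMap K (v.adicCompletion K) (D / D0)) ∨ CycAt Δ v) :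
    Bal a b Δ D0 ↔ Bal a b Δ D := by
  have hne : 4 * (a : K) ^ 3 + 27 * (b : K) ^ 2 ≠ 0 := by
    intro h0
    apply hsq
    rw [h0, neg_zero]
    exact ⟨0, (mul_zero 0).symm⟩
  obtain ⟨L, _, _, _, θ, ⟨S⟩⟩ := exists_self (fun v => v.valuation_le_one a)
    (fun v => v.valuation_le_one b) hir hne hsq
  obtain ⟨Sg0, -, ok0, okd0⟩ := exists_okA hne hΔ hD0 ∅
  obtain ⟨Sg, hle, ok, okd⟩ := exists_okA hne hΔ hD Sg0
  rw [bal_iff, bal_iff]
  refine forall_congr' fun I => forall_congr' fun hI => forall_congr' fun hev =>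
    forall_congr' fun hq => ?_
  have hsum : ∑ d ∈ I, (pf a b D0 d + pf a b D d) = 0 := by
    have e1 : ∀ d ∈ I, pf a b D0 d + pf a b D d =
        ∑ q ∈ plc Sg, ((kap S (d * D0) (d * D) q : ℕ) : ZMod 2) := by
      intro d hd
      exact key S ok.two ok.three ok.dis (mul_ne_zero (hΔ d (hI hd)) hD0)
        (mul_ne_zero (hΔ d (hI hd)) hD) (fun v hv => (okd0 d (hI hd)).val v fun h => hv (hle h))
        (okd d (hI hd)).val
    rw [Finset.sum_congr rfl e1, Finset.sum_comm]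
    refine Finset.sum_eq_zero fun q _ => place_sum S hΔ hD0 hD ?_ hI hev hq
    cases q with
    | inl v => exact (h v).imp (fun h => h) (fun h => h)
    | inr s => exact Or.inr (cycP_real hΔ s)
  rw [Finset.sum_add_distrib] at hsum
  rw [CharTwo.add_eq_zero.1 hsum]

/-- **Cyclic decomposition groups.** -/
theorem bal_cyc (hir : ∀ t : K, t ^ 3 + (a : K) * t + (b : K) ≠ 0)
    (hsq : ¬ IsSquare (-(4 * (a : K) ^ 3 + 27 * (b : K) ^ 2))) {Δ : Finset K}
    (hΔ : ∀ d ∈ Δ, d ≠ 0) (hc : ∀ v : HeightOneSpectrum (𝓞 K), CycAt Δ v) {D : K} (hD : D ≠ 0) :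
    Bal a b Δ D := by
  have hne : 4 * (a : K) ^ 3 + 27 * (b : K) ^ 2 ≠ 0 := by
    intro h0
    apply hsq
    rw [h0, neg_zero]
    exact ⟨0, (mul_zero 0).symm⟩
  obtain ⟨L, _, _, _, θ, ⟨S⟩⟩ := exists_self (fun v => v.valuation_le_one a)
    (fun v => v.valuation_le_one b) hir hne hsq
  obtain ⟨Sg, -, ok, okd⟩ := exists_okA hne hΔ hD ∅
  rw [bal_iff]
  intro I hI hev hq
  rcases I.eq_empty_or_nonempty with he | ⟨d1, hd1⟩
  · rw [he, Finset.sum_empty]
  have hsum : ∑ d ∈ I, (pf a b D d + pf a b D d1) = 0 := by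
    have e1 : ∀ d ∈ I, pf a b D d + pf a b D d1 =
        ∑ q ∈ plc Sg, ((kap S (d * D) (d1 * D) q : ℕ) : ZMod 2) := by
      intro d hd
      exact key S ok.two ok.three ok.dis (mul_ne_zero (hΔ d (hI hd)) hD)
        (mul_ne_zero (hΔ d1 (hI hd1)) hD) (okd d (hI hd)).val (okd d1 (hI hd1)).val
    rw [Finset.sum_congr rfl e1, Finset.sum_comm]
    refine Finset.sum_eq_zero fun q _ => ?_
    have hcyc : CycP Δ q := by
      cases q with
      | inl v => exact hc v
      | inr s => exact cycP_real hΔ s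
    refine sum_cyc hΔ hcyc hI hev hq fun d hd d' hd' hq => ?_
    have n := hΔ d (hI hd)
    have m := hΔ d' (hI hd')
    rw [kap_congr S (WW_sq S (mul_ne_zero n hD) (mul_ne_zero m hD)
      (by rw [mul_div_mul_right _ _ hD]; exact lsq_quot n hq)) rfl]
  rw [Finset.sum_add_distrib, sum_even_const (fun _ _ => rfl) hev, add_zero] at hsum
  exact hsum

end H76MB
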