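import Pool.Agent.H76.MB.Df

/-!
Row MB/Ba (project MP_78d38b_MQ, PI helper76), about 90 lines: preparations for the switches.

`evS_sq`: `H76GM.par_same` (Pool/Agent/H76/GM/Fb.lean) with `M := K`, `N := K` (`IsGalois K K`, `Odd (finrank K K)`; `algebraMap K K = id`),
`OkK a b D Sg` from `exists_okK hne hD ∅`, the quotient `D * z ^ 2 / D = z ^ 2` is a square everywhere and positive.
`par_near`: `par_same` with `M := N := K` (the first component), the quotient is a square at the primes of `Sg` and positive.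
`unit_sq`: `exists_even_ord` (Fb.lean): if `v.valuation K D = exp (j + j)` take `z` with `v.valuation K z = exp (-j)` (`ord` is minus the logarithm, see `to_unit` in Fb.lean).
`exists_okA`: `exists_okK hne hD S'` where `S'` contains `S` and the finitely many primes at which some `d ∈ Δ` is not a unit (see `h1` in the proof of `exists_okK`,
Pool/Agent/H76/GM/Ac.lean); only the field `val` of `OkK a b (d * D) Sg` needs the primes of `d`.
`ev_filter`: for `P = {v}` in `Sw.parA`, `Sw.parB` with `M := K` (see the end of the proof of `switch_two` in Pool/Agent/H76/GM/Dl.lean, `hfK`).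
-/

set_option autoImplicit false
set_option linter.unusedSectionVars false
open scoped Classical

open WithZero NumberField IsDedekindDomain H38RT
open H38T1 (SC sc scu rep eo la si OddP unif)
open H76PP (Cub LC ev scm dn val_le val_one)
open H88OD H26OD H30OD H30ZO H36CY H30OR H76GM

namespace H76MB

variable {K : Type} [Field K] [NumberField K] {a b : 𝓞 K}

theorem par_near (hir : ∀ t : K, t ^ 3 + (a : K) * t + (b : K) ≠ 0)
    (hsq : ¬ IsSquare (-(4 * (a : K) ^ 3 + 27 * (b : K) ^ 2))) {D0 D : K}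
    {Sg : Finset (HeightOneSpectrum (𝓞 K))} (ok : OkK a b D0 Sg) (hD : D ≠ 0)
    (hs : ∀ v ∈ Sg, IsSquare (algebraMap K (v.adicCompletion K) (D / D0)))
    (hpos : ∀ s : K →+* ℝ, 0 < s (D / D0)) :
    EvS K K a b D0 ↔ EvS K K a b D :=
  (par_same (M := K) (N := K) (by rw [Module.finrank_self]; exact odd_one) hir hsq ok hD hs
    hpos).1

private theorem Ba_ne (hsq : ¬ IsSquare (-(4 * (a : K) ^ 3 + 27 * (b : K) ^ 2))) :
    4 * (a : K) ^ 3 + 27 * (b : K) ^ 2 ≠ 0 := by
  intro h0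
  apply hsq
  rw [h0, neg_zero]
  exact ⟨0, (mul_zero 0).symm⟩

private theorem Ba_fin {x : K} (hx : x ≠ 0) :
    {v : HeightOneSpectrum (𝓞 K) | v.valuation K x ≠ 1}.Finite := by
  obtain ⟨α, β, hβ, hxy⟩ := IsFractionRing.div_surjective (A := 𝓞 K) x
  have hβ0 : β ≠ 0 := nonZeroDivisors.ne_zero hβ
  have hα0 : α ≠ 0 := by
    rintro rfl
    apply hx
    rw [← hxy, map_zero, zero_div]
  refine ((H30MQ.fin_mem hα0).union (H30MQ.fin_mem hβ0)).subset fun v hv => ?_
  by_contra h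
  rw [Set.mem_union, not_or] at h
  apply hv
  rw [← hxy, map_div₀, v.valuation_eq_one_iff_notMem.mpr h.1,
    v.valuation_eq_one_iff_notMem.mpr h.2, div_one]

theorem evS_sq (hir : ∀ t : K, t ^ 3 + (a : K) * t + (b : K) ≠ 0)
    (hsq : ¬ IsSquare (-(4 * (a : K) ^ 3 + 27 * (b : K) ^ 2))) {D z : K} (hD : D ≠ 0) (hz : z ≠ 0) :
    EvS K K a b (D * z ^ 2) ↔ EvS K K a b D := by
  obtain ⟨Sg, -, ok, -⟩ := exists_okK (Ba_ne hsq) hD (∅ : Finset (HeightOneSpectrum (𝓞 K)))
  have e : D * z ^ 2 / D = z ^ 2 := mul_div_cancel_left₀ _ hD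
  symm
  refine par_near hir hsq ok (mul_ne_zero hD (pow_ne_zero 2 hz)) (fun v _ => ?_) fun s => ?_
  · rw [e, map_pow]
    exact ⟨_, pow_two _⟩
  · rw [e, map_pow]
    exact lt_of_le_of_ne (sq_nonneg _) (Ne.symm (pow_ne_zero 2 ((map_ne_zero s).2 hz)))

theorem unit_sq {v : HeightOneSpectrum (𝓞 K)} {D : K} (hD : D ≠ 0)
    (hv : Even (ord (v.valuation K) D)) : ∃ z : K, z ≠ 0 ∧ v.valuation K (D * z ^ 2) = 1 := by
  obtain ⟨k, hk⟩ : ∃ k : ℤ, v.valuation K D = exp k :=
    ⟨_, (exp_log ((v.valuation K).ne_zero_iff.2 hD)).symm⟩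
  have h1 : Even (-k) := by
    have h2 : ord (v.valuation K) D = -k := by
      unfold ord
      rw [hk, log_exp]
    rwa [h2] at hv
  obtain ⟨j, hj⟩ := even_neg.1 h1
  obtain ⟨z, hz0, hz⟩ := exists_even_ord v (-j)
  refine ⟨z, hz0, ?_⟩
  have h3 : j + j + 2 • (-j) = (0 : ℤ) := by
    rw [two_nsmul]
    ring
  rw [map_mul, map_pow, hk, hz, ← exp_nsmul, ← exp_add, hj, h3, exp_zero]

/-- One finite set for all the twists by `d * D`, `d ∈ Δ`. -/
theorem exists_okA (hne : 4 * (a : K) ^ 3 + 27 * (b : K) ^ 2 ≠ 0) {Δ : Finset K}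
    (hΔ : ∀ d ∈ Δ, d ≠ 0) {D : K} (hD : D ≠ 0) (S : Finset (HeightOneSpectrum (𝓞 K))) :
    ∃ Sg : Finset (HeightOneSpectrum (𝓞 K)), S ⊆ Sg ∧ OkK a b D Sg ∧
      ∀ d ∈ Δ, OkK a b (d * D) Sg := by
  have hfin : (⋃ d ∈ Δ, {v : HeightOneSpectrum (𝓞 K) | v.valuation K d ≠ 1}).Finite :=
    Δ.finite_toSet.biUnion fun d hd => Ba_fin (hΔ d (Finset.mem_coe.1 hd))
  obtain ⟨Sg, hle, ok, -⟩ := exists_okK hne hD (S ∪ hfin.toFinset)
  refine ⟨Sg, Finset.subset_union_left.trans hle, ok, fun d hd =>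
    ⟨mul_ne_zero (hΔ d hd) hD, hne, ok.two, ok.three, ok.dis, fun v hv => ?_⟩⟩
  have h1 : v.valuation K d = 1 := by
    by_contra h
    apply hv
    apply hle
    refine Finset.mem_union_right _ ?_
    rw [Set.Finite.mem_toFinset]
    exact Set.mem_biUnion (Finset.mem_coe.2 hd) h
  rw [map_mul, h1, ok.val v hv, one_mul]

end H76MB
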