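import Pool.Agent.H76.MB.Ba

/-!
Row MB/Bb (project MP_78d38b_MQ, PI helper76), about 90 lines: the switch which changes all the parities.

Follow the proof of `switch_two` (Pool/Agent/H76/GM/Dl.lean), K-part only. First `unit_sq` gives `z` with `D * z ^ 2` a unit at `v`; put `D1 := D * z ^ 2`
(`pf a b D1 d = pf a b D d` by `evS_sq` with `d * D1 = d * D * z ^ 2`, and `Rel K S D D1`: the quotient is `z ^ 2`).
`Sg` from `exists_okA` for `D1` and `insert v S`; `α` as in `switch_two`: `exists_la`, `exists_al Sg hn0 v`, a unit at `v`, not a square in `K_v`, positive, a square at the other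
primes of `Sg`. For `d ∈ Δ` : `Sw K a b (d * D1) α Sg v` (with `ok` from `exists_okA`, `hD : v.valuation K (d * D1) = 1`, `ur := hv.ur`) and `Sw.parB` with `P = {v}` give
`¬ (EvS K K a b (d * D1) ↔ EvS K K a b (d * D1 * α))`, so `pf_add`. `D' := D1 * α`.
(`hir`, `hsq` over `M := K`: `algebraMap K K x = x` is `rfl`, see `hirk`, `hsqk` in `switch_two`.)
-/

set_option autoImplicit false
set_option linter.unusedSectionVars false
open scoped Classical

open WithZero NumberField IsDedekindDomain H38RT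
open H38T1 (SC sc scu rep eo la si OddP unif)
open H76PP (Cub LC ev scm dn val_le val_one)
open H36MX H76MQ H76OD H88OD H26OD H30OD H30ZO H36CY H30OR H76GM

namespace H76MB

variable {K : Type} [Field K] [NumberField K] {a b : 𝓞 K}

theorem swB (hir : ∀ t : K, t ^ 3 + (a : K) * t + (b : K) ≠ 0)
    (hsq : ¬ IsSquare (-(4 * (a : K) ^ 3 + 27 * (b : K) ^ 2))) {v : HeightOneSpectrum (𝓞 K)}
    (hv : MulM K a b v) {Δ : Finset K} (hΔ : ∀ d ∈ Δ, d ≠ 0) (hΔv : ∀ d ∈ Δ, v.valuation K d = 1)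
    {D : K} (hD : D ≠ 0) (hDv : Even (ord (v.valuation K) D))
    (S : Finset (HeightOneSpectrum (𝓞 K))) (hvS : v ∉ S) :
    ∃ D' : K, Rel K S D D' ∧ ∀ d ∈ Δ, pf a b D' d = pf a b D d + 1 := by
  have hne : 4 * (a : K) ^ 3 + 27 * (b : K) ^ 2 ≠ 0 := by
    intro h0
    have h1 := hv.hd
    rw [h0, map_zero] at h1
    exact exp_ne_zero h1.symm
  have hirk : ∀ t : K, t ^ 3 + algebraMap K K (a : K) * t + algebraMap K K (b : K) ≠ 0 :=
    fun t ht => hir t ht
  have hsqk : ¬ IsSquare (algebraMap K K (-(4 * (a : K) ^ 3 + 27 * (b : K) ^ 2))) := hsq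
  obtain ⟨z, hz0, hz⟩ := unit_sq hD hDv
  have hD1 : D * z ^ 2 ≠ 0 := mul_ne_zero hD (pow_ne_zero 2 hz0)
  obtain ⟨n, hn1, hn2, hn3⟩ := exists_la (v := v) hv.h2
  have hnv : v.valuation K (n : K) = 1 := by
    refine le_antisymm (v.valuation_le_one n) (not_lt.1 fun h => hn1 ?_)
    exact (v.valuation_lt_one_iff_mem (K := K) n).1 h
  have hn0 : (n : K) ≠ 0 := by
    intro h0
    rw [h0, map_zero] at hnv
    exact zero_ne_one hnv
  obtain ⟨Sg, hle, -, okd⟩ := exists_okA hne hΔ hD1 (insert v S)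
  obtain ⟨α, hα0, hαp, hαs, hαv, r, hr0, hr⟩ := exists_al Sg hn0 v
  have hvSg : v ∈ Sg := hle (Finset.mem_insert_self _ _)
  rw [hnv] at hαv
  have hαn : ¬ IsSquare (algebraMap K (v.adicCompletion K) α) := by
    rintro ⟨t, ht⟩
    apply nsq_of_la hv.h2 hn0 hn3 hn2
    refine ⟨t / r, ?_⟩
    rw [div_mul_div_comm, eq_div_iff (mul_ne_zero hr0 hr0), ← ht, hr]
    ring
  have e : D * z ^ 2 * α / D = z ^ 2 * α := by field_simp
  refine ⟨D * z ^ 2 * α, ⟨hD, mul_ne_zero hD1 hα0, fun u hu => ?_, fun s => ?_⟩, fun d hd => ?_⟩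
  · rw [e, map_mul, map_pow]
    exact (IsSquare.sq _).mul (hαs u (hle (Finset.mem_insert_of_mem hu))
      (fun h => hvS (h ▸ hu))).1
  · rw [e, map_mul, map_pow]
    exact mul_pos (lt_of_le_of_ne (sq_nonneg _) (Ne.symm (pow_ne_zero 2 ((map_ne_zero s).2 hz0))))
      (hαp s)
  · have hdD : v.valuation K (d * (D * z ^ 2)) = 1 := by
      rw [map_mul, hΔv d hd, hz, one_mul]
    have hW : Sw K a b (d * (D * z ^ 2)) α Sg v :=
      ⟨okd d hd, hα0, hαp, hvSg, fun u hu huv => (hαs u hu huv).1, hv.h2, hv.h3, hv.hd, hdD, hv.ur⟩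
    have hK := hW.parB hirk hsqk (P := {v}) (fun w => by
      rw [Finset.mem_singleton, dn_self]) hαv
    have hfK : (({v} : Finset (HeightOneSpectrum (𝓞 K))).filter fun w =>
        ¬ IsSquare (algebraMap K (w.adicCompletion K) (algebraMap K K α))) = {v} := by
      refine Finset.filter_true_of_mem fun w hw => ?_
      rw [Finset.mem_singleton] at hw
      subst hw
      exact hαn
    rw [hfK, Finset.card_singleton] at hK
    have q : ¬ (EvS K K a b (d * (D * z ^ 2)) ↔ EvS K K a b (d * (D * z ^ 2 * α))) := fun h =>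
      absurd (hK.1 (by rw [mul_assoc]; exact h)) (by decide)
    have h1 : pf a b (D * z ^ 2) d = pf a b D d := by
      refine pf_eq ?_
      rw [← mul_assoc]
      exact evS_sq hir hsq (mul_ne_zero (hΔ d hd) hD) hz0
    rw [pf_add q, h1]

end H76MB
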