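import Pool.Agent.H76.MB.Ba

/-!
Row MB/Bc (project MP_78d38b_MQ, PI helper76), about 150 lines: the switch which changes the parities by a constant and the Legendre classes at `v`.

Case 1 (`ord_v D` even). As Bb: `D1 := D * z ^ 2` a unit at `v` with the same parities. `Sg` from `exists_okA` for `D1`, `insert v S`. `α` as in `switch_one` (Pool/Agent/H76/GM/Dl.lean):
`exists_al Sg hne v` with `x := 4 a^3 + 27 b^2`, so `α * (4 a^3 + 27 b^2)` is a square in `K_v` (`hαd`), `v.valuation K α = exp (-1)`. For `d ∈ Δ`, `Sw K a b (d * D1) α Sg v` and `Sw.parA` with `P = {v}`: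
(EvS (d D1) ↔ EvS (d D1 α)) ↔ Even (card of {v} filtered by IsSquare_v (-2 a b (d D1))), so the parity changes iff `-2 a b d D1` is a square in `K_v`. Both `e := -2 a b D1` and `d` are units at
`v` (`AB_unit`, see `hxv` in `switch_one`), and for a unit `x` at an odd place: `IsSquare_v x ↔ la v (sc x) = 0` (`sq_of_la`, `nsq_of_la`, see the proof of `Sw.parB` in Dk.lean), and
`la v (sc (e * d)) = la v (sc e) + la v (sc d)` (`H38T1.sc_mul`, `H38T1.la_add`). So the change is `1 + la v (sc e) + la v (sc d)`: `c := 1 + la v (sc e)`. `D' := D1 * α`.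
`Even (ord_v D') ↔ ¬ Even (ord_v D)`: not needed.
Case 2 (`ord_v D` odd). As in `to_unit` (Pool/Agent/H76/GM/Fb.lean, second case): `y` with `D1 := D * y` a unit at `v`, `y` positive, a square at the other primes of `Sg` (from `exists_okA` for `D`),
`y = (4 a^3 + 27 b^2) z^2` times a square at `v`; then `Sg1` from `exists_okA` for `D1` and `insert v Sg`, `α` with `α (4 a^3 + 27 b^2)` a square at `v`, a square at the other primes of `Sg1`, positive;
by case 1's computation `pf a b (D1 * α) d = pf a b D1 d + (c + la v (sc d))`; and `pf a b (D1 * α) d = pf a b D d` by `par_near` for `d * D` and `d * (D * y * α)` (quotient `y * α`, a square at all primes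
of `Sg`, positive). So `pf a b D1 d = pf a b D d + (c + la v (sc d))` (characteristic two). `D' := D1`. Suggestion: first prove the common computation as a private lemma for `D1` a unit at `v`.
-/

set_option autoImplicit false
set_option linter.unusedSectionVars false
open scoped Classical

open WithZero NumberField IsDedekindDomain H38RT
open H38T1 (SC sc scu rep eo la si OddP unif)
open H76PP (Cub LC ev scm dn val_le val_one)
open H88OD H26OD H30OD H30ZO H36CY H30OR H76GM

namespace H76MB

variable {K : Type} [Field K] [NumberField K] {a b : 𝓞 K}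

/-- The common computation. -/
private theorem Bc_core (hir : ∀ t : K, t ^ 3 + (a : K) * t + (b : K) ≠ 0)
    (hsq : ¬ IsSquare (-(4 * (a : K) ^ 3 + 27 * (b : K) ^ 2))) {v : HeightOneSpectrum (𝓞 K)}
    (hv : MulM K a b v) {D1 α : K} {Sg : Finset (HeightOneSpectrum (𝓞 K))}
    (hDv : v.valuation K D1 = 1) (hvSg : v ∈ Sg) (hα0 : α ≠ 0)
    (hαp : ∀ s : K →+* ℝ, 0 < s α)
    (hαs : ∀ u ∈ Sg, u ≠ v → IsSquare (algebraMap K (u.adicCompletion K) α))
    (hαd : IsSquare (algebraMap K (v.adicCompletion K) (α * (4 * (a : K) ^ 3 + 27 * (b : K) ^ 2))))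
    {d : K} (hdv : v.valuation K d = 1) (ok : OkK a b (d * D1) Sg) :
    pf a b (D1 * α) d = pf a b D1 d + ((1 + la v (sc (-2 * (a : K) * b * D1))) + la v (sc d)) := by
  have hd0 : d ≠ 0 := by
    rintro rfl
    rw [map_zero] at hdv
    exact zero_ne_one hdv
  have hdD : v.valuation K (d * D1) = 1 := by
    rw [map_mul, hdv, hDv, one_mul]
  have hirk : ∀ t : K, t ^ 3 + algebraMap K K (a : K) * t + algebraMap K K (b : K) ≠ 0 :=
    fun t ht => hir t ht
  have hsqk : ¬ IsSquare (algebraMap K K (-(4 * (a : K) ^ 3 + 27 * (b : K) ^ 2))) := hsq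
  have hW : Sw K a b (d * D1) α Sg v :=
    ⟨ok, hα0, hαp, hvSg, hαs, hv.h2, hv.h3, hv.hd, hdD, hv.ur⟩
  obtain ⟨hA, hB⟩ := AB_unit hv.h2 hv.h3 hv.hd
  have hev : v.valuation K (-2 * (a : K) * b * D1) = 1 := by
    rw [map_mul, map_mul, map_mul, Valuation.map_neg, hv.h2, hA, hB, hDv, one_mul, one_mul, one_mul]
  have he0 : (-2 * (a : K) * b * D1) ≠ 0 := by
    intro h0
    rw [h0, map_zero] at hev
    exact zero_ne_one hev
  have e1 : -2 * (a : K) * b * (d * D1) = (-2 * (a : K) * b * D1) * d := by ring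
  have hxv : v.valuation K (-2 * (a : K) * b * (d * D1)) = 1 := by
    rw [e1, map_mul, hev, hdv, one_mul]
  have hx0 : (-2 * (a : K) * b * (d * D1)) ≠ 0 := by
    rw [e1]
    exact mul_ne_zero he0 hd0
  have heo : eo v (sc (-2 * (a : K) * b * (d * D1))) = 0 := H76MQ.Cl_eo_one hxv
  have hla : la v (sc (-2 * (a : K) * b * (d * D1))) =
      la v (sc (-2 * (a : K) * b * D1)) + la v (sc d) := by
    rw [e1, H38T1.sc_mul he0 hd0, H38T1.la_add hv.h2]
  have hK := hW.parA hirk hsqk (P := {v}) (fun w => by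
    rw [Finset.mem_singleton, dn_self]) hαd
  have hz : ∀ x : ZMod 2, x = 0 ∨ x = 1 := by decide
  rw [add_assoc 1, ← hla]
  by_cases hs : IsSquare (algebraMap K (v.adicCompletion K) (-2 * (a : K) * b * (d * D1)))
  · have hfK : (({v} : Finset (HeightOneSpectrum (𝓞 K))).filter fun w =>
        IsSquare (algebraMap K (w.adicCompletion K)
          (algebraMap K K (-2 * a * b * (d * D1))))) = {v} := by
      refine Finset.filter_true_of_mem fun w hw => ?_
      rw [Finset.mem_singleton] at hw
      subst hw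
      exact hs
    rw [hfK, Finset.card_singleton] at hK
    have q : ¬ (EvS K K a b (d * D1) ↔ EvS K K a b (d * (D1 * α))) := fun h =>
      absurd (hK.1 (by rw [mul_assoc]; exact h)) (by decide)
    have hl0 : la v (sc (-2 * (a : K) * b * (d * D1))) = 0 := by
      rcases hz (la v (sc (-2 * (a : K) * b * (d * D1)))) with h5 | h5
      · exact h5
      · exact absurd hs (H36MX.nsq_of_la hv.h2 hx0 h5 heo)
    rw [hl0, add_zero]
    exact pf_add q
  · have hfK : (({v} : Finset (HeightOneSpectrum (𝓞 K))).filter fun w =>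
        IsSquare (algebraMap K (w.adicCompletion K)
          (algebraMap K K (-2 * a * b * (d * D1))))) = ∅ := by
      refine Finset.filter_eq_empty_iff.2 fun w hw => ?_
      rw [Finset.mem_singleton] at hw
      subst hw
      exact hs
    rw [hfK, Finset.card_empty] at hK
    have q : EvS K K a b (d * D1) ↔ EvS K K a b (d * (D1 * α)) := by
      rw [← mul_assoc]
      exact hK.2 Even.zero
    have hl1 : la v (sc (-2 * (a : K) * b * (d * D1))) = 1 := by
      rcases hz (la v (sc (-2 * (a : K) * b * (d * D1)))) with h5 | h5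
      · exact absurd (H36MX.sq_of_la hv.h2 hx0 heo h5) hs
      · exact h5
    have h11 : (1 : ZMod 2) + 1 = 0 := by decide
    rw [hl1, h11, add_zero]
    exact (pf_eq q).symm

private theorem Bc_flip {x y t : ZMod 2} (h : x = y + t) : y = x + t := by
  revert h
  revert x y t
  decide

theorem swA (hir : ∀ t : K, t ^ 3 + (a : K) * t + (b : K) ≠ 0)
    (hsq : ¬ IsSquare (-(4 * (a : K) ^ 3 + 27 * (b : K) ^ 2))) {v : HeightOneSpectrum (𝓞 K)}
    (hv : MulM K a b v) {Δ : Finset K} (hΔ : ∀ d ∈ Δ, d ≠ 0) (hΔv : ∀ d ∈ Δ, v.valuation K d = 1)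
    {D : K} (hD : D ≠ 0) (S : Finset (HeightOneSpectrum (𝓞 K))) (hvS : v ∉ S) :
    ∃ D' : K, Rel K S D D' ∧ (Odd (ord (v.valuation K) D) → Even (ord (v.valuation K) D')) ∧
      ∃ c : ZMod 2, ∀ d ∈ Δ, pf a b D' d = pf a b D d + (c + la v (sc d)) := by
  have hne : 4 * (a : K) ^ 3 + 27 * (b : K) ^ 2 ≠ 0 := by
    intro h0
    have h1 := hv.hd
    rw [h0, map_zero] at h1
    exact exp_ne_zero h1.symm
  rcases Int.even_or_odd (ord (v.valuation K) D) with hpar | hpar
  · obtain ⟨z, hz0, hz⟩ := unit_sq hD hpar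
    have hD1 : D * z ^ 2 ≠ 0 := mul_ne_zero hD (pow_ne_zero 2 hz0)
    obtain ⟨Sg, hle, -, okd⟩ := exists_okA hne hΔ hD1 (insert v S)
    obtain ⟨α, hα0, hαp, hαs, -, r, hr0, hr⟩ := exists_al Sg hne v
    have hvSg : v ∈ Sg := hle (Finset.mem_insert_self _ _)
    have hαd : IsSquare (algebraMap K (v.adicCompletion K)
        (α * (4 * (a : K) ^ 3 + 27 * (b : K) ^ 2))) := by
      rw [map_mul, hr]
      exact ⟨algebraMap K (v.adicCompletion K) (4 * (a : K) ^ 3 + 27 * (b : K) ^ 2) * r, by ring⟩
    have e : D * z ^ 2 * α / D = z ^ 2 * α := by field_simp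
    refine ⟨D * z ^ 2 * α, ⟨hD, mul_ne_zero hD1 hα0, fun u hu => ?_, fun s => ?_⟩,
      fun h => absurd hpar (Int.not_even_iff_odd.2 h), 1 + la v (sc (-2 * (a : K) * b * (D * z ^ 2))),
      fun d hd => ?_⟩
    · rw [e, map_mul, map_pow]
      exact (IsSquare.sq _).mul (hαs u (hle (Finset.mem_insert_of_mem hu))
        (fun h => hvS (h ▸ hu))).1
    · rw [e, map_mul, map_pow]
      exact mul_pos (lt_of_le_of_ne (sq_nonneg _) (Ne.symm (pow_ne_zero 2 ((map_ne_zero s).2 hz0))))
        (hαp s)
    · rw [Bc_core hir hsq hv hz hvSg hα0 hαp (fun u hu huv => (hαs u hu huv).1) hαd (hΔv d hd)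
        (okd d hd)]
      have h1 : pf a b (D * z ^ 2) d = pf a b D d := by
        refine pf_eq ?_
        rw [← mul_assoc]
        exact evS_sq hir hsq (mul_ne_zero (hΔ d hd) hD) hz0
      rw [h1]
  · obtain ⟨k, hk⟩ : ∃ k : ℤ, v.valuation K D = exp k :=
      ⟨_, (exp_log ((v.valuation K).ne_zero_iff.2 hD)).symm⟩
    obtain ⟨j, hj⟩ : ∃ j : ℤ, k = 2 * j + 1 := by
      have h1 : ord (v.valuation K) D = -k := by
        unfold ord
        rw [hk, log_exp]
      rw [h1, odd_neg] at hpar
      exact hpar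
    obtain ⟨z, hz0, hz⟩ := exists_even_ord v (-j)
    obtain ⟨Sg, hle, -, okd⟩ := exists_okA hne hΔ hD (insert v S)
    obtain ⟨y, hy0, hyp, hys, hyv, r, hr0, hr⟩ := exists_al Sg
      (x := (4 * (a : K) ^ 3 + 27 * (b : K) ^ 2) * z ^ 2)
      (mul_ne_zero hne (pow_ne_zero 2 hz0)) v
    have hD1 : D * y ≠ 0 := mul_ne_zero hD hy0
    have hDv : v.valuation K (D * y) = 1 := by
      rw [map_mul, hyv, map_mul, map_pow, hk, hz, hv.hd, ← exp_nsmul, ← exp_add, ← exp_add, hj]
      simp
    obtain ⟨Sg1, hle1, -, okd1⟩ := exists_okA hne hΔ hD1 (insert v Sg)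
    obtain ⟨α, hα0, hαp, hαs, -, r', hr0', hr'⟩ := exists_al Sg1 hne v
    have hvSg1 : v ∈ Sg1 := hle1 (Finset.mem_insert_self _ _)
    have hαd : IsSquare (algebraMap K (v.adicCompletion K)
        (α * (4 * (a : K) ^ 3 + 27 * (b : K) ^ 2))) := by
      rw [map_mul, hr']
      exact ⟨algebraMap K (v.adicCompletion K) (4 * (a : K) ^ 3 + 27 * (b : K) ^ 2) * r', by ring⟩
    have e : D * y / D = y := mul_div_cancel_left₀ _ hD
    refine ⟨D * y, ⟨hD, hD1, fun u hu => ?_, fun s => ?_⟩, fun _ => ?_,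
      1 + la v (sc (-2 * (a : K) * b * (D * y))), fun d hd => ?_⟩
    · rw [e]
      exact (hys u (hle (Finset.mem_insert_of_mem hu)) (fun h => hvS (h ▸ hu))).1
    · rw [e]
      exact hyp s
    · have h1 : ord (v.valuation K) (D * y) = 0 := by
        unfold ord
        rw [hDv, log_one, neg_zero]
      rw [h1]
      exact Even.zero
    · have hd0 := hΔ d hd
      have h1 := Bc_core hir hsq hv hDv hvSg1 hα0 hαp (fun u hu huv => (hαs u hu huv).1) hαd
        (hΔv d hd) (okd1 d hd)
      have h2 : d * (D * y * α) ≠ 0 := mul_ne_zero hd0 (mul_ne_zero hD1 hα0)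
      have e2 : d * (D * y * α) / (d * D) = y * α := by field_simp
      have h3 : pf a b D d = pf a b (D * y * α) d := pf_eq (par_near hir hsq (okd d hd) h2
        (fun u hu => by
          rw [e2, map_mul]
          by_cases huv : u = v
          · subst huv
            rw [hr, hr', map_mul, map_pow]
            exact ⟨algebraMap K (u.adicCompletion K) (4 * (a : K) ^ 3 + 27 * (b : K) ^ 2) *
              algebraMap K (u.adicCompletion K) z * r * r', by ring⟩
          · exact (hys u hu huv).1.mul (hαs u (hle1 (Finset.mem_insert_of_mem hu)) huv).1)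
        (fun s => by
          rw [e2, map_mul]
          exact mul_pos (hyp s) (hαp s)))
      rw [← h3] at h1
      exact Bc_flip h1

end H76MB
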