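import Mathlib

/-!
Row MB/Bd (project MP_78d38b_MQ, PI helper76), about 90 lines: linear algebra over the field with two elements.

`f` restricted to `Δ` is orthogonal to the annihilator of the span of the constant function `1` and of the `l p` restricted to `Δ`, so it is in this span.
Proof. V := (Δ → ZMod 2) (finite dimensional). Let W := Submodule.span (ZMod 2) (insert 1 (range fun p => restriction of l p)). If f ∉ W there is a linear functional φ : V → ZMod 2 with φ = 0 on W and φ f ≠ 0
(`Submodule.exists_le_ker_of_notMem` or `Submodule.exists_dual_map_eq_bot_of_notMem`). φ g = ∑ d, g d * φ (Pi.single d 1); put I := the set of d ∈ Δ with φ (Pi.single d 1) = 1.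
φ 1 = 0: `I.card` even; φ (l p) = 0: ∑ d ∈ I, l p d = 0; hence ∑ d ∈ I, f d = 0, that is φ f = 0: contradiction. So f ∈ W: f = c * 1 + ∑ over a finite set U of coefficients times l p
(`Submodule.mem_span_insert`, `Submodule.mem_span_range_iff_exists_finsupp` / `Finsupp.mem_span_range_iff_exists_finsupp`), coefficients in ZMod 2: take the support as `U` (a nonzero coefficient is 1).
-/

set_option autoImplicit false
open scoped Classical

namespace H76MB

private theorem lin_z2 (a : ZMod 2) : a = 0 ∨ a = 1 := by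
  revert a
  decide

theorem lin {X P : Type} (Δ : Finset X) (f : X → ZMod 2) (l : P → X → ZMod 2)
    (h : ∀ I ⊆ Δ, Even I.card → (∀ p, ∑ d ∈ I, l p d = 0) → ∑ d ∈ I, f d = 0) :
    ∃ (U : Finset P) (c : ZMod 2), ∀ d ∈ Δ, f d = c + ∑ p ∈ U, l p d := by
  have hf : (fun d : Δ => f d) ∈ Submodule.span (ZMod 2)
      (insert (1 : Δ → ZMod 2) (Set.range fun (p : P) (d : Δ) => l p d)) := by
    by_contra hnot
    obtain ⟨φ, hφ1, hφ2⟩ := Submodule.exists_le_ker_of_notMem hnot
    obtain ⟨w, hw⟩ : ∃ w : X → ZMod 2, ∀ d : Δ, φ (Pi.single d 1) = w d := by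
      refine ⟨fun d => if hd : d ∈ Δ then φ (Pi.single ⟨d, hd⟩ 1) else 0, fun d => ?_⟩
      show φ (Pi.single d 1) = if hd : (d : X) ∈ Δ then φ (Pi.single ⟨d, hd⟩ 1) else 0
      rw [dif_pos d.2]
    have hφ : ∀ g : X → ZMod 2, φ (fun d : Δ => g d) = ∑ d ∈ Δ, g d * w d := by
      intro g
      have h1 : (fun d : Δ => g d)
          = ∑ d : Δ, g d • (Pi.single d (1 : ZMod 2) : Δ → ZMod 2) := by
        funext e
        rw [Finset.sum_apply, Finset.sum_eq_single e]
        · rw [Pi.smul_apply, Pi.single_eq_same, smul_eq_mul, mul_one]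
        · intro b _ hb
          rw [Pi.smul_apply, Pi.single_eq_of_ne (Ne.symm hb), smul_zero]
        · intro h
          exact absurd (Finset.mem_univ e) h
      rw [h1, map_sum, ← Finset.sum_coe_sort Δ (fun d => g d * w d)]
      refine Finset.sum_congr rfl fun d _ => ?_
      rw [map_smul, hw, smul_eq_mul]
    have hI : ∀ g : X → ZMod 2, ∑ d ∈ Δ.filter (fun d => w d = 1), g d
        = φ (fun d : Δ => g d) := by
      intro g
      rw [hφ, Finset.sum_filter]
      refine Finset.sum_congr rfl fun d _ => ?_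
      rcases lin_z2 (w d) with h0 | h0
      · rw [h0, if_neg (by decide), mul_zero]
      · rw [h0, if_pos rfl, mul_one]
    refine hφ1 ?_
    rw [← hI f]
    refine h _ (Finset.filter_subset _ _) ?_ ?_
    · have h1 : φ (fun _ : Δ => (1 : ZMod 2)) = 0 :=
        hφ2 (Submodule.subset_span (Set.mem_insert _ _))
      have h2 := hI (fun _ => 1)
      rw [h1, Finset.sum_const, nsmul_eq_mul, mul_one] at h2
      rw [even_iff_two_dvd]
      exact (ZMod.natCast_eq_zero_iff _ 2).1 h2
    · intro p
      rw [hI (l p)]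
      exact hφ2 (Submodule.subset_span (Set.mem_insert_of_mem _ ⟨p, rfl⟩))
  rw [Submodule.mem_span_insert] at hf
  obtain ⟨c, z, hz, hfz⟩ := hf
  rw [Finsupp.mem_span_range_iff_exists_finsupp] at hz
  obtain ⟨u, hu⟩ := hz
  refine ⟨u.support, c, fun d hd => ?_⟩
  have h1 := congrFun hfz ⟨d, hd⟩
  have h2 : z ⟨d, hd⟩ = ∑ p ∈ u.support, l p d := by
    rw [← hu, Finsupp.sum, Finset.sum_apply]
    refine Finset.sum_congr rfl fun p hp => ?_
    rw [Pi.smul_apply, smul_eq_mul]
    rcases lin_z2 (u p) with h0 | h0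
    · exact absurd h0 (Finsupp.mem_support_iff.1 hp)
    · rw [h0, one_mul]
  rw [Pi.add_apply, Pi.smul_apply, Pi.one_apply, smul_eq_mul, mul_one, h2] at h1
  exact h1

end H76MB
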