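import Pool.Agent.H76.MB.Bb
import Pool.Agent.H76.MB.Bc
import Pool.Agent.H76.MB.Bd

/-!
Row MB/Be (project MP_78d38b_MQ, PI helper76), about 130 lines: the parities can be made even.

PROOF. (0) For `v ∈ P` and `I ⊆ Δ` : `∑ d ∈ I, la v (sc d) = la v (sc (∏ d ∈ I, d))` (`H38T1.sc_mul`, `H38T1.la_add` at the odd place `v`, `MulM.h2`), the product is a unit at `v`; it is `0` iff the product is a
square in `K_v` (`sq_of_la`, `nsq_of_la`, see `Sw.parB` in Pool/Agent/H76/GM/Dk.lean).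
(1) There is `D1` with `Rel K S D0 D1`, `Even (ord (v1.valuation K) D1)` and Bal for `D1`: if `ord_{v1} D0` is even take `D1 = D0`; otherwise `swA` at `v1`; Bal (`bal_iff`) is kept, as
`∑ d ∈ I, (c + la v1 (sc d)) = I.card * c + la v1 (sc (∏ d)) = 0` for `I` of even size with square product.
(2) `lin` with `f := pf a b D1`, index type `{v // v ∈ P ∧ v ≠ v1}`, `l v d := la v (sc d)`: its hypothesis follows from Bal and `hsep` with (0). So `pf a b D1 d = c + ∑ v ∈ U, la v (sc d)` on Δ.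
(3) Induction on `U`: for every `D` with `Even (ord_{v1} D)`, `D ≠ 0`, `pf a b D d = c + ∑ v ∈ U, la v (sc d)` on Δ, there is `D'`, `Rel K (insert v1 S) D D'`, `pf a b D' d = c'` for all `d ∈ Δ`:
`swA` at `v ∈ U` with the set `insert v1 S` (`v ≠ v1`); then `D' / D` is a square at `v1`, so `ord_{v1} D'` is even again (a square in `K_v` has even order: `nsq_of_odd` in Pool/Agent/H76/GM or H30/OR, used
in `Sw.parB`), `Rel.trans` (Pool/Agent/H88/OD/Fe.lean).
(4) If `c' = 1` apply `swB` at `v1` with the set `S`.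
-/

set_option autoImplicit false
set_option linter.unusedSectionVars false
open scoped Classical

open WithZero NumberField IsDedekindDomain H38RT
open H38T1 (SC sc scu rep eo la si OddP unif)
open H76PP (Cub LC ev scm dn val_le val_one)
open H88OD H26OD H30OD H30ZO H36CY H30OR H76GM

namespace H76MB

variable {K : Type} [Field K] [NumberField K] {a b : 𝓞 K}

private theorem Be_rel_refl {S : Finset (HeightOneSpectrum (𝓞 K))} {D : K} (hD : D ≠ 0) :
    Rel K S D D := by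
  refine ⟨hD, hD, fun v _ => ?_, fun s => ?_⟩
  · rw [div_self hD, map_one]
    exact IsSquare.one
  · rw [div_self hD, map_one]
    exact one_pos

private theorem Be_rel_mono {S T : Finset (HeightOneSpectrum (𝓞 K))} (h : S ⊆ T) {D D' : K}
    (hr : Rel K T D D') : Rel K S D D' :=
  ⟨hr.n0, hr.n1, fun v hv => hr.sq v (h hv), hr.pos⟩

private theorem Be_sum {v : HeightOneSpectrum (𝓞 K)} (hv : OddP v) (I : Finset K)
    (hI : ∀ d ∈ I, d ≠ 0) : ∑ d ∈ I, la v (sc d) = la v (sc (∏ d ∈ I, d)) := by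
  induction I using Finset.induction_on with
  | empty =>
    rw [Finset.sum_empty, Finset.prod_empty]
    have h1 : (sc (1 : K)) = 0 := (H38T1.sc_eq_zero one_ne_zero).2 ⟨1, by rw [mul_one]⟩
    rw [h1, H38T1.la_zero hv]
  | insert x I hx ih =>
    have hx0 : x ≠ 0 := hI x (Finset.mem_insert_self _ _)
    have hI' : ∀ d ∈ I, d ≠ 0 := fun d hd => hI d (Finset.mem_insert_of_mem hd)
    rw [Finset.sum_insert hx, Finset.prod_insert hx, ih hI',
      H38T1.sc_mul hx0 (Finset.prod_ne_zero_iff.2 hI'), H38T1.la_add hv]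

private theorem Be_la {v : HeightOneSpectrum (𝓞 K)} (hv : OddP v) {x : K} (hx : x ≠ 0)
    (h1 : v.valuation K x = 1) :
    la v (sc x) = 0 ↔ IsSquare (algebraMap K (v.adicCompletion K) x) := by
  have hz : ∀ x : ZMod 2, x = 0 ∨ x = 1 := by decide
  have e1 : eo v (sc x) = 0 := H76MQ.Cl_eo_one h1
  constructor
  · intro h
    exact H36MX.sq_of_la hv hx e1 h
  · intro h
    rcases hz (la v (sc x)) with h5 | h5
    · exact h5
    · exact absurd h (H36MX.nsq_of_la hv hx h5 e1)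

private theorem Be_even {v : HeightOneSpectrum (𝓞 K)} {S : Finset (HeightOneSpectrum (𝓞 K))}
    {D D' : K} (h : Rel K S D D') (hv : v ∈ S) (he : Even (ord (v.valuation K) D)) :
    Even (ord (v.valuation K) D') := by
  have h0 := h.n0
  have h1 := h.n1
  have h2 : D' / D ≠ 0 := div_ne_zero h1 h0
  have h3 := even_of_sq h2 (h.sq v hv)
  have h4 : D' = D' / D * D := by field_simp
  rw [h4, H38RT.ord_mul h2 h0]
  exact h3.add he

/-- **The switch for a finite set of twists.** -/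
theorem switch_bal (hir : ∀ t : K, t ^ 3 + (a : K) * t + (b : K) ≠ 0)
    (hsq : ¬ IsSquare (-(4 * (a : K) ^ 3 + 27 * (b : K) ^ 2))) {Δ : Finset K}
    (hΔ : ∀ d ∈ Δ, d ≠ 0) (S : Finset (HeightOneSpectrum (𝓞 K)))
    {P : Set (HeightOneSpectrum (𝓞 K))}
    (hP : ∀ v ∈ P, v ∉ S ∧ MulM K a b v ∧ ∀ d ∈ Δ, v.valuation K d = 1)
    {v1 : HeightOneSpectrum (𝓞 K)} (h1 : v1 ∈ P)
    (hsep : ∀ I ⊆ Δ, Even I.card → ¬ IsSquare (∏ d ∈ I, d) →
      ∃ v ∈ P, v ≠ v1 ∧ ¬ IsSquare (algebraMap K (v.adicCompletion K) (∏ d ∈ I, d)))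
    {D0 : K} (hD0 : D0 ≠ 0) (hB : Bal a b Δ D0) :
    ∃ D : K, Rel K S D0 D ∧ ∀ d ∈ Δ, EvS K K a b (d * D) := by
  have hodd : ∀ v ∈ P, OddP v := fun v hv => (hP v hv).2.1.h2
  have hprod : ∀ v ∈ P, ∀ I ⊆ Δ, v.valuation K (∏ d ∈ I, d) = 1 := by
    intro v hv I hI
    rw [map_prod]
    exact Finset.prod_eq_one fun d hd => (hP v hv).2.2 d (hI hd)
  have hne : ∀ I ⊆ Δ, (∏ d ∈ I, d) ≠ 0 := fun I hI =>
    Finset.prod_ne_zero_iff.2 fun d hd => hΔ d (hI hd)
  have hsum : ∀ v ∈ P, ∀ I ⊆ Δ, ∑ d ∈ I, la v (sc d) = la v (sc (∏ d ∈ I, d)) :=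
    fun v hv I hI => Be_sum (hodd v hv) I fun d hd => hΔ d (hI hd)
  have hla : ∀ v ∈ P, ∀ I ⊆ Δ, (la v (sc (∏ d ∈ I, d)) = 0 ↔
      IsSquare (algebraMap K (v.adicCompletion K) (∏ d ∈ I, d))) :=
    fun v hv I hI => Be_la (hodd v hv) (hne I hI) (hprod v hv I hI)
  -- (1) even order at `v1`
  obtain ⟨D1, hr1, he1, hB1⟩ : ∃ D1 : K, Rel K S D0 D1 ∧ Even (ord (v1.valuation K) D1) ∧
      Bal a b Δ D1 := by
    by_cases he : Even (ord (v1.valuation K) D0)
    · exact ⟨D0, Be_rel_refl hD0, he, hB⟩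
    · obtain ⟨D', hr, hev, c, hc⟩ := swA hir hsq (hP v1 h1).2.1 hΔ (hP v1 h1).2.2 hD0 S
        (hP v1 h1).1
      refine ⟨D', hr, hev (Int.not_even_iff_odd.1 he), ?_⟩
      rw [bal_iff] at hB ⊢
      intro I hI hcard hsqI
      have e1 := hB I hI hcard hsqI
      rw [Finset.sum_congr rfl fun d hd => hc d (hI hd), Finset.sum_add_distrib, e1, zero_add,
        Finset.sum_add_distrib, hsum v1 h1 I hI, (hla v1 h1 I hI).2 (hsqI.map _), add_zero,
        Finset.sum_const, nsmul_eq_mul]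
      have e2 : ((I.card : ℕ) : ZMod 2) = 0 :=
        (ZMod.natCast_eq_zero_iff _ _).2 (even_iff_two_dvd.1 hcard)
      rw [e2, zero_mul]
  -- (2) linear algebra
  obtain ⟨U, c, hU⟩ := lin (P := {v // v ∈ P ∧ v ≠ v1}) Δ (fun d => pf a b D1 d)
    (fun v d => la v.1 (sc d)) (by
      intro I hI hcard hl
      by_cases hs : IsSquare (∏ d ∈ I, d)
      · exact (bal_iff.1 hB1) I hI hcard hs
      · exfalso
        obtain ⟨v, hv, hv1, hns⟩ := hsep I hI hcard hs
        apply hns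
        rw [← hla v hv I hI, ← hsum v hv I hI]
        exact hl ⟨v, hv, hv1⟩)
  -- (3) induction
  have key : ∀ (U : Finset {v // v ∈ P ∧ v ≠ v1}) (D : K) (c : ZMod 2), D ≠ 0 →
      Even (ord (v1.valuation K) D) →
      (∀ d ∈ Δ, pf a b D d = c + ∑ p ∈ U, la p.1 (sc d)) →
      ∃ (D' : K) (c' : ZMod 2), Rel K (insert v1 S) D D' ∧ Even (ord (v1.valuation K) D') ∧
        ∀ d ∈ Δ, pf a b D' d = c' := by
    intro U
    induction U using Finset.induction_on with
    | empty =>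
      intro D c hD he h
      refine ⟨D, c, Be_rel_refl hD, he, fun d hd => ?_⟩
      rw [h d hd, Finset.sum_empty, add_zero]
    | insert p U hp ih =>
      intro D c hD he h
      have hpP := p.2.1
      have hpv := p.2.2
      obtain ⟨D2, hr2, -, c2, hc2⟩ := swA hir hsq (hP p.1 hpP).2.1 hΔ (hP p.1 hpP).2.2 hD
        (insert v1 S) (by
          rw [Finset.mem_insert, not_or]
          exact ⟨hpv, (hP p.1 hpP).1⟩)
      have he2 := Be_even hr2 (Finset.mem_insert_self _ _) he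
      obtain ⟨D', c', hr', he', hc'⟩ := ih D2 (c + c2) hr2.n1 he2 (by
        intro d hd
        rw [hc2 d hd, h d hd, Finset.sum_insert hp]
        have h2 : ∀ x : ZMod 2, x + x = 0 := by decide
        have h3 := h2 (la p.1 (sc d))
        linear_combination h3)
      exact ⟨D', c', hr2.trans hr', he', hc'⟩
  obtain ⟨D', c', hr', he', hc'⟩ := key U D1 c hr1.n1 he1 hU
  have hr'' : Rel K S D0 D' := hr1.trans (Be_rel_mono (Finset.subset_insert _ _) hr')
  have hz : ∀ x : ZMod 2, x = 0 ∨ x = 1 := by decide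
  rcases hz c' with h0 | h0
  · exact ⟨D', hr'', fun d hd => pf_zero.1 ((hc' d hd).trans h0)⟩
  · -- (4)
    obtain ⟨D'', hr3, hc3⟩ := swB hir hsq (hP v1 h1).2.1 hΔ (hP v1 h1).2.2 hr''.n1 he' S
      (hP v1 h1).1
    refine ⟨D'', hr''.trans hr3, fun d hd => pf_zero.1 ?_⟩
    rw [hc3 d hd, hc' d hd, h0]
    decide

end H76MB
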