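import Mathlib

/-!
Row MB/Ca (project MP_78d38b_MQ, PI helper76), about 180 lines, pure algebra over the field with two elements: the parity of the distance of two maximal isotropic subgroups.

`U = (J → ZMod 2) × (J → ZMod 2)`, `q z = ∑ z.1 j * z.2 j`, `B z w = q (z + w) + q z + q w = ∑ (z.1 j * w.2 j + w.1 j * z.2 j)` (biadditive, alternating, nondegenerate), `W = {z | z.1 = 0}`, n = card J.
`q = 0` on a subgroup `A` implies `B = 0` on `A × A`.
PROOF. (0) For a subgroup `H` let `H^⊥ = {z | B z h = 0 for all h in H}`: `|H| |H^⊥| = 4^n` (nondegenerate; or `LinearMap.BilinForm.finrank_orthogonal`-type lemmas with ZMod 2-subspaces, every additive subgroup of a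
ZMod 2-module is a subspace: `AddSubgroup.toZModSubmodule`). So `q = 0` on `A` gives `|A| ≤ 2^n`, with equality iff `A = A^⊥`. Hence `|A| = |B| = |W| = 2^n` and `A^⊥ = A`, `B^⊥ = B`, `W^⊥ = W`.
(1) Neighbour step. `A` maximal isotropic, `x ∉ A`, `q x = 0`. `H := {a ∈ A | B a x = 0}` has index two in `A` (`x ∉ A = A^⊥`). `A1 := H ∪ (x + H)` is a subgroup, `q = 0` on it, `|A1| = |A|`.
 `H^⊥` is the disjoint union of the cosets of `H` with representatives `0`, `a`, `x`, `a + x`, where `a ∈ A \ H` (it has `4 |H|` elements), and `q (a + x + h) = B a x = 1`.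
 `W ∩ H^⊥ = (W + H)^⊥` has twice as many elements as `W ∩ H` (count: `|(W + H)^⊥| = 4^n / |W + H|`, `|W + H| = |W| |H| / |W ∩ H| = 2^n 2^(n-1) / |W ∩ H|`). Take `w ∈ W ∩ H^⊥`, `w ∉ H`: `q w = 0`, so `w ∈ a + H` or `w ∈ x + H`. If `w ∈ A`: `|A ∩ W| = 2 |H ∩ W|` and `A1 ∩ W = H ∩ W`
 (`A ∩ W, A1 ∩ W ⊆ W ∩ H^⊥ = (W ∩ H) ∪ (w + W ∩ H)`). If `w ∈ A1`: the other way round. So the exponents `p` of `|A ∩ W| = 2^p` and `|A1 ∩ W| = 2^p1` differ by one.
(2) Induction on `q` where `|A| = 2^q |A ∩ B|` (`B.relIndex A = 2^q`): if `A = B` then `q = 0`, `p = n`. Otherwise take `x ∈ B \ A`, `A1` as in (1): `A1 ∩ B = (A ∩ B) ∪ (x + A ∩ B)` (`A ∩ B ⊆ H` as `B = 0` on `B × B`), so `A1`, `B` have exponent `q - 1`.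
-/

set_option autoImplicit false
set_option linter.unusedSectionVars false
open scoped Classical

namespace H76MB

section Ca

variable {V : Type} [AddCommGroup V] [Module (ZMod 2) V] [FiniteDimensional (ZMod 2) V]

private def CaI (q : V → ZMod 2) (n : ℕ) (A : Submodule (ZMod 2) V) : Prop :=
  (∀ z ∈ A, q z = 0) ∧ Module.finrank (ZMod 2) A = n

private theorem Ca_B {q : V → ZMod 2} {b : LinearMap.BilinForm (ZMod 2) V}
    (hq : ∀ z w, q (z + w) = q z + q w + b z w) {A : Submodule (ZMod 2) V}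
    (hA : ∀ z ∈ A, q z = 0) {z w : V} (hz : z ∈ A) (hw : w ∈ A) : b z w = 0 := by
  have h := hq z w
  rw [hA _ (A.add_mem hz hw), hA _ hz, hA _ hw, add_zero, zero_add] at h
  exact h.symm

private theorem Ca_le {q : V → ZMod 2} {b : LinearMap.BilinForm (ZMod 2) V} {n : ℕ}
    (hq : ∀ z w, q (z + w) = q z + q w + b z w) (hb : b.Nondegenerate)
    (hV : Module.finrank (ZMod 2) V = 2 * n) {A : Submodule (ZMod 2) V}
    (hA : ∀ z ∈ A, q z = 0) : Module.finrank (ZMod 2) A ≤ n := by
  have h1 : A ≤ b.orthogonal A := fun z hz => fun w hw => Ca_B hq hA hw hz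
  have h2 := Submodule.finrank_mono h1
  rw [LinearMap.BilinForm.finrank_orthogonal hb, hV] at h2
  omega

private theorem Ca_perp {q : V → ZMod 2} {b : LinearMap.BilinForm (ZMod 2) V} {n : ℕ}
    (hq : ∀ z w, q (z + w) = q z + q w + b z w) (hb : b.Nondegenerate)
    (hV : Module.finrank (ZMod 2) V = 2 * n) {A : Submodule (ZMod 2) V}
    (hA : CaI q n A) : b.orthogonal A = A := by
  have h1 : A ≤ b.orthogonal A := fun z hz => fun w hw => Ca_B hq hA.1 hw hz
  refine (Submodule.eq_of_le_of_finrank_le h1 ?_).symm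
  rw [LinearMap.BilinForm.finrank_orthogonal hb, hV, hA.2]
  omega

private theorem Ca_z2 (a : ZMod 2) : a = 0 ∨ a = 1 := by
  revert a
  decide

private theorem Ca_two (v : V) : v + v = 0 := by
  rw [← two_smul (ZMod 2) v, show (2 : ZMod 2) = 0 from rfl, zero_smul]

private theorem Ca_step {q : V → ZMod 2} {b : LinearMap.BilinForm (ZMod 2) V} {n : ℕ}
    (hq : ∀ z w, q (z + w) = q z + q w + b z w) (hb : b.Nondegenerate)
    (hs : ∀ z w, b z w = b w z)
    (hV : Module.finrank (ZMod 2) V = 2 * n) {A : Submodule (ZMod 2) V}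
    (hA : CaI q n A) {x : V} (hx : x ∉ A) (hqx : q x = 0) :
    ∃ A₁ : Submodule (ZMod 2) V, CaI q n A₁ ∧ x ∈ A₁ ∧ (∀ a ∈ A, b a x = 0 → a ∈ A₁) ∧
      ∀ W : Submodule (ZMod 2) V, CaI q n W →
        (Module.finrank (ZMod 2) (A₁ ⊓ W : Submodule (ZMod 2) V)
            = Module.finrank (ZMod 2) (A ⊓ W : Submodule (ZMod 2) V) + 1 ∨
          Module.finrank (ZMod 2) (A ⊓ W : Submodule (ZMod 2) V)
            = Module.finrank (ZMod 2) (A₁ ⊓ W : Submodule (ZMod 2) V) + 1) := by
  obtain ⟨H, hH⟩ : ∃ H : Submodule (ZMod 2) V, ∀ a, a ∈ H ↔ a ∈ A ∧ b a x = 0 := by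
    refine ⟨A ⊓ LinearMap.ker (b x), fun a => ?_⟩
    rw [Submodule.mem_inf, LinearMap.mem_ker, hs x a]
  have hHA : H ≤ A := fun a ha => ((hH a).1 ha).1
  have hxH : x ∉ H := fun h => hx (hHA h)
  obtain ⟨A₁, hA₁⟩ : ∃ A₁ : Submodule (ZMod 2) V, ∀ a, a ∈ A₁ ↔ a ∈ H ∨ a + x ∈ H := by
    refine ⟨H ⊔ Submodule.span (ZMod 2) {x}, fun a => ?_⟩
    rw [Submodule.mem_sup]
    constructor
    · rintro ⟨h, hh, y, hy, rfl⟩
      obtain ⟨c, rfl⟩ := Submodule.mem_span_singleton.1 hy
      rcases Ca_z2 c with rfl | rfl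
      · left
        rw [zero_smul, add_zero]
        exact hh
      · right
        rw [one_smul, add_assoc, Ca_two, add_zero]
        exact hh
    · rintro (h | h)
      · exact ⟨a, h, 0, Submodule.zero_mem _, add_zero a⟩
      · refine ⟨a + x, h, x, Submodule.mem_span_singleton_self x, ?_⟩
        rw [add_assoc, Ca_two, add_zero]
  have hHA₁ : H ≤ A₁ := fun a ha => (hA₁ a).2 (Or.inl ha)
  have hxA₁ : x ∈ A₁ := (hA₁ x).2 (Or.inr (by rw [Ca_two]; exact H.zero_mem))
  obtain ⟨a₀, ha₀, hba₀⟩ : ∃ a ∈ A, b a x = 1 := by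
    by_contra hcon
    push Not at hcon
    refine hx ?_
    rw [← Ca_perp hq hb hV hA]
    intro a ha
    rcases Ca_z2 (b a x) with h | h
    · exact h
    · exact absurd h (hcon a ha)
  have ha₀H : a₀ ∉ H := by
    intro h
    have h' := ((hH _).1 h).2
    rw [hba₀] at h'
    exact absurd h' (by decide)
  -- dimensions
  have key : ∀ (S T : Submodule (ZMod 2) V) (y : V), S ≤ T → y ∈ T → y ∉ S →
      (∀ z ∈ T, z ∈ S ∨ z + y ∈ S) →
      Module.finrank (ZMod 2) T = Module.finrank (ZMod 2) S + 1 := by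
    intro S T y hST hyT hyS hall
    have h1 : T = S ⊔ Submodule.span (ZMod 2) {y} := by
      apply le_antisymm
      · intro z hz
        rw [Submodule.mem_sup]
        rcases hall z hz with h | h
        · exact ⟨z, h, 0, Submodule.zero_mem _, add_zero z⟩
        · refine ⟨z + y, h, y, Submodule.mem_span_singleton_self y, ?_⟩
          rw [add_assoc, Ca_two, add_zero]
      · refine sup_le hST ?_
        rw [Submodule.span_singleton_le_iff_mem]
        exact hyT
    have hy0 : y ≠ 0 := fun h => hyS (h ▸ S.zero_mem)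
    have h2 := Submodule.finrank_sup_add_finrank_inf_eq S (Submodule.span (ZMod 2) {y})
    have h3 : S ⊓ Submodule.span (ZMod 2) {y} = ⊥ := by
      rw [Submodule.eq_bot_iff]
      intro z hz
      obtain ⟨c, rfl⟩ := Submodule.mem_span_singleton.1 (Submodule.mem_inf.1 hz).2
      rcases Ca_z2 c with rfl | rfl
      · rw [zero_smul]
      · rw [one_smul] at hz
        exact absurd (Submodule.mem_inf.1 hz).1 hyS
    rw [← h1, h3, finrank_bot, finrank_span_singleton hy0, add_zero] at h2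
    exact h2
  have hAd : Module.finrank (ZMod 2) A = Module.finrank (ZMod 2) H + 1 := by
    refine key H A a₀ hHA ha₀ ha₀H ?_
    intro z hz
    rcases Ca_z2 (b z x) with h | h
    · exact Or.inl ((hH z).2 ⟨hz, h⟩)
    · refine Or.inr ((hH _).2 ⟨A.add_mem hz ha₀, ?_⟩)
      rw [map_add, LinearMap.add_apply, h, hba₀]
      decide
  have hA₁d : Module.finrank (ZMod 2) A₁ = Module.finrank (ZMod 2) H + 1 :=
    key H A₁ x hHA₁ hxA₁ hxH (fun z hz => (hA₁ z).1 hz)
  have hqA₁ : ∀ z ∈ A₁, q z = 0 := by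
    intro z hz
    rcases (hA₁ z).1 hz with h | h
    · exact hA.1 z (hHA h)
    · have e : z = (z + x) + x := by rw [add_assoc, Ca_two, add_zero]
      rw [e, hq, hA.1 _ (hHA h), hqx, ((hH _).1 h).2]
      decide
  have hIA₁ : CaI q n A₁ := ⟨hqA₁, by rw [hA₁d, ← hAd, hA.2]⟩
  have hinf : ∀ z, z ∈ A → z ∈ A₁ → z ∈ H := by
    intro z h1 h2
    rcases (hA₁ z).1 h2 with h | h
    · exact h
    · exfalso
      refine hx ?_
      have e : x = z + (z + x) := by rw [← add_assoc, Ca_two, zero_add]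
      rw [e]
      exact A.add_mem h1 (hHA h)
  -- the orthogonal complement of H
  have hperp : ∀ z ∈ b.orthogonal H, z ∈ A ∨ z + x ∈ A := by
    have h1 : b.orthogonal H = A ⊔ Submodule.span (ZMod 2) {x} := by
      refine (Submodule.eq_of_le_of_finrank_le ?_ ?_).symm
      · refine sup_le ?_ ?_
        · intro z hz w hw
          exact Ca_B hq hA.1 (hHA hw) hz
        · rw [Submodule.span_singleton_le_iff_mem]
          intro w hw
          exact ((hH w).1 hw).2
      · have h2 := key A (A ⊔ Submodule.span (ZMod 2) {x}) x le_sup_left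
          (Submodule.mem_sup_right (Submodule.mem_span_singleton_self x)) hx (by
            intro z hz
            obtain ⟨a, ha, y, hy, rfl⟩ := Submodule.mem_sup.1 hz
            obtain ⟨c, rfl⟩ := Submodule.mem_span_singleton.1 hy
            rcases Ca_z2 c with rfl | rfl
            · left
              rw [zero_smul, add_zero]
              exact ha
            · right
              rw [one_smul, add_assoc, Ca_two, add_zero]
              exact ha)
        rw [LinearMap.BilinForm.finrank_orthogonal hb, hV, h2, hA.2]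
        rw [hA.2] at hAd
        omega
    intro z hz
    rw [h1] at hz
    obtain ⟨a, ha, y, hy, rfl⟩ := Submodule.mem_sup.1 hz
    obtain ⟨c, rfl⟩ := Submodule.mem_span_singleton.1 hy
    rcases Ca_z2 c with rfl | rfl
    · left
      rw [zero_smul, add_zero]
      exact ha
    · right
      rw [one_smul, add_assoc, Ca_two, add_zero]
      exact ha
  refine ⟨A₁, hIA₁, hxA₁, fun a ha hbx => hHA₁ ((hH a).2 ⟨ha, hbx⟩), ?_⟩
  intro W hW
  have hor : ∀ w ∈ W, w ∈ b.orthogonal H → w ∈ A ∨ w ∈ A₁ := by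
    intro w hw hwH
    rcases hperp w hwH with h | h
    · exact Or.inl h
    · right
      refine (hA₁ w).2 (Or.inr ((hH _).2 ⟨h, ?_⟩))
      have e : w = (w + x) + x := by rw [add_assoc, Ca_two, add_zero]
      have h1 := hq (w + x) x
      rw [← e, hW.1 w hw, hA.1 _ h, hqx, zero_add, zero_add] at h1
      exact h1.symm
  -- an element of W orthogonal to H and not in H
  have hdim : Module.finrank (ZMod 2) (W ⊓ b.orthogonal H : Submodule (ZMod 2) V)
      = Module.finrank (ZMod 2) (W ⊓ H : Submodule (ZMod 2) V) + 1 := by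
    have h1 : W ⊓ b.orthogonal H = b.orthogonal (W ⊔ H) := by
      ext z
      constructor
      · rintro ⟨h2, h3⟩ y hy
        obtain ⟨w, hw, h, hh, rfl⟩ := Submodule.mem_sup.1 hy
        show b (w + h) z = 0
        rw [map_add, LinearMap.add_apply, Ca_B hq hW.1 hw h2, h3 h hh, add_zero]
      · intro h2
        refine ⟨?_, fun y hy => h2 y (Submodule.mem_sup_right hy)⟩
        have h3 : z ∈ b.orthogonal W := fun y hy => h2 y (Submodule.mem_sup_left hy)
        rw [Ca_perp hq hb hV hW] at h3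
        exact h3
    rw [h1, LinearMap.BilinForm.finrank_orthogonal hb, hV]
    have h2 := Submodule.finrank_sup_add_finrank_inf_eq W H
    have h3 := hW.2
    have h4 := hA.2
    have h5 := Submodule.finrank_mono (inf_le_right : W ⊓ H ≤ H)
    omega
  obtain ⟨w, hw, hwH⟩ : ∃ w ∈ W ⊓ b.orthogonal H, w ∉ H := by
    by_contra hcon
    push Not at hcon
    have h1 : W ⊓ b.orthogonal H ≤ W ⊓ H := fun z hz => ⟨hz.1, hcon z hz⟩
    have h2 := Submodule.finrank_mono h1
    omega
  have hHperp : H ≤ b.orthogonal H := fun z hz w hw => Ca_B hq hA.1 (hHA hw) (hHA hz)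
  have hAperp : ∀ z ∈ A, z ∈ b.orthogonal H := fun z hz w hw => Ca_B hq hA.1 (hHA hw) hz
  have hA₁perp : ∀ z ∈ A₁, z ∈ b.orthogonal H := fun z hz w hw => Ca_B hq hqA₁ (hHA₁ hw) hz
  rcases hor w hw.1 hw.2 with hwA | hwA
  · right
    have e1 : A₁ ⊓ W = W ⊓ H := by
      ext z
      constructor
      · rintro ⟨h1, h2⟩
        refine ⟨h2, ?_⟩
        by_contra hz
        rcases hor (w + z) (W.add_mem hw.1 h2) (Submodule.add_mem _ hw.2 (hA₁perp z h1))
          with h3 | h3
        · refine hz (hinf z ?_ h1)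
          have e : z = w + (w + z) := by rw [← add_assoc, Ca_two, zero_add]
          rw [e]
          exact A.add_mem hwA h3
        · refine hwH (hinf w hwA ?_)
          have e : w = (w + z) + z := by rw [add_assoc, Ca_two, add_zero]
          rw [e]
          exact A₁.add_mem h3 h1
      · rintro ⟨h1, h2⟩
        exact ⟨hHA₁ h2, h1⟩
    have e2 : A ⊓ W = W ⊓ b.orthogonal H := by
      refine Submodule.eq_of_le_of_finrank_le (fun z hz => ⟨hz.2, hAperp z hz.1⟩) ?_
      rw [hdim]
      have h1 : W ⊓ H < A ⊓ W := by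
        refine lt_of_le_of_ne (fun z hz => ⟨hHA hz.2, hz.1⟩) ?_
        intro h
        have h2 : w ∈ A ⊓ W := ⟨hwA, hw.1⟩
        rw [← h] at h2
        exact hwH h2.2
      exact Submodule.finrank_lt_finrank_of_lt h1
    rw [e1, e2, hdim]
  · left
    have e1 : A ⊓ W = W ⊓ H := by
      ext z
      constructor
      · rintro ⟨h1, h2⟩
        refine ⟨h2, ?_⟩
        by_contra hz
        rcases hor (w + z) (W.add_mem hw.1 h2) (Submodule.add_mem _ hw.2 (hAperp z h1))
          with h3 | h3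
        · refine hwH (hinf w ?_ hwA)
          have e : w = (w + z) + z := by rw [add_assoc, Ca_two, add_zero]
          rw [e]
          exact A.add_mem h3 h1
        · refine hz (hinf z h1 ?_)
          have e : z = w + (w + z) := by rw [← add_assoc, Ca_two, zero_add]
          rw [e]
          exact A₁.add_mem hwA h3
      · rintro ⟨h1, h2⟩
        exact ⟨hHA h2, h1⟩
    have e2 : A₁ ⊓ W = W ⊓ b.orthogonal H := by
      refine Submodule.eq_of_le_of_finrank_le (fun z hz => ⟨hz.2, hA₁perp z hz.1⟩) ?_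
      rw [hdim]
      have h1 : W ⊓ H < A₁ ⊓ W := by
        refine lt_of_le_of_ne (fun z hz => ⟨hHA₁ hz.2, hz.1⟩) ?_
        intro h
        have h2 : w ∈ A₁ ⊓ W := ⟨hwA, hw.1⟩
        rw [← h] at h2
        exact hwH h2.2
      exact Submodule.finrank_lt_finrank_of_lt h1
    rw [e1, e2, hdim]

private theorem Ca_par {q : V → ZMod 2} {b : LinearMap.BilinForm (ZMod 2) V} {n : ℕ}
    (hq : ∀ z w, q (z + w) = q z + q w + b z w) (hb : b.Nondegenerate)
    (hs : ∀ z w, b z w = b w z)
    (hV : Module.finrank (ZMod 2) V = 2 * n) {B W : Submodule (ZMod 2) V}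
    (hB : CaI q n B) (hW : CaI q n W) (k : ℕ) :
    ∀ A : Submodule (ZMod 2) V, CaI q n A →
      Module.finrank (ZMod 2) (A ⊓ B : Submodule (ZMod 2) V) + k = n →
      Even (Module.finrank (ZMod 2) (A ⊓ W : Submodule (ZMod 2) V)
        + Module.finrank (ZMod 2) (B ⊓ W : Submodule (ZMod 2) V) + k) := by
  induction k with
  | zero =>
    intro A hA h
    have h1 : A ⊓ B = A := Submodule.eq_of_le_of_finrank_le inf_le_left (by
      rw [hA.2]
      omega)
    have h2 : A ⊓ B = B := Submodule.eq_of_le_of_finrank_le inf_le_right (by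
      rw [hB.2]
      omega)
    have h3 : A = B := h1.symm.trans h2
    rw [h3, add_zero]
    exact Even.add_self _
  | succ k ih =>
    intro A hA h
    obtain ⟨x, hxB, hxA⟩ : ∃ x ∈ B, x ∉ A := by
      by_contra hcon
      push Not at hcon
      have h1 : A ⊓ B = B := le_antisymm inf_le_right (fun z hz => ⟨hcon z hz, hz⟩)
      rw [h1, hB.2] at h
      omega
    obtain ⟨A₁, hA₁, hx1, hH, hst⟩ := Ca_step hq hb hs hV hA hxA (hB.1 x hxB)
    have h1 : A ⊓ B < A₁ ⊓ B := by
      refine lt_of_le_of_ne ?_ ?_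
      · intro z hz
        exact ⟨hH z hz.1 (Ca_B hq hB.1 hz.2 hxB), hz.2⟩
      · intro h2
        have h3 : x ∈ A₁ ⊓ B := ⟨hx1, hxB⟩
        rw [← h2] at h3
        exact hxA h3.1
    have h2 := Submodule.finrank_lt_finrank_of_lt h1
    have h3 := hst B hB
    have h4 := hst W hW
    have h5 := ih A₁ hA₁ (by omega)
    rw [Nat.even_iff] at h5 ⊢
    omega

end Ca

theorem lagU {J : Type} [Fintype J] {A B : AddSubgroup ((J → ZMod 2) × (J → ZMod 2))}
    (hA : ∀ z ∈ A, ∑ j, z.1 j * z.2 j = 0) (hB : ∀ z ∈ B, ∑ j, z.1 j * z.2 j = 0)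
    (hA1 : 2 ^ Fintype.card J ≤ Nat.card A) (hB1 : 2 ^ Fintype.card J ≤ Nat.card B) :
    Nat.card A = Nat.card B ∧ ∃ p n q : ℕ,
      Nat.card {z : (J → ZMod 2) × (J → ZMod 2) // z ∈ A ∧ z.1 = 0} = 2 ^ p ∧
      Nat.card {z : (J → ZMod 2) × (J → ZMod 2) // z ∈ B ∧ z.1 = 0} = 2 ^ n ∧
      B.relIndex A = 2 ^ q ∧ Even (p + n + q) := by
  obtain ⟨n, hn⟩ : ∃ n, n = Fintype.card J := ⟨_, rfl⟩
  obtain ⟨q, hqd⟩ : ∃ q : (J → ZMod 2) × (J → ZMod 2) → ZMod 2,
    ∀ z, q z = ∑ j, z.1 j * z.2 j := ⟨_, fun _ => rfl⟩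
  obtain ⟨b, hbd⟩ : ∃ b : LinearMap.BilinForm (ZMod 2) ((J → ZMod 2) × (J → ZMod 2)),
      ∀ z w, b z w = ∑ j, (z.1 j * w.2 j + w.1 j * z.2 j) := by
    refine ⟨LinearMap.mk₂ (ZMod 2) (fun z w => ∑ j, (z.1 j * w.2 j + w.1 j * z.2 j))
      ?_ ?_ ?_ ?_, fun z w => rfl⟩
    · intro z z' w
      rw [← Finset.sum_add_distrib]
      refine Finset.sum_congr rfl fun j _ => ?_
      simp only [Prod.fst_add, Prod.snd_add, Pi.add_apply]
      ring
    · intro c z w
      rw [Finset.smul_sum]
      refine Finset.sum_congr rfl fun j _ => ?_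
      simp only [Prod.smul_fst, Prod.smul_snd, Pi.smul_apply, smul_eq_mul]
      ring
    · intro z w w'
      rw [← Finset.sum_add_distrib]
      refine Finset.sum_congr rfl fun j _ => ?_
      simp only [Prod.fst_add, Prod.snd_add, Pi.add_apply]
      ring
    · intro c z w
      rw [Finset.smul_sum]
      refine Finset.sum_congr rfl fun j _ => ?_
      simp only [Prod.smul_fst, Prod.smul_snd, Pi.smul_apply, smul_eq_mul]
      ring
  have hq : ∀ z w, q (z + w) = q z + q w + b z w := by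
    intro z w
    rw [hqd, hqd, hqd, hbd, ← Finset.sum_add_distrib, ← Finset.sum_add_distrib]
    refine Finset.sum_congr rfl fun j _ => ?_
    simp only [Prod.fst_add, Prod.snd_add, Pi.add_apply]
    ring
  have hs : ∀ z w, b z w = b w z := by
    intro z w
    rw [hbd, hbd]
    refine Finset.sum_congr rfl fun j _ => ?_
    ring
  have hb : b.Nondegenerate := by
    have h1 : ∀ z, (∀ w, b z w = 0) → z = 0 := by
      intro z hz
      have h2 : ∀ j, z.1 j = 0 := by
        intro j
        have h := hz (0, Pi.single j 1)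
        rw [hbd, Finset.sum_eq_single j] at h
        · simpa using h
        · intro i _ hi
          simp [Pi.single_eq_of_ne hi]
        · intro h
          exact absurd (Finset.mem_univ j) h
      have h3 : ∀ j, z.2 j = 0 := by
        intro j
        have h := hz (Pi.single j 1, 0)
        rw [hbd, Finset.sum_eq_single j] at h
        · simpa using h
        · intro i _ hi
          simp [Pi.single_eq_of_ne hi]
        · intro h
          exact absurd (Finset.mem_univ j) h
      exact Prod.ext (funext h2) (funext h3)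
    exact ⟨h1, fun z hz => h1 z fun w => by rw [hs]; exact hz w⟩
  have hV : Module.finrank (ZMod 2) ((J → ZMod 2) × (J → ZMod 2)) = 2 * n := by
    rw [Module.finrank_prod, Module.finrank_fintype_fun_eq_card, ← hn]
    omega
  obtain ⟨A', hA'⟩ : ∃ A' : Submodule (ZMod 2) ((J → ZMod 2) × (J → ZMod 2)),
    ∀ z, z ∈ A' ↔ z ∈ A := ⟨AddSubgroup.toZModSubmodule 2 A, fun z => Iff.rfl⟩
  obtain ⟨B', hB'⟩ : ∃ B' : Submodule (ZMod 2) ((J → ZMod 2) × (J → ZMod 2)),
    ∀ z, z ∈ B' ↔ z ∈ B := ⟨AddSubgroup.toZModSubmodule 2 B, fun z => Iff.rfl⟩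
  have hcard : ∀ S : Submodule (ZMod 2) ((J → ZMod 2) × (J → ZMod 2)),
      Nat.card S = 2 ^ Module.finrank (ZMod 2) S := by
    intro S
    rw [Module.natCard_eq_pow_finrank (K := ZMod 2), Nat.card_zmod]
  have hcA : Nat.card A = Nat.card A' := Nat.card_congr (Equiv.subtypeEquivRight fun z =>
    (hA' z).symm)
  have hcB : Nat.card B = Nat.card B' := Nat.card_congr (Equiv.subtypeEquivRight fun z =>
    (hB' z).symm)
  have hqA : ∀ z ∈ A', q z = 0 := fun z hz => by rw [hqd]; exact hA z ((hA' z).1 hz)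
  have hqB : ∀ z ∈ B', q z = 0 := fun z hz => by rw [hqd]; exact hB z ((hB' z).1 hz)
  have hIA : CaI q n A' := by
    refine ⟨hqA, le_antisymm (Ca_le hq hb hV hqA) ?_⟩
    rw [hcA, hcard, ← hn] at hA1
    exact (Nat.pow_le_pow_iff_right (by norm_num)).1 hA1
  have hIB : CaI q n B' := by
    refine ⟨hqB, le_antisymm (Ca_le hq hb hV hqB) ?_⟩
    rw [hcB, hcard, ← hn] at hB1
    exact (Nat.pow_le_pow_iff_right (by norm_num)).1 hB1
  obtain ⟨W, hWd⟩ : ∃ W : Submodule (ZMod 2) ((J → ZMod 2) × (J → ZMod 2)),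
      W = LinearMap.ker (LinearMap.fst (ZMod 2) (J → ZMod 2) (J → ZMod 2)) := ⟨_, rfl⟩
  have hWm : ∀ z, z ∈ W ↔ z.1 = 0 := by
    intro z
    rw [hWd, LinearMap.mem_ker, LinearMap.fst_apply]
  have hIW : CaI q n W := by
    refine ⟨?_, ?_⟩
    · intro z hz
      rw [hqd, (hWm z).1 hz]
      refine Finset.sum_eq_zero fun j _ => ?_
      rw [Pi.zero_apply, zero_mul]
    · have h1 := LinearMap.finrank_range_add_finrank_ker
        (LinearMap.fst (ZMod 2) (J → ZMod 2) (J → ZMod 2))
      rw [LinearMap.range_eq_top.2 LinearMap.fst_surjective, finrank_top, hV,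
        Module.finrank_fintype_fun_eq_card, ← hn, ← hWd] at h1
      omega
  have hle : Module.finrank (ZMod 2) (A' ⊓ B' : Submodule (ZMod 2)
      ((J → ZMod 2) × (J → ZMod 2))) ≤ n := by
    rw [← hIA.2]
    exact Submodule.finrank_mono inf_le_left
  refine ⟨by rw [hcA, hcB, hcard, hcard, hIA.2, hIB.2], Module.finrank (ZMod 2)
    (A' ⊓ W : Submodule (ZMod 2) ((J → ZMod 2) × (J → ZMod 2))), Module.finrank (ZMod 2)
    (B' ⊓ W : Submodule (ZMod 2) ((J → ZMod 2) × (J → ZMod 2))),
    n - Module.finrank (ZMod 2) (A' ⊓ B' : Submodule (ZMod 2)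
      ((J → ZMod 2) × (J → ZMod 2))), ?_, ?_, ?_, ?_⟩
  · rw [← hcard]
    exact Nat.card_congr (Equiv.subtypeEquivRight fun z => by
      rw [Submodule.mem_inf, hA', hWm])
  · rw [← hcard]
    exact Nat.card_congr (Equiv.subtypeEquivRight fun z => by
      rw [Submodule.mem_inf, hB', hWm])
  · have h1 := AddSubgroup.relIndex_mul_relIndex (⊥ : AddSubgroup _) (B ⊓ A) A bot_le
      inf_le_right
    rw [AddSubgroup.relIndex_bot_left, AddSubgroup.relIndex_bot_left,
      AddSubgroup.inf_relIndex_right] at h1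
    have h2 : Nat.card (B ⊓ A : AddSubgroup _) = 2 ^ Module.finrank (ZMod 2)
        (A' ⊓ B' : Submodule (ZMod 2) ((J → ZMod 2) × (J → ZMod 2))) := by
      rw [← hcard]
      exact Nat.card_congr (Equiv.subtypeEquivRight fun z => by
        rw [Submodule.mem_inf, hA', hB', AddSubgroup.mem_inf, and_comm])
    rw [h2, hcA, hcard, hIA.2] at h1
    refine Nat.eq_of_mul_eq_mul_left (pow_pos (by norm_num : 0 < 2) _) (h1.trans ?_)
    rw [← pow_add]
    congr 1
    omega
  · exact Ca_par hq hb hs hV hIB hIW _ A' hIA (by omega)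

end H76MB
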