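import Pool.Agent.H76.MB.Ca

/-!
Row MB/Cb (project MP_78d38b_MQ, PI helper76), about 90 lines, pure group theory.

`lag3`: transport `lagU` (Ca.lean) along `loc : M →+ (J → ZMod 2) × (J → ZMod 2)`, `loc x = (fun j => r j x, fun j => u j x)`, which is injective on `X`. `A' := A.map loc`, `B' := B.map loc`; `Nat.card A' = Nat.card A` etc. (injective on `X ≥ A, B`),
`B'.relIndex A' = B.relIndex A` (restrict to `X`: `AddSubgroup.relIndex_map_map`-like lemmas, or count: `(A ⊓ B).map loc = A' ⊓ B'` by injectivity on `X` and `card A = relIndex * card (A ⊓ B)`).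
`idx_prod`: induction on `s`. For `insert i s`: `(W i ⊓ Z).relIndex Y = Z.relIndex Y * (W i).relIndex (Y ⊓ Z)`, `Z := ⨅ j ∈ s, W j` (`AddSubgroup.relIndex_inf_mul_relIndex` or a relative of it; if `relIndex` can be `0`, i.e. infinite, the formulas are still true),
and `(W i).relIndex (Y ⊓ Z) = (W i).relIndex (X i)`: the inclusion `Y ⊓ Z → X i` induces a bijection modulo `W i`: onto by `hl` (`y ∈ Y`, `y ∈ W j` for `j ∈ s`, `j ≠ i`), see `AddSubgroup.relIndex_sup_right`/`relIndex_eq_of_...`: `X i = (Y ⊓ Z) ⊔ (W i ⊓ X i)`.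
The induction hypothesis for `s` needs `hl` for `s` only.
-/

set_option autoImplicit false
open scoped Classical

namespace H76MB

/-- The components. -/
def Cb_loc {M J : Type} [AddCommGroup M] (r u : J → (M →+ ZMod 2)) :
    M →+ (J → ZMod 2) × (J → ZMod 2) where
  toFun x := (fun j => r j x, fun j => u j x)
  map_zero' := Prod.ext (funext fun j => map_zero (r j)) (funext fun j => map_zero (u j))
  map_add' x y := Prod.ext (funext fun j => map_add (r j) x y) (funext fun j => map_add (u j) x y)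

section

variable {M J : Type} [AddCommGroup M] {r u : J → (M →+ ZMod 2)} {X A B : AddSubgroup M}

theorem Cb_inj (hX : ∀ x ∈ X, (∀ j, r j x = 0) → (∀ j, u j x = 0) → x = 0) (hAX : A ≤ X) :
    Set.InjOn (Cb_loc r u) (A : Set M) := by
  intro x hx y hy h
  have h1 : x - y ∈ X := hAX (A.sub_mem hx hy)
  have h2 : Cb_loc r u (x - y) = 0 := by rw [map_sub, h, sub_self]
  exact sub_eq_zero.1 (hX _ h1 (fun j => congrFun (congrArg Prod.fst h2) j)
    fun j => congrFun (congrArg Prod.snd h2) j)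

theorem Cb_card (hX : ∀ x ∈ X, (∀ j, r j x = 0) → (∀ j, u j x = 0) → x = 0) (hAX : A ≤ X) :
    Nat.card ↥(A.map (Cb_loc r u)) = Nat.card A :=
  Nat.card_image_of_injOn (Cb_inj hX hAX)

theorem Cb_card0 (hX : ∀ x ∈ X, (∀ j, r j x = 0) → (∀ j, u j x = 0) → x = 0) (hAX : A ≤ X) :
    Nat.card {z : (J → ZMod 2) × (J → ZMod 2) // z ∈ A.map (Cb_loc r u) ∧ z.1 = 0} =
      Nat.card {x : M // x ∈ A ∧ ∀ j, r j x = 0} := by
  have h1 : {z : (J → ZMod 2) × (J → ZMod 2) | z ∈ A.map (Cb_loc r u) ∧ z.1 = 0} =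
      Cb_loc r u '' {x : M | x ∈ A ∧ ∀ j, r j x = 0} := by
    ext z
    constructor
    · rintro ⟨⟨x, hx, rfl⟩, h⟩
      exact ⟨x, ⟨hx, fun j => congrFun h j⟩, rfl⟩
    · rintro ⟨x, ⟨hx, h⟩, rfl⟩
      exact ⟨⟨x, hx, rfl⟩, funext h⟩
  have h2 : Set.InjOn (Cb_loc r u) {x : M | x ∈ A ∧ ∀ j, r j x = 0} :=
    (Cb_inj hX hAX).mono fun x hx => hx.1
  have h3 := Nat.card_image_of_injOn h2
  rw [← h1] at h3
  exact h3

theorem Cb_rel {G : Type} [AddCommGroup G] (A B : AddSubgroup G) :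
    Nat.card ↥(B ⊓ A) * B.relIndex A = Nat.card A := by
  have h1 := AddSubgroup.relIndex_mul_relIndex (⊥ : AddSubgroup G) (B ⊓ A) A bot_le inf_le_right
  rw [AddSubgroup.relIndex_bot_left, AddSubgroup.relIndex_bot_left,
    AddSubgroup.inf_relIndex_right] at h1
  exact h1

theorem Cb_inf (hX : ∀ x ∈ X, (∀ j, r j x = 0) → (∀ j, u j x = 0) → x = 0) (hAX : A ≤ X)
    (hBX : B ≤ X) : B.map (Cb_loc r u) ⊓ A.map (Cb_loc r u) = (B ⊓ A).map (Cb_loc r u) := by
  ext z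
  rw [AddSubgroup.mem_inf]
  constructor
  · rintro ⟨⟨x, hx, rfl⟩, ⟨y, hy, h⟩⟩
    have h1 : x = y := Cb_inj hX le_rfl (hBX hx) (hAX hy) h.symm
    rw [← h1] at hy
    exact ⟨x, ⟨hx, hy⟩, rfl⟩
  · rintro ⟨x, hx, rfl⟩
    exact ⟨⟨x, hx.1, rfl⟩, ⟨x, hx.2, rfl⟩⟩

end

theorem lag3 {M J : Type} [AddCommGroup M] [Fintype J] (r u : J → (M →+ ZMod 2))
    {X A B : AddSubgroup M} (hX : ∀ x ∈ X, (∀ j, r j x = 0) → (∀ j, u j x = 0) → x = 0)
    (hAX : A ≤ X) (hBX : B ≤ X) (hA : ∀ x ∈ A, ∑ j, r j x * u j x = 0)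
    (hB : ∀ x ∈ B, ∑ j, r j x * u j x = 0)
    (hA1 : 2 ^ Fintype.card J ≤ Nat.card A) (hB1 : 2 ^ Fintype.card J ≤ Nat.card B) :
    Nat.card A = Nat.card B ∧ ∃ p n q : ℕ,
      Nat.card {x : M // x ∈ A ∧ ∀ j, r j x = 0} = 2 ^ p ∧
      Nat.card {x : M // x ∈ B ∧ ∀ j, r j x = 0} = 2 ^ n ∧
      B.relIndex A = 2 ^ q ∧ Even (p + n + q) := by
  have cA := Cb_card (r := r) (u := u) hX hAX
  have cB := Cb_card (r := r) (u := u) hX hBX
  obtain ⟨h1, p, n, q, h2, h3, h4, h5⟩ := lagU (A := A.map (Cb_loc r u))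
    (B := B.map (Cb_loc r u)) (by
      rintro z ⟨x, hx, rfl⟩
      exact hA x hx) (by
      rintro z ⟨x, hx, rfl⟩
      exact hB x hx) (by rw [cA]; exact hA1) (by rw [cB]; exact hB1)
  rw [Cb_card0 hX hAX] at h2
  rw [Cb_card0 hX hBX] at h3
  rw [cA, cB] at h1
  refine ⟨h1, p, n, q, h2, h3, ?_, h5⟩
  rw [← h4]
  have h6 := Cb_rel A B
  have h7 := Cb_rel (A.map (Cb_loc r u)) (B.map (Cb_loc r u))
  rw [Cb_inf hX hAX hBX, Cb_card hX (inf_le_right.trans hAX), cA, ← h6] at h7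
  have h8 : 0 < Nat.card A := lt_of_lt_of_le (pow_pos two_pos _) hA1
  have h9 : 0 < Nat.card ↥(B ⊓ A) := by
    refine Nat.pos_of_ne_zero fun h => ?_
    rw [h, zero_mul] at h6
    omega
  exact (Nat.eq_of_mul_eq_mul_left h9 h7).symm

theorem idx_prod {M ι : Type} [AddCommGroup M] (s : Finset ι) (X W : ι → AddSubgroup M)
    (Y : AddSubgroup M) (hY : ∀ i ∈ s, Y ≤ X i)
    (hl : ∀ i ∈ s, ∀ x ∈ X i, ∃ y ∈ Y, x - y ∈ W i ∧ ∀ j ∈ s, j ≠ i → y ∈ W j) :
    (⨅ i ∈ s, W i).relIndex Y = ∏ i ∈ s, (W i).relIndex (X i) := by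
  induction s using Finset.induction_on with
  | empty =>
    rw [Finset.prod_empty]
    simp
  | insert i s hi ih =>
    have ih' := ih (fun j hj => hY j (Finset.mem_insert_of_mem hj)) (fun j hj x hx => by
      obtain ⟨y, h1, h2, h3⟩ := hl j (Finset.mem_insert_of_mem hj) x hx
      exact ⟨y, h1, h2, fun l hl' => h3 l (Finset.mem_insert_of_mem hl')⟩)
    rw [Finset.prod_insert hi, ← ih', Finset.iInf_insert,
      ← AddSubgroup.relIndex_inf_mul_relIndex]
    congr 1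
    have e : (⨅ j ∈ s, W j) ⊓ Y ⊔ W i = X i ⊔ W i := by
      refine le_antisymm (sup_le_sup_right (inf_le_right.trans (hY i (Finset.mem_insert_self i s)))
        _) (sup_le (fun x hx => ?_) le_sup_right)
      obtain ⟨y, h1, h2, h3⟩ := hl i (Finset.mem_insert_self i s) x hx
      have h4 : y ∈ (⨅ j ∈ s, W j) ⊓ Y := by
        refine AddSubgroup.mem_inf.2 ⟨AddSubgroup.mem_iInf.2 fun j => AddSubgroup.mem_iInf.2
          fun hj => ?_, h1⟩
        exact h3 j (Finset.mem_insert_of_mem hj) fun h => hi (h ▸ hj)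
      have h5 : x = y + (x - y) := by abel
      rw [h5]
      exact add_mem (AddSubgroup.mem_sup_left h4) (AddSubgroup.mem_sup_right h2)
    rw [← AddSubgroup.relIndex_sup_right ((⨅ j ∈ s, W j) ⊓ Y) (W i), e,
      AddSubgroup.relIndex_sup_right]

end H76MB
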