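import Pool.Agent.H76.MB.Df
import Pool.Agent.H76.GM.Dc
import Pool.Agent.H54.PR.Wa

/-!
Row MB/Cd (project MP_78d38b_MQ, PI helper76), about 150 lines: weak approximation for classes of square norm.

`HH K L`: the classes `sc y`, `y : L`, `y ≠ 0`, norm of `y` to `K` a square (`H30ZO.mem_HH`).
`lift_fin`. `c = sc y` (`sc_surj`). Choose `z : L`, `z ≠ 0`, with `z * y` (equivalently `z / y`) a square in the completion at every place `w` of `L` above `v`, `z` a square in the completions at the places above the `u ∈ Sg`, `u ≠ v`, and positive at all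
real places of `L` (weak approximation over `L`: `approx_pos` used in Pool/Agent/H76/GM/Dl.lean `exists_al`, applied to `L` with the finite set of the places of `L` above `insert v Sg`: `H76PP.fin_above`). Put `x := z * algebraMap K L (norm z)`, `c' := sc x`.
`norm x = (norm z) ^ 4` (degree three: `norm (algebraMap n) = n ^ 3`) is a square. At the places above `v`: `x * y = (z * y) * norm z`, and `norm z = norm (z y) * norm y / (norm y) ^ 2` is a square in `K_v`, as `norm (z * y)` is one (`z * y` is a square in all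
completions above `v`, so in `L ⊗ K_v`; the norm of a class in `Sqv` is a square in `K_v`: `H30ZO.norm_Sqv`, Pool/Agent/H30/ZO, used in `idx_HH` in Aj.lean), and `norm y` is a square. So `c + c' = sc (y * x)` lies in `Sqv K L v ⊓ HH K L`, and every class there satisfies the
local condition of every twist (search: `Sqv`, `sq_alg` (Pool/Agent/H30/ZO: coordinates of a local square), `Sqv_le`/`Wc` of a square: the point at infinity, or `loc_idx_tw`, `H30OD`, `card_twR` use `Sqv k L v ⊓ HH k L ≤ W`). Same at `u ≠ v`: `x` is a square at all places above `u`.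
At a real place: `x` is positive at all real places of `L`, so `Lr` holds (as in `H30OR.Lr_pos`, `H30ZO.sq_real`, or `rx`-lemmas: a totally positive class at `s` is a square in `L ⊗ ℝ`).
`lift_real`. The same with: `z` a square at all places above `Sg`, the sign of `z` at the real places of `L` above `s` is the sign of `y`, positive at the other real places. `norm z` is positive at `s` (it has the sign of `norm y`, a square) and at the other real places.
Private lemmas are welcome; the facts `Sqv ⊓ HH` implies `Lv`, and the real analogue, are needed for `E = ` any nonzero twist (`Tf_twist`, `Wc` for `algebraMap K L E * θ`).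
-/

set_option autoImplicit false
set_option linter.unusedSectionVars false
open scoped Classical

open WithZero NumberField IsDedekindDomain H38RT
open H38T1 (SC sc scu rep rep_ne sc_rep sc_mul sc_eq_zero sc_surj eo la si Pri OddP tp unif ka)
open H76PP H36MX H76MQ H30ZO H76OD H88OD H26OD H30OD H36CY H30OR H76GM

namespace H76MB

variable {K L : Type} [Field K] [NumberField K] [Field L] [NumberField L] [Algebra K L]
  {a b : K} {θ : L}

private theorem Cd_cub (S : Ext K K L a b θ) : Cub K L a b θ := S.cub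

private theorem Cd_up (v : HeightOneSpectrum (𝓞 K)) {x : K} (hx : x ≠ 0) (he : sc x ∈ Sq v) :
    sc (algebraMap K L x) ∈ Sqv K L v := by
  have hx' : algebraMap K L x ≠ 0 := (map_ne_zero (algebraMap K L)).2 hx
  rw [mem_Sqv]
  rintro w rfl
  rw [mem_Sq hx']
  rw [mem_Sq hx] at he
  obtain ⟨y, hy⟩ := he
  refine ⟨(H36CY.over_dn (K := K) w).map y, ?_⟩
  rw [← Pool.Agent.H10.Over.map_algebraMap (H36CY.over_dn (K := K) w) x, hy, map_mul]

private theorem Cd_n0 {z : L} (hz : z ≠ 0) : Algebra.norm K z ≠ 0 := by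
  have _ : FiniteDimensional K L := Module.Finite.of_restrictScalars_finite ℚ K L
  exact Algebra.norm_ne_zero_iff.2 hz

private theorem Cd_x0 {z : L} (hz : z ≠ 0) : z * algebraMap K L (Algebra.norm K z) ≠ 0 :=
  mul_ne_zero hz ((map_ne_zero _).2 (Cd_n0 hz))

/-- The class has square norm. -/
private theorem Cd_HH (h : Cub K L a b θ) {z : L} (hz : z ≠ 0) :
    sc (z * algebraMap K L (Algebra.norm K z)) ∈ HH K L := by
  rw [mem_HH (Cd_x0 hz), map_mul, Algebra.norm_algebraMap, h.finrank]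
  exact ⟨Algebra.norm K z ^ 2, by ring⟩

/-- The finite places. -/
private theorem Cd_fin (S : Ext K K L a b θ) {y z : L} (hy : y ≠ 0) (hz : z ≠ 0)
    (hN : sc y ∈ HH K L) (v : HeightOneSpectrum (𝓞 K))
    (hv : ∀ w : HeightOneSpectrum (𝓞 L), dn K w = v →
      ∃ r : w.adicCompletion L, algebraMap L (w.adicCompletion L) z =
        algebraMap L (w.adicCompletion L) y * r ^ 2) :
    sc y + sc (z * algebraMap K L (Algebra.norm K z)) ∈ Sqv K L v := by
  have h1 : sc (y * z) ∈ Sqv K L v := by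
    rw [mem_Sqv]
    intro w hw
    obtain ⟨r, hr⟩ := hv w hw
    rw [mem_Sq (mul_ne_zero hy hz), map_mul, hr]
    exact ⟨algebraMap L (w.adicCompletion L) y * r, by ring⟩
  have h2 := norm_Sqv (Cd_cub S) v (S.ha v) (S.hb v) h1
  rw [scm_sc _ (mul_ne_zero hy hz)] at h2
  have h3 : sc (Algebra.norm K (y * z)) = sc (Algebra.norm K z) := by
    rw [map_mul, sc_mul (Cd_n0 hy) (Cd_n0 hz), (sc_eq_zero (Cd_n0 hy)).2 ((mem_HH hy).1 hN),
      zero_add]
  have h4 : sc (Algebra.norm K z) ∈ Sq v := by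
    rw [← h3]
    exact h2
  have h5 := Cd_up (L := L) v (Cd_n0 hz) h4
  have h6 : sc y + sc (z * algebraMap K L (Algebra.norm K z)) =
      sc (y * z) + sc (algebraMap K L (Algebra.norm K z)) := by
    rw [sc_mul hz ((map_ne_zero _).2 (Cd_n0 hz)), sc_mul hy hz, add_assoc]
  rw [h6]
  exact add_mem h1 h5

private theorem Cd_one : sc (1 : L) = 0 :=
  (sc_eq_zero one_ne_zero).2 ⟨1, (mul_one 1).symm⟩

private theorem Cd_fin1 (S : Ext K K L a b θ) {z : L} (hz : z ≠ 0) (v : HeightOneSpectrum (𝓞 K))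
    (hv : ∀ w : HeightOneSpectrum (𝓞 L), dn K w = v →
      ∃ r : w.adicCompletion L, algebraMap L (w.adicCompletion L) z = r ^ 2) :
    sc (z * algebraMap K L (Algebra.norm K z)) ∈ Sqv K L v := by
  have h1 := Cd_fin S (y := 1) one_ne_zero hz (by rw [Cd_one]; exact zero_mem _) v (fun w hw => by
    obtain ⟨r, hr⟩ := hv w hw
    exact ⟨r, by rw [hr, map_one, one_mul]⟩)
  rwa [Cd_one, zero_add] at h1

/-- The norm of an element which is positive above the real place `s` is positive. -/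
private theorem Cd_pos (S : Ext K K L a b θ) (s : K →+* ℝ) {x : L} (hx : x ≠ 0)
    (hp : ∀ t : L →+* ℝ, t.comp (algebraMap K L) = s → 0 < t x) : 0 < s (Algebra.norm K x) := by
  have h := Cd_cub S
  have hD' : 4 * (s a) ^ 3 + 27 * (s b) ^ 2 ≠ 0 := by
    have e : 4 * (s a) ^ 3 + 27 * (s b) ^ 2 = s (4 * a ^ 3 + 27 * b ^ 2) := by
      rw [map_add, map_mul, map_mul, map_pow, map_pow, map_ofNat, map_ofNat]
    rw [e]
    exact (map_ne_zero s).2 S.dne
  have hev : ev θ (fun j => h.co j x) = x := (h.eq_co x).symm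
  obtain ⟨d, hd⟩ : ∃ d : Fin 3 → K, d = fun j => h.co j x := ⟨_, rfl⟩
  rw [← hd] at hev
  obtain ⟨z, hz⟩ := sq_real hD' (d := fun j => s (d j)) (by
    intro r hr
    obtain ⟨t, ht, hr'⟩ := emb_real h s hr
    have h4 : t x = s (d 0) + s (d 1) * r + s (d 2) * r ^ 2 := by
      rw [← hev]
      unfold ev
      rw [← ht, ← hr']
      simp only [map_add, map_mul, map_pow, RingHom.comp_apply]
    have h5 := hp t ht
    rw [h4] at h5
    exact h5)
  have hn := Cd_n0 (K := K) hx
  have h1 : s (Algebra.norm K x) = Te_nf (s a) (s b) z * Te_nf (s a) (s b) z := by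
    rw [← Te_nf_mul, hz, ← hev, Te_norm h d]
    exact (Te_nf_map s a b d).symm
  have h2 : s (Algebra.norm K x) ≠ 0 := (map_ne_zero s).2 hn
  rw [h1] at h2 ⊢
  exact lt_of_le_of_ne (mul_self_nonneg _) h2.symm

private theorem Cd_si {x : L} (hx : x ≠ 0) (t : L →+* ℝ) (h : 0 < t x) : si t (sc x) = 0 := by
  rw [H38T1.si_sc t hx, H38RT.sw, if_neg (not_lt.2 h.le)]

/-- The real places. -/
private theorem Cd_real (S : Ext K K L a b θ) {y z : L} (hy : y ≠ 0) (hz : z ≠ 0)
    (hN : sc y ∈ HH K L) (s : K →+* ℝ)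
    (hs : ∀ t : L →+* ℝ, t.comp (algebraMap K L) = s → 0 < t y * t z) {E : K} (hE : E ≠ 0) :
    S.Lr E s (sc y + sc (z * algebraMap K L (Algebra.norm K z))) := by
  have hp : 0 < s (Algebra.norm K (y * z)) := Cd_pos S s (mul_ne_zero hy hz) fun t ht => by
    rw [map_mul]
    exact hs t ht
  have hn : 0 < s (Algebra.norm K z) := by
    obtain ⟨r, hr⟩ := (mem_HH hy).1 hN
    rw [map_mul, map_mul, hr, map_mul] at hp
    by_contra hc
    push Not at hc
    exact absurd hp (not_lt.2 (mul_nonpos_of_nonneg_of_nonpos (mul_self_nonneg _) hc))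
  rw [← sc_mul hy (Cd_x0 hz)]
  refine Wc_pos_tw (Cd_cub S) s S.dne hE fun t ht => Cd_si (mul_ne_zero hy (Cd_x0 hz)) t ?_
  rw [map_mul, map_mul, ← mul_assoc]
  refine mul_pos (hs t ht) ?_
  rw [← ht] at hn
  exact hn

private theorem Cd_real1 (S : Ext K K L a b θ) {z : L} (hz : z ≠ 0) (s : K →+* ℝ)
    (hs : ∀ t : L →+* ℝ, t.comp (algebraMap K L) = s → 0 < t z) {E : K} (hE : E ≠ 0) :
    S.Lr E s (sc (z * algebraMap K L (Algebra.norm K z))) := by
  have h1 := Cd_real S (y := 1) one_ne_zero hz (by rw [Cd_one]; exact zero_mem _) s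
    (fun t ht => by rw [map_one, one_mul]; exact hs t ht) hE
  rwa [Cd_one, zero_add] at h1

/-- Weak approximation with signs. -/
private theorem Cd_app (T : Finset (HeightOneSpectrum (𝓞 L))) (ρ : (L →+* ℝ) → ℝ)
    (hρ : ∀ t, ρ t ≠ 0) :
    ∃ z : L, z ≠ 0 ∧ (∀ w ∈ T, ∃ r : w.adicCompletion L,
      algebraMap L (w.adicCompletion L) z = r ^ 2) ∧ ∀ t : L →+* ℝ, 0 < ρ t * t z := by
  have hfin : Finite (L →+* ℝ) := by
    refine Finite.of_injective (fun s : L →+* ℝ => (Complex.ofRealHom).comp s) fun s s' hs => ?_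
    ext x
    have h1 := congrArg (fun f : L →+* ℂ => f x) hs
    exact Complex.ofReal_injective h1
  -- an element with the signs
  obtain ⟨δ, hδ, hδ'⟩ : ∃ δ : ℝ, 0 < δ ∧ ∀ t : L →+* ℝ, δ ≤ |ρ t| := by
    rcases isEmpty_or_nonempty (L →+* ℝ) with he | hne
    · exact ⟨1, one_pos, fun t => (he.false t).elim⟩
    · obtain ⟨t0, ht0⟩ := Finite.exists_min fun t : L →+* ℝ => |ρ t|
      exact ⟨|ρ t0|, abs_pos.2 (hρ t0), ht0⟩
  obtain ⟨z0, hz0⟩ := H54PR.real_dense L ρ hδ
  have hs0 : ∀ t : L →+* ℝ, 0 < ρ t * t z0 := by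
    intro t
    have h1 := lt_of_lt_of_le (hz0 t) (hδ' t)
    rcases lt_or_gt_of_ne (hρ t) with h2 | h2
    · rw [abs_of_neg h2, abs_lt] at h1
      exact mul_pos_of_neg_of_neg h2 (by linarith [h1.2])
    · rw [abs_of_pos h2, abs_lt] at h1
      exact mul_pos h2 (by linarith [h1.1])
  -- make it close to one
  obtain ⟨ε, hε0, hε⟩ : ∃ ε : WithZero (Multiplicative ℤ), ε ≠ 0 ∧
      ∀ w ∈ T, ∀ m : ℕ, w.valuation L (m : L) < ε → w.valuation L ((m : L) * z0) <
        w.valuation L (4 * 1) := by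
    rcases T.eq_empty_or_nonempty with rfl | hne
    · exact ⟨1, one_ne_zero, fun w hw => absurd hw (Finset.notMem_empty _)⟩
    by_cases hz : z0 = 0
    · refine ⟨1, one_ne_zero, fun w hw m _ => ?_⟩
      rw [hz, mul_zero, map_zero]
      exact zero_lt_iff.2 ((Valuation.ne_zero_iff _).2 (by norm_num))
    obtain ⟨ε, hε⟩ : ∃ ε, ε = T.inf' hne fun w => w.valuation L (4 / z0) := ⟨_, rfl⟩
    refine ⟨ε, ?_, fun w hw m hm => ?_⟩
    · obtain ⟨u, hu, h1⟩ := Finset.exists_mem_eq_inf' hne fun w => w.valuation L (4 / z0)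
      rw [hε, h1]
      exact (Valuation.ne_zero_iff _).2 (div_ne_zero (by norm_num) hz)
    · have h1 : ε ≤ w.valuation L (4 / z0) := by
        rw [hε]
        exact Finset.inf'_le _ hw
      have h2 := lt_of_lt_of_le hm h1
      have h3 : w.valuation L z0 ≠ 0 := (Valuation.ne_zero_iff _).2 hz
      have h4 : (4 : L) * 1 = 4 / z0 * z0 := by
        rw [mul_one, div_mul_cancel₀ _ hz]
      rw [h4, map_mul, map_mul]
      exact mul_lt_mul_of_pos_right h2 (zero_lt_iff.2 h3)
  obtain ⟨m, hm, hmv⟩ := exists_int T hε0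
  obtain ⟨B, hB⟩ : ∃ B : ℝ, ∀ t : L →+* ℝ, |ρ t| / (ρ t * t z0) ≤ B := by
    obtain ⟨B, hB⟩ := (Set.finite_range fun t : L →+* ℝ => |ρ t| / (ρ t * t z0)).bddAbove
    exact ⟨B, fun s => hB ⟨s, rfl⟩⟩
  obtain ⟨k, hk⟩ := exists_nat_gt (max B 0)
  have hk0 : (0 : ℝ) < k := lt_of_le_of_lt (le_max_right _ _) hk
  have hkB : B < k := lt_of_le_of_lt (le_max_left _ _) hk
  obtain ⟨z, hz⟩ : ∃ z : L, z = 1 + (k : L) * ((m : L) * z0) := ⟨_, rfl⟩
  have hclose : ∀ w ∈ T, w.valuation L (z - 1) < w.valuation L (4 * 1) := by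
    intro w hw
    have e : z - 1 = (k : L) * ((m : L) * z0) := by
      rw [hz]
      ring
    rw [e, map_mul]
    refine lt_of_le_of_lt (mul_le_of_le_one_left' ?_) (hε w hw m (hmv w hw))
    have h1 := w.valuation_le_one (K := L) ((k : ℕ) : 𝓞 L)
    have h3 : (((k : ℕ) : 𝓞 L) : L) = (k : L) := by push_cast; rfl
    exact (congrArg (w.valuation L) h3.symm).trans_le h1
  have hsgn : ∀ t : L →+* ℝ, 0 < ρ t * t z := by
    intro t
    rw [hz, map_add, map_mul, map_mul, map_one, map_natCast, map_natCast]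
    have h1 : |ρ t| / (ρ t * t z0) < k := lt_of_le_of_lt (hB t) hkB
    rw [div_lt_iff₀ (hs0 t)] at h1
    have h2 : (1 : ℝ) ≤ m := by exact_mod_cast hm
    have h3 : (k : ℝ) * (ρ t * t z0) ≤ (k * m) * (ρ t * t z0) :=
      mul_le_mul_of_nonneg_right (le_mul_of_one_le_right hk0.le h2) (hs0 t).le
    have h4 := neg_abs_le (ρ t)
    nlinarith
  -- the product
  by_cases hzz : z = 0
  · -- then there is no real place
    refine ⟨1, one_ne_zero, fun w _ => ⟨1, by rw [map_one, one_pow]⟩, fun t => ?_⟩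
    have h1 := hsgn t
    rw [hzz, map_zero, mul_zero] at h1
    exact absurd h1 (lt_irrefl _)
  refine ⟨z, hzz, fun w hw => ?_, hsgn⟩
  obtain ⟨r, -, hr⟩ := H36CY.sq_near' w (hclose w hw)
  exact ⟨r, by rw [hr, map_one, one_mul]⟩

private theorem Cd_T (Sg : Finset (HeightOneSpectrum (𝓞 K))) :
    ∃ T : Finset (HeightOneSpectrum (𝓞 L)), ∀ w, w ∈ T ↔ dn K w ∈ Sg := by
  have h1 : {w : HeightOneSpectrum (𝓞 L) | dn K w ∈ Sg}.Finite := by
    have h2 : {w : HeightOneSpectrum (𝓞 L) | dn K w ∈ Sg} ⊆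
        ⋃ v ∈ (Sg : Set (HeightOneSpectrum (𝓞 K))), {w : HeightOneSpectrum (𝓞 L) | dn K w = v} := by
      intro w hw
      simp only [Set.mem_iUnion]
      exact ⟨dn K w, hw, rfl⟩
    exact Set.Finite.subset (Set.Finite.biUnion Sg.finite_toSet fun v _ => H76PP.fin_above v) h2
  exact ⟨h1.toFinset, fun w => h1.mem_toFinset⟩

theorem lift_fin (S : Ext K K L a b θ) {c : SC L} (hc : c ∈ HH K L) (v : HeightOneSpectrum (𝓞 K))
    (Sg : Finset (HeightOneSpectrum (𝓞 K))) :
    ∃ c' : SC L, c' ∈ HH K L ∧ (∀ E : K, E ≠ 0 → S.Lv E v (c + c')) ∧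
      (∀ u ∈ Sg, u ≠ v → ∀ E : K, E ≠ 0 → S.Lv E u c') ∧
      ∀ (s : K →+* ℝ) (E : K), E ≠ 0 → S.Lr E s c' := by
  obtain ⟨y, hy, rfl⟩ := sc_surj c
  obtain ⟨T, hT⟩ := Cd_T (L := L) (insert v Sg)
  obtain ⟨z, hz, hzT, hpos⟩ := approx_pos T (fun w => if dn K w = v then y else 1) (fun w _ => by
    split_ifs
    · exact hy
    · exact one_ne_zero)
  refine ⟨sc (z * algebraMap K L (Algebra.norm K z)), Cd_HH (Cd_cub S) hz, fun E hE => ?_,
    fun u hu huv E hE => ?_, fun s E hE => ?_⟩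
  · refine Wc_sq (Cd_cub S) v (S.ha v) (S.hb v) S.dne hE (Cd_fin S hy hz hc v fun w hw => ?_)
    obtain ⟨-, r, -, hr⟩ := hzT w ((hT w).2 (by rw [hw]; exact Finset.mem_insert_self _ _))
    simp only [if_pos hw] at hr
    exact ⟨r, hr⟩
  · refine Wc_sq (Cd_cub S) u (S.ha u) (S.hb u) S.dne hE (Cd_fin1 S hz u fun w hw => ?_)
    obtain ⟨-, r, -, hr⟩ := hzT w ((hT w).2 (by rw [hw]; exact Finset.mem_insert_of_mem hu))
    have hwv : dn K w ≠ v := by
      rw [hw]
      exact huv
    simp only [if_neg hwv, map_one, one_mul] at hr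
    exact ⟨r, hr⟩
  · exact Cd_real1 S hz s (fun t _ => hpos t) hE

theorem lift_real (S : Ext K K L a b θ) {c : SC L} (hc : c ∈ HH K L) (s : K →+* ℝ)
    (Sg : Finset (HeightOneSpectrum (𝓞 K))) :
    ∃ c' : SC L, c' ∈ HH K L ∧ (∀ E : K, E ≠ 0 → S.Lr E s (c + c')) ∧
      (∀ u ∈ Sg, ∀ E : K, E ≠ 0 → S.Lv E u c') ∧
      ∀ s' : K →+* ℝ, s' ≠ s → ∀ E : K, E ≠ 0 → S.Lr E s' c' := by
  obtain ⟨y, hy, rfl⟩ := sc_surj c
  obtain ⟨T, hT⟩ := Cd_T (L := L) Sg
  obtain ⟨z, hz, hzT, hpos⟩ := Cd_app T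
    (fun t => if t.comp (algebraMap K L) = s then t y else 1) (fun t => by
    split_ifs
    · exact (map_ne_zero t).2 hy
    · exact one_ne_zero)
  refine ⟨sc (z * algebraMap K L (Algebra.norm K z)), Cd_HH (Cd_cub S) hz, fun E hE => ?_,
    fun u hu E hE => ?_, fun s' hs' E hE => ?_⟩
  · refine Cd_real S hy hz hc s (fun t ht => ?_) hE
    have h1 := hpos t
    simp only [if_pos ht] at h1
    exact h1
  · refine Wc_sq (Cd_cub S) u (S.ha u) (S.hb u) S.dne hE (Cd_fin1 S hz u fun w hw => ?_)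
    exact hzT w ((hT w).2 (by rw [hw]; exact hu))
  · refine Cd_real1 S hz s' (fun t ht => ?_) hE
    have h1 := hpos t
    have h2 : ¬ t.comp (algebraMap K L) = s := by
      rw [ht]
      exact hs'
    simp only [if_neg h2, one_mul] at h1
    exact h1

end H76MB
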