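import Pool.Agent.H76.MB.Df
import Pool.Agent.H76.GM.Dc

/-!
Row MB/Ce (project MP_78d38b_MQ, PI helper76), about 130 lines: the local conditions of the twists as subgroups, their distance.

`mem_Wv`: `exists_WW` (Pool/Agent/H30/ZO/Ch.lean) gives a subgroup with exactly these elements (see its use in `H30OR.exists_YQ`, Pool/Agent/H30/OR/Tj.lean: `hWv`, `hWs`), so the set `{c | c ∈ HH ∧ S.Lv D v c}` is closed under addition and the closure
adds nothing. `Wv_sq`: `Wc_tw_iff` (used in `parity_sgn`, Pool/Agent/H30/OR/Tl.lean, `hbad`). `Wr_pos`: `Wc_tw_real` (same file).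
`rel_pow`: the relative index is finite (for a prime `v`: `H30OD.loc_idx_tw` (used in `H30OR.idx_W`, Pool/Agent/H30/OR/Td.lean) needs `v.valuation K a ≤ 1`: `S.ha`, `S.hb`; it gives `W.relIndex (HH K L) ≠ 0` for every prime `v`, also above two; for a real place see
`H88PL.card_twR`, Pool/Agent/H88/PL/Cr.lean, `hreI`); `(Wv S E v).relIndex (Wv S D v)` divides/is at most it (`AddSubgroup.relIndex_ne_zero_trans`, `relIndex_le_of_le_right`), and it is the order of a quotient of exponent two (`add_self_SC`): a power of two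
(see `H88OD.parity` or `H26`/`H38` for a lemma: finite elementary two-group has order `2 ^ k`).
-/

set_option autoImplicit false
set_option linter.unusedSectionVars false
open scoped Classical

open WithZero NumberField IsDedekindDomain H38RT
open H38T1 (SC sc scu rep rep_ne sc_rep sc_mul sc_eq_zero sc_surj eo la si Pri OddP tp unif ka)
open H76PP H36MX H76MQ H30ZO H76OD H88OD H26OD H30OD H36CY H30OR H76GM

namespace H76MB

variable {K L : Type} [Field K] [NumberField K] [Field L] [NumberField L] [Algebra K L]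
  {a b : K} {θ : L}

/-- The local condition at a prime as a subgroup. -/
noncomputable def Wv (S : Ext K K L a b θ) (D : K) (v : HeightOneSpectrum (𝓞 K)) :
    AddSubgroup (SC L) :=
  AddSubgroup.closure {c | c ∈ HH K L ∧ S.Lv D v c}

/-- The local condition at a real place as a subgroup. -/
noncomputable def Wr (S : Ext K K L a b θ) (D : K) (s : K →+* ℝ) : AddSubgroup (SC L) :=
  AddSubgroup.closure {c | c ∈ HH K L ∧ S.Lr D s c}

/-- The local condition at a place as a subgroup. -/
noncomputable def WW (S : Ext K K L a b θ) (D : K)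
    (p : HeightOneSpectrum (𝓞 K) ⊕ (K →+* ℝ)) : AddSubgroup (SC L) :=
  Sum.elim (Wv S D) (Wr S D) p

/-- `x` is a square at the place `p`. -/
def LSq (p : HeightOneSpectrum (𝓞 K) ⊕ (K →+* ℝ)) (x : K) : Prop :=
  Sum.elim (fun v => IsSquare (algebraMap K (v.adicCompletion K) x)) (fun s => 0 < s x) p

/-- The distance of the local conditions of two twists. -/
noncomputable def kap (S : Ext K K L a b θ) (D E : K)
    (p : HeightOneSpectrum (𝓞 K) ⊕ (K →+* ℝ)) : ℕ :=
  Nat.log 2 ((WW S E p).relIndex (WW S D p))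

variable (S : Ext K K L a b θ) {D E : K}

/-- A set closed under addition and containing a subgroup structure: the closure adds nothing. -/
theorem Ce_closure {M : Type} [AddCommGroup M] {p : M → Prop} (h : ∃ W : AddSubgroup M, ∀ c, c ∈ W ↔ p c)
    {c : M} : c ∈ AddSubgroup.closure {c | p c} ↔ p c := by
  obtain ⟨W, hW⟩ := h
  have e : {c | p c} = (W : Set M) := by
    ext x
    exact (hW x).symm
  rw [e, AddSubgroup.closure_eq]
  exact hW c

theorem mem_Wv (hD : D ≠ 0) {v : HeightOneSpectrum (𝓞 K)} {c : SC L} :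
    c ∈ Wv S D v ↔ c ∈ HH K L ∧ S.Lv D v c := by
  refine Ce_closure (p := fun c => c ∈ HH K L ∧ S.Lv D v c) ?_
  have hDE := H76OD.Lt_dne hD S.dne
  have hE2 := Tf_twist (show Cub K L a b θ from S.cub) hD
  have _ := H36CY.char_zero v
  refine exists_WW hE2 _ ?_ (H24PD.inf_fin v _ _)
  intro e
  apply hDE
  apply (algebraMap K (v.adicCompletion K)).injective
  rw [map_zero, map_add, map_mul, map_mul, map_pow, map_pow, map_ofNat, map_ofNat]
  exact e

theorem mem_Wr (hD : D ≠ 0) {s : K →+* ℝ} {c : SC L} :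
    c ∈ Wr S D s ↔ c ∈ HH K L ∧ S.Lr D s c := by
  refine Ce_closure (p := fun c => c ∈ HH K L ∧ S.Lr D s c) ?_
  have hDE := H76OD.Lt_dne hD S.dne
  have hE2 := Tf_twist (show Cub K L a b θ from S.cub) hD
  refine exists_WW hE2 s ?_ (H24PD.inf_real _ _)
  intro e
  apply hDE
  apply s.injective
  rw [map_zero, map_add, map_mul, map_mul, map_pow, map_pow, map_ofNat, map_ofNat]
  exact e

theorem WW_sq (hD : D ≠ 0) (hE : E ≠ 0) {p : HeightOneSpectrum (𝓞 K) ⊕ (K →+* ℝ)}
    (h : LSq p (E / D)) : WW S D p = WW S E p := by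
  rcases p with v | s
  · ext c
    change c ∈ Wv S D v ↔ c ∈ Wv S E v
    rw [mem_Wv S hD, mem_Wv S hE]
    exact and_congr_right fun _ => Wc_tw_iff _ hD hE h
  · ext c
    change c ∈ Wr S D s ↔ c ∈ Wr S E s
    rw [mem_Wr S hD, mem_Wr S hE]
    exact and_congr_right fun _ => Wc_tw_real _ hD hE h

/-- The relative index of subgroups of an elementary two-group. -/
theorem Ce_two_pow {M : Type} [AddCommGroup M] (h2 : ∀ x : M, x + x = 0) (U W : AddSubgroup M)
    (h : U.relIndex W ≠ 0) : ∃ k, U.relIndex W = 2 ^ k := by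
  have hG : ∀ x : W ⧸ U.addSubgroupOf W, 2 • x = 0 := by
    intro x
    obtain ⟨y, rfl⟩ := QuotientAddGroup.mk_surjective x
    have h3 : (2 : ℕ) • y = 0 := by
      rw [two_nsmul]
      exact Subtype.ext (h2 y)
    rw [← QuotientAddGroup.mk_nsmul, h3]
    rfl
  have _ : Module (ZMod 2) (W ⧸ U.addSubgroupOf W) := AddCommGroup.zmodModule hG
  have h4 : U.relIndex W = Nat.card (W ⧸ U.addSubgroupOf W) := rfl
  have _ : Finite (W ⧸ U.addSubgroupOf W) := Nat.finite_of_card_ne_zero (by rw [← h4]; exact h)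
  refine ⟨Module.finrank (ZMod 2) (W ⧸ U.addSubgroupOf W), ?_⟩
  rw [h4, Module.natCard_eq_pow_finrank (K := ZMod 2)]
  simp

theorem Ce_idx_HH (hE : E ≠ 0) (p : HeightOneSpectrum (𝓞 K) ⊕ (K →+* ℝ)) :
    (WW S E p).relIndex (HH K L) ≠ 0 := by
  rcases p with v | s
  · exact (H30OD.loc_idx_tw (show Cub K L a b θ from S.cub) v (S.ha v) (S.hb v) S.dne hE
      (W := Wv S E v) (fun c => mem_Wv S hE)).1
  · exact (real_idx (Tf_twist (show Cub K L a b θ from S.cub) hE) (H76OD.Lt_dne hE S.dne) s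
      (W := Wr S E s) (fun c => mem_Wr S hE)).1

theorem Ce_le (hD : D ≠ 0) (p : HeightOneSpectrum (𝓞 K) ⊕ (K →+* ℝ)) : WW S D p ≤ HH K L := by
  rcases p with v | s
  · exact fun c hc => ((mem_Wv S hD).1 hc).1
  · exact fun c hc => ((mem_Wr S hD).1 hc).1

theorem two_pow_kap (hD : D ≠ 0) (hE : E ≠ 0) (p : HeightOneSpectrum (𝓞 K) ⊕ (K →+* ℝ)) :
    (WW S E p).relIndex (WW S D p) = 2 ^ kap S D E p := by
  have h1 : (WW S E p).relIndex (WW S D p) ≠ 0 := fun h0 =>
    Ce_idx_HH S hE p (AddSubgroup.relIndex_eq_zero_of_le_right (Ce_le S hD p) h0)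
  obtain ⟨k, hk⟩ := Ce_two_pow add_self_SC _ _ h1
  unfold kap
  rw [hk, Nat.log_pow one_lt_two]

theorem kap_self (D : K) (p : HeightOneSpectrum (𝓞 K) ⊕ (K →+* ℝ)) : kap S D D p = 0 := by
  unfold kap
  rw [AddSubgroup.relIndex_self, Nat.log_one_right]

end H76MB
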