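import Pool.Agent.H76.MB.Cb
import Pool.Agent.H76.MB.Cd
import Pool.Agent.H76.MB.Ce
import Pool.Agent.H30.OR.Tl

/-!
Row MB/Cf (project MP_78d38b_MQ, PI helper76), about 170 lines: a system of primes for all the twists.

Adapt `H30OR.Tk_main` (Pool/Agent/H30/OR/Tk.lean), which does this for one pair of twists. Here `J := Σ v : {v // v ∈ T}, Fin (m v)`, no real places (`Q = ∅`).
`Y0` := the finite group of the `c ∈ HH K L` with `eo w c = 0` for all `w` with `dn K w ∉ Sg` (finite: `H24TD.fin_US`, see `hYf` in the proof of `H88PL.card_YQ`, Pool/Agent/H88/PL/Cr.lean). `T'` : for every `c ∈ Y0`, `c ≠ 0`, a special prime `P : Sp S Sg`,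
`P.q ∉ T1`-independent, `P.fl c ≠ 0` (`hsp` in Tk_main; `exists_sp S Sg T1 Y0 ..`; the primes over three are in `Sg` by `h3`). `T := (T1 \ Sg) ∪ T'`.
For `v ∈ T` take the data of `loc_all` for the twists `1` and `unif v` (`LocD h v 1 (unif v) (r v) (u v)`, `nb K L v = m v + 1`; `1` has even order, `Cl_unif_ne`, `Cl_unif_ord`).
(inj) If all `r`, `u` vanish at `c`: `r = 0` at `v ∈ T` means `Wc` for the twist `1` at `v`, i.e. `eo w c = 0` for `w` above `v` (`Wc_even`), so `c ∈ Y0`; then the last part of Tk_main (`Wc_spec`, `uu`).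
(r0) the same equivalence.
(main) For `D` of even order outside `Sg ∪ T` the cardinality is `H88PL.card_YQ` with `Q = ∅` (as in Tk_main, `hcard`). Isotropy: `rec_allQ` (Pool/Agent/H30/OR/Tj.lean) with `T := T`, `Q = ∅`, `q v := ∑ i, r v i c * u v i c` (`LocD.hq`), `ConAt` outside `T` from
`conAt_of_Wc` for the twist `D` (at `v ∈ Sg`: in `Y`; at `v ∉ Sg ∪ T`: `D` has even order, `c` is even: `Wc_even`), `ConR` from `conR_of_Wc`. See `rec_gen` for the same computation. Note that `D` may have odd order at primes of `T`: there no condition is imposed.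
-/

set_option autoImplicit false
set_option linter.unusedSectionVars false
open scoped Classical

open WithZero NumberField IsDedekindDomain H38RT
open H38T1 (SC sc scu rep rep_ne sc_rep sc_mul sc_eq_zero sc_surj eo la si Pri OddP tp unif ka)
open H76PP H36MX H76MQ H30ZO H76OD H88OD H26OD H30OD H36CY H30OR H76GM

namespace H76MB

/-- The relaxed group of the twist by `D`: no condition at `T`. -/
def IsY {K L : Type} [Field K] [NumberField K] [Field L] [NumberField L] [Algebra K L]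
    {a b : K} {θ : L} (S : Ext K K L a b θ) (D : K) (Sg T : Finset (HeightOneSpectrum (𝓞 K)))
    (Y : AddSubgroup (SC L)) : Prop :=
  ∀ c, c ∈ Y ↔ c ∈ HH K L ∧ (∀ v ∈ Sg, S.Lv D v c) ∧ (∀ s, S.Lr D s c) ∧
    ∀ w : HeightOneSpectrum (𝓞 L), dn K w ∉ Sg → dn K w ∉ T → eo w c = 0

theorem exists_sys {K L : Type} [Field K] [NumberField K] [Field L] [NumberField L] [Algebra K L]
    {a b : 𝓞 K} {θ : L} (S : Ext K K L (a : K) (b : K) θ) {Sg : Finset (HeightOneSpectrum (𝓞 K))}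
    (h2 : ∀ v : HeightOneSpectrum (𝓞 K), v ∉ Sg → v.valuation K 2 = 1)
    (h3 : ∀ v : HeightOneSpectrum (𝓞 K), v ∉ Sg → v.valuation K 3 = 1)
    (hd : ∀ v : HeightOneSpectrum (𝓞 K), v ∉ Sg →
      v.valuation K (4 * (a : K) ^ 3 + 27 * (b : K) ^ 2) = 1)
    (T1 : Finset (HeightOneSpectrum (𝓞 K))) :
    ∃ (T : Finset (HeightOneSpectrum (𝓞 K))) (J : Type) (_ : Fintype J)
      (r u : J → (SC L →+ ZMod 2)), T1 ⊆ Sg ∪ T ∧ Disjoint Sg T ∧
      (∀ c ∈ HH K L, (∀ w : HeightOneSpectrum (𝓞 L), dn K w ∉ Sg → dn K w ∉ T → eo w c = 0) →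
        (∀ j, r j c = 0) → (∀ j, u j c = 0) → c = 0) ∧
      (∀ c ∈ HH K L, (∀ j, r j c = 0) ↔
        ∀ w : HeightOneSpectrum (𝓞 L), dn K w ∈ T → eo w c = 0) ∧
      ∀ D : K, D ≠ 0 → (∀ v : HeightOneSpectrum (𝓞 K), v ∉ Sg → v ∉ T →
        Even (ord (v.valuation K) D)) → ∀ Y : AddSubgroup (SC L), IsY S D Sg T Y →
        2 ^ Fintype.card J ≤ Nat.card Y ∧ ∀ c ∈ Y, ∑ j, r j c * u j c = 0 := by
  have h : Cub K L (a : K) (b : K) θ := S.cub
  have hLv : ∀ (E : K) (v : HeightOneSpectrum (𝓞 K)) (c : SC L), S.Lv E v c ↔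
      Wc (algebraMap K (v.adicCompletion K)) (E ^ 2 * (a : K)) (E ^ 3 * (b : K))
        (algebraMap K L E * θ) c := fun _ _ _ => Iff.rfl
  have hA : ∀ v : HeightOneSpectrum (𝓞 K), v.valuation K (a : K) ≤ 1 := S.ha
  have hB : ∀ v : HeightOneSpectrum (𝓞 K), v.valuation K (b : K) ≤ 1 := S.hb
  have hodd : ∀ v : HeightOneSpectrum (𝓞 K), v ∉ Sg → OddP v := h2
  have hord1 : ∀ v : HeightOneSpectrum (𝓞 K), Even (ord (v.valuation K) (1 : K)) := by
    intro v
    have h4 : ord (v.valuation K) (1 : K) = 0 := by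
      unfold ord
      rw [map_one, log_one, neg_zero]
    rw [h4]
    exact Even.zero
  -- a finite group
  obtain ⟨Y0, hY0f, hY0⟩ : ∃ Y0 : AddSubgroup (SC L), Finite Y0 ∧ ∀ c, c ∈ Y0 ↔ c ∈ HH K L ∧
      ∀ w : HeightOneSpectrum (𝓞 L), dn K w ∉ Sg → eo w c = 0 := by
    obtain ⟨W, hW⟩ : ∃ W : AddSubgroup (SC L), W = HH K L ⊓
      Gb_ev (fun w => dn K w ∉ Sg) := ⟨_, rfl⟩
    have hm : ∀ c, c ∈ W ↔ c ∈ HH K L ∧
        ∀ w : HeightOneSpectrum (𝓞 L), dn K w ∉ Sg → eo w c = 0 := by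
      intro c
      rw [hW, AddSubgroup.mem_inf, Gb_mem_ev]
    refine ⟨W, ?_, hm⟩
    have h1 : {v : HeightOneSpectrum (𝓞 K) | v ∈ (Sg : Set _)}.Finite := Finset.finite_toSet _
    have h4 := Gb_fin (M' := L) h1
    have h5 := (H24TD.fin_US h4).subset (fun c (hc : c ∈ (W : Set (SC L))) w hw => by
      have h6 := ((hm c).1 hc).2 w
      exact h6 (fun h7 => hw (Finset.mem_coe.2 h7)))
    exact h5.to_subtype
  have hgood : ∀ (v : HeightOneSpectrum (𝓞 K)), v ∉ Sg → ∀ F : K, F ≠ 0 →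
      Even (ord (v.valuation K) F) → ∀ c ∈ HH K L,
      (S.Lv F v c ↔ ∀ w : HeightOneSpectrum (𝓞 L), dn K w = v → eo w c = 0) := by
    intro v hv F hF hFe c hc
    rw [hLv]
    exact Wc_even h (hA v) (hB v) (hodd v hv) (hd v hv) hF hFe hc
  have hsp : ∀ c : Y0, c ≠ 0 → ∃ P : Sp S Sg, P.q ∉ (∅ : Finset (HeightOneSpectrum (𝓞 K))) ∧
      P.fl (c : SC L) ≠ 0 := by
    intro c hc
    have hc' : (c : SC L) ≠ 0 := fun h4 => hc (Subtype.ext h4)
    obtain ⟨φ, hφ⟩ := Ib_sep (M := SC L) add_self_SC hc'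
    obtain ⟨P, hP1, hP2⟩ := H88OD.exists_sp S Sg ∅ Y0 hY0f (fun c hc => ((hY0 c).1 hc).1)
      (fun g c hc => by
        rw [Subsingleton.elim g 1, map_one, one_smul]
        exact hc) φ
    refine ⟨P, hP1, fun h4 => ?_⟩
    have h5 := (hP2 c c.2).2
    rw [h4] at h5
    have h6 : (S.el φ (c : SC L)).coeff 1 = φ c := by
      unfold Ext.el
      rw [coeff_mk, inv_one, map_one, one_smul]
    rw [← h5, hφ] at h6
    exact zero_ne_one h6
  obtain ⟨T', hT'⟩ : ∃ T' : Finset (HeightOneSpectrum (𝓞 K)), ∀ v, v ∈ T' ↔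
      ∃ (c : Y0) (hc : c ≠ 0), v = (hsp c hc).choose.q := by
    have _ : Fintype Y0 := Fintype.ofFinite _
    refine ⟨Finset.univ.biUnion (fun c : Y0 => if hc : c ≠ 0 then {(hsp c hc).choose.q} else ∅),
      fun v => ?_⟩
    rw [Finset.mem_biUnion]
    constructor
    · rintro ⟨c, -, hv⟩
      by_cases hc : c ≠ 0
      · rw [dif_pos hc, Finset.mem_singleton] at hv
        exact ⟨c, hc, hv⟩
      · rw [dif_neg hc] at hv
        exact absurd hv (Finset.notMem_empty _)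
    · rintro ⟨c, hc, hv⟩
      refine ⟨c, Finset.mem_univ _, ?_⟩
      rw [dif_pos hc, Finset.mem_singleton]
      exact hv
  obtain ⟨T, hT⟩ : ∃ T, T = (T1 \ Sg) ∪ T' := ⟨_, rfl⟩
  have hTSg : ∀ v ∈ T, v ∉ Sg := by
    intro v hv
    rw [hT, Finset.mem_union] at hv
    rcases hv with hv | hv
    · exact (Finset.mem_sdiff.1 hv).2
    · obtain ⟨c, hc, rfl⟩ := (hT' v).1 hv
      exact (hsp c hc).choose.out
  have hex : ∀ v : {v // v ∈ T}, ∃ (m : ℕ) (r u : Fin m → (SC L →+ ZMod 2)),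
      nb K L v.1 = m + 1 ∧ LocD h v.1 (1 : K) (unif v.1) r u := by
    intro v
    have hv := hTSg v.1 v.2
    obtain ⟨m, r, u, k1, k2, -⟩ := loc_all h (hodd _ hv) (h3 _ hv) (hd _ hv) one_ne_zero
      (hord1 v.1) (Cl_unif_ne v.1) (by
        rw [Cl_unif_ord]
        exact odd_one)
    exact ⟨m, r, u, k1, k2⟩
  choose m r u hnb hloc using hex
  have hdisj : Disjoint Sg T := by
    rw [Finset.disjoint_left]
    exact fun v h4 h5 => hTSg v h5 h4
  have hr0 : ∀ c ∈ HH K L, (∀ j : Σ v : {v // v ∈ T}, Fin (m v), r j.1 j.2 c = 0) ↔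
        ∀ w : HeightOneSpectrum (𝓞 L), dn K w ∈ T → eo w c = 0 := by
    intro c hc
    constructor
    · intro h4 w hw
      have h5 := ((hloc ⟨dn K w, hw⟩).hr c hc).2 (fun i => h4 ⟨⟨dn K w, hw⟩, i⟩)
      rw [← hLv] at h5
      exact (hgood _ (hTSg _ hw) 1 one_ne_zero (hord1 _) c hc).1 h5 w rfl
    · rintro h4 ⟨v, i⟩
      refine ((hloc v).hr c hc).1 ?_ i
      rw [← hLv, hgood _ (hTSg _ v.2) 1 one_ne_zero (hord1 _) c hc]
      intro w hw
      exact h4 w (by rw [hw]; exact v.2)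
  refine ⟨T, Σ v : {v // v ∈ T}, Fin (m v), inferInstance, fun j => r j.1 j.2, fun j => u j.1 j.2,
    ?_, hdisj, ?_, hr0, ?_⟩
  · intro v hv
    rw [Finset.mem_union, hT, Finset.mem_union, Finset.mem_sdiff]
    by_cases h4 : v ∈ Sg
    · exact Or.inl h4
    · exact Or.inr (Or.inl ⟨hv, h4⟩)
  · intro c hc hev hr hu
    by_contra hne
    have hcY : c ∈ Y0 := by
      rw [hY0]
      refine ⟨hc, fun w hw => ?_⟩
      by_cases h4 : dn K w ∈ T
      · exact (hr0 c hc).1 hr w h4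
      · exact hev w hw h4
    have hx0 : (⟨c, hcY⟩ : Y0) ≠ 0 := by
      intro h4
      exact hne (congrArg Subtype.val h4)
    obtain ⟨P, hP⟩ : ∃ P, P = (hsp _ hx0).choose := ⟨_, rfl⟩
    have hPs := (hsp _ hx0).choose_spec
    rw [← hP] at hPs
    have hPT : P.q ∈ T := by
      rw [hT]
      exact Finset.mem_union_right _ ((hT' _).2 ⟨_, hx0, by rw [hP]⟩)
    have hPv : P.q = P.v := dn_self P.v
    have hout : P.q ∉ Sg := P.out
    have hW : ∃ E' : K, E' ≠ 0 ∧ Odd (ord (P.v.valuation K) E') ∧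
        Wc (algebraMap K (P.v.adicCompletion K)) (E' ^ 2 * (a : K)) (E' ^ 3 * (b : K))
          (algebraMap K L E' * θ) c := by
      rw [← hPv]
      refine ⟨unif P.q, Cl_unif_ne _, ?_, ((hloc ⟨P.q, hPT⟩).hu _ hc).2
        (fun i => hu ⟨⟨P.q, hPT⟩, i⟩)⟩
      rw [Cl_unif_ord]
      exact odd_one
    obtain ⟨E'', hE''0, hE''o, hE''W⟩ := hW
    apply hPs.2
    refine rg_ext fun g => ?_
    have h5 : (P.fl c).coeff g = uu K (a : K) θ P.t1 P.t2 c := by
      unfold Sp.fl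
      rw [coeff_mk, Subsingleton.elim g⁻¹ 1, map_one, one_smul]
      rfl
    have h6 : uu K (a : K) θ P.t1 P.t2 c = 0 := by
      refine Wc_spec h hA hB (v := P.v) (E := E'') ?_ ?_ P.tw hE''0 hE''o hc hE''W
      · exact (P.odd h2).1
      · rw [← hPv]
        exact hd _ hout
    rw [h5, h6]
    rfl
  · intro D hD hDe Y hY
    have hcard : 2 ^ Fintype.card (Σ v : {v // v ∈ T}, Fin (m v)) ≤ Nat.card Y := by
      have h4 := (H88PL.card_YQ (S := S) hD (fun v hv => by
          by_contra h5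
          rw [h2 v h5] at hv
          exact lt_irrefl _ hv) hdisj (m := fun v => nb K L v - 1) (fun v _ => by
        have := nb_ge1 K L v
        omega) (Q := ∅) (fun s hs => absurd hs (Finset.notMem_empty _)) (Y := Y) (fun c => by
          rw [hY c]
          constructor
          · rintro ⟨k1, k2, k3, k4⟩
            exact ⟨k1, k2, fun s _ => k3 s, k4⟩
          · rintro ⟨k1, k2, k3, k4⟩
            exact ⟨k1, k2, fun s => k3 s (Finset.notMem_empty _), k4⟩)).2
      refine le_of_eq_of_le ?_ h4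
      congr 1
      rw [Fintype.card_sigma, Finset.card_empty, add_zero,
        ← Finset.sum_coe_sort T (fun v => nb K L v - 1)]
      refine Finset.sum_congr rfl fun v _ => ?_
      rw [Fintype.card_fin]
      have := hnb v
      omega
    refine ⟨hcard, fun c hcY => ?_⟩
    obtain ⟨k1, k2, k3, k4⟩ := (hY c).1 hcY
    have h4 := rec_allQ (T := T) (Q := ∅) (q := fun v => if hv : v ∈ T then
        ∑ i, r ⟨v, hv⟩ i c * u ⟨v, hv⟩ i c else 0)
        (qs := fun _ => 0) h (c := c) k1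
      (by
        intro v hv y hy hyc hal hbe
        rw [dif_pos hv]
        exact (hloc ⟨v, hv⟩).hq _ k1 y hy hyc hal hbe)
      (fun s hs => absurd hs (Finset.notMem_empty _))
      (fun v hvT => H30OD.conAt_of_Wc h hD v (by
        rw [← hLv]
        by_cases hv : v ∈ Sg
        · exact k2 v hv
        rw [hgood v hv D hD (hDe v hv hvT) _ k1]
        intro w hw
        exact k4 w (by rw [hw]; exact hv) (by rw [hw]; exact hvT)))
      (fun s _ => H30OD.conR_of_Wc h hD s (k3 s))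
    rw [Finset.sum_empty, add_zero, ← Finset.sum_coe_sort T] at h4
    rw [Fintype.sum_sigma, ← h4]
    refine Finset.sum_congr rfl fun v _ => ?_
    rw [dif_pos v.2]

end H76MB
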