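import Pool.Agent.H76.MB.Cf

/-!
Row MB/Cg (project MP_78d38b_MQ, PI helper76), about 130 lines: the index of the intersection of two relaxed groups.

`exists_IsY`: `H30OR.exists_YQ S hD Sg T ∅` (Pool/Agent/H30/OR/Tj.lean; `s ∉ ∅`).
`exists_T1`: for `p` in the finite set `plc Sg` the quotient of `WW S D p` by `WW S E p ⊓ WW S D p` is finite (`two_pow_kap`: the relative index is not zero); for each of its finitely many cosets choose a representative `x0` and `y` from `lift_fin` or `lift_real` (Cd.lean): `y ∈ HH`, `x0 + y` satisfies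
all the conditions at `p`, `y` satisfies all the conditions of all twists at the other places of `plc Sg` (and at all other real places). Each `y` has `eo w y ≠ 0` at finitely many `w` only (`H88OD.fin_supp`-type lemma). `T1` := all the primes below these `w`.
For `x ∈ WW S D p` with representative `x0` (`x - x0 ∈ WW S E p`): `y` works: `x - y = (x - x0) + (x0 + y)` (`add_self_SC`, characteristic two), so it is in `WW S E p`; `y ∈ WW S D p` as `y = x0 + (x0 + y)`. So `y ∈ Y` for every `Y` with `IsY S D Sg T Y`, `T1 ⊆ Sg ∪ T`.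
Then `idx_prod` (Cb.lean) with `s := plc Sg`, `X := WW S D`, `W := WW S E` and `two_pow_kap`. Finally `YE.relIndex Y = (⨅ p ∈ plc Sg, WW S E p).relIndex Y` because `YE ⊓ Y = (⨅ ..) ⊓ Y` (`relIndex` depends only on the intersection: `AddSubgroup.inf_relIndex_right`).
-/

set_option autoImplicit false
set_option linter.unusedSectionVars false
open scoped Classical

open WithZero NumberField IsDedekindDomain H38RT
open H38T1 (SC sc scu rep rep_ne sc_rep sc_mul sc_eq_zero sc_surj eo la si Pri OddP tp unif ka)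
open H76PP H36MX H76MQ H30ZO H76OD H88OD H26OD H30OD H36CY H30OR H76GM

namespace H76MB

/-- The places of `Sg` and the real places. -/
noncomputable def plc {K : Type} [Field K] [NumberField K]
    (Sg : Finset (HeightOneSpectrum (𝓞 K))) : Finset (HeightOneSpectrum (𝓞 K) ⊕ (K →+* ℝ)) :=
  Sg.disjSum Finset.univ

variable {K L : Type} [Field K] [NumberField K] [Field L] [NumberField L] [Algebra K L]
  {a b : K} {θ : L}

theorem exists_IsY (S : Ext K K L a b θ) {D : K} (hD : D ≠ 0)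
    (Sg T : Finset (HeightOneSpectrum (𝓞 K))) : ∃ Y : AddSubgroup (SC L), IsY S D Sg T Y := by
  obtain ⟨W, _, hW⟩ := exists_YQ S hD Sg T ∅
  refine ⟨W, fun c => ?_⟩
  rw [hW c]
  constructor
  · rintro ⟨h1, h2, h3, h4⟩
    exact ⟨h1, h2, fun s => h3 s (Finset.notMem_empty s), h4⟩
  · rintro ⟨h1, h2, h3, h4⟩
    exact ⟨h1, h2, fun s _ => h3 s, h4⟩

/-- A subgroup of finite relative index has a finite set of representatives. -/
private theorem Cg_reps {M : Type} [AddCommGroup M] (W X : AddSubgroup M)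
    (h : W.relIndex X ≠ 0) :
    ∃ R : Finset M, (∀ r ∈ R, r ∈ X) ∧ ∀ x ∈ X, ∃ r ∈ R, x - r ∈ W := by
  have hfi : (W.addSubgroupOf X).FiniteIndex := ⟨h⟩
  have hf : Finite (X ⧸ W.addSubgroupOf X) := inferInstance
  have hft : Fintype (X ⧸ W.addSubgroupOf X) := Fintype.ofFinite _
  refine ⟨Finset.univ.image fun q : X ⧸ W.addSubgroupOf X => ((Quotient.out q : X) : M),
    ?_, ?_⟩
  · intro r hr
    obtain ⟨q, _, hq⟩ := Finset.mem_image.1 hr
    rw [← hq]
    exact (Quotient.out q : X).2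
  · intro x hx
    refine ⟨_, Finset.mem_image.2 ⟨((⟨x, hx⟩ : X) : X ⧸ W.addSubgroupOf X), Finset.mem_univ _,
      rfl⟩, ?_⟩
    have h1 := QuotientAddGroup.out_eq' ((⟨x, hx⟩ : X) : X ⧸ W.addSubgroupOf X)
    have h2 := QuotientAddGroup.eq.1 h1
    rw [AddSubgroup.mem_addSubgroupOf] at h2
    have h3 : ((-(Quotient.out ((⟨x, hx⟩ : X) : X ⧸ W.addSubgroupOf X) : X) + ⟨x, hx⟩ : X) : M)
        = x - ((Quotient.out ((⟨x, hx⟩ : X) : X ⧸ W.addSubgroupOf X) : X) : M) := by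
      rw [AddSubgroup.coe_add, AddSubgroup.coe_neg, sub_eq_neg_add]
    rw [← h3]
    exact h2

/-- The element with prescribed local behaviour. -/
private theorem Cg_lift (S : Ext K K L a b θ) (Sg : Finset (HeightOneSpectrum (𝓞 K)))
    {D : K} (hD : D ≠ 0) (p : HeightOneSpectrum (𝓞 K) ⊕ (K →+* ℝ)) {c : SC L}
    (hc : c ∈ WW S D p) :
    ∃ y : SC L, y ∈ HH K L ∧ (∀ E : K, E ≠ 0 → c + y ∈ WW S E p) ∧
      ∀ q ∈ plc Sg, q ≠ p → ∀ E : K, E ≠ 0 → y ∈ WW S E q := by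
  have hmem : ∀ (E : K), E ≠ 0 → ∀ v : HeightOneSpectrum (𝓞 K), ∀ x : SC L, x ∈ HH K L →
      S.Lv E v x → x ∈ WW S E (Sum.inl v) := fun E hE v x h1 h2 => (mem_Wv S hE).2 ⟨h1, h2⟩
  have hmemr : ∀ (E : K), E ≠ 0 → ∀ s : K →+* ℝ, ∀ x : SC L, x ∈ HH K L →
      S.Lr E s x → x ∈ WW S E (Sum.inr s) := fun E hE s x h1 h2 => (mem_Wr S hE).2 ⟨h1, h2⟩
  rcases p with v | s
  · have hcH : c ∈ HH K L := ((mem_Wv S hD).1 hc).1
    obtain ⟨y, h1, h2, h3, h4⟩ := lift_fin S hcH v Sg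
    refine ⟨y, h1, fun E hE => hmem E hE v _ ((HH K L).add_mem hcH h1) (h2 E hE), ?_⟩
    rintro (u | s) hq hne E hE
    · have hu : u ∈ Sg := by
        unfold plc at hq
        exact Finset.inl_mem_disjSum.1 hq
      exact hmem E hE u _ h1 (h3 u hu (fun e => hne (by rw [e])) E hE)
    · exact hmemr E hE s _ h1 (h4 s E hE)
  · have hcH : c ∈ HH K L := ((mem_Wr S hD).1 hc).1
    obtain ⟨y, h1, h2, h3, h4⟩ := lift_real S hcH s Sg
    refine ⟨y, h1, fun E hE => hmemr E hE s _ ((HH K L).add_mem hcH h1) (h2 E hE), ?_⟩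
    rintro (u | s') hq hne E hE
    · have hu : u ∈ Sg := by
        unfold plc at hq
        exact Finset.inl_mem_disjSum.1 hq
      exact hmem E hE u _ h1 (h3 u hu E hE)
    · exact hmemr E hE s' _ h1 (h4 s' (fun e => hne (by rw [e])) E hE)

/-- A finite set of such elements. -/
private theorem Cg_set (S : Ext K K L a b θ) {D E : K} (hD : D ≠ 0) (hE : E ≠ 0)
    (Sg : Finset (HeightOneSpectrum (𝓞 K))) (p : HeightOneSpectrum (𝓞 K) ⊕ (K →+* ℝ)) :
    ∃ R : Finset (SC L), ∀ x ∈ WW S D p, ∃ y ∈ R, y ∈ HH K L ∧ x - y ∈ WW S E p ∧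
      y ∈ WW S D p ∧ ∀ q ∈ plc Sg, q ≠ p → ∀ E : K, E ≠ 0 → y ∈ WW S E q := by
  have hne : (WW S E p).relIndex (WW S D p) ≠ 0 := by
    rw [two_pow_kap S hD hE p]
    exact pow_ne_zero _ two_ne_zero
  obtain ⟨R, hR1, hR2⟩ := Cg_reps _ _ hne
  have hch : ∀ r : {r // r ∈ R}, ∃ y : SC L, y ∈ HH K L ∧
      (∀ E : K, E ≠ 0 → (r : SC L) + y ∈ WW S E p) ∧
      ∀ q ∈ plc Sg, q ≠ p → ∀ E : K, E ≠ 0 → y ∈ WW S E q := fun r =>
    Cg_lift S Sg hD p (hR1 r r.2)
  choose f hf1 hf2 hf3 using hch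
  refine ⟨Finset.univ.image f, fun x hx => ?_⟩
  obtain ⟨r, hr, hxr⟩ := hR2 x hx
  refine ⟨f ⟨r, hr⟩, Finset.mem_image.2 ⟨⟨r, hr⟩, Finset.mem_univ _, rfl⟩, hf1 _, ?_, ?_,
    hf3 _⟩
  · have h1 : x - f ⟨r, hr⟩ = (x - r) + (r + f ⟨r, hr⟩) - (f ⟨r, hr⟩ + f ⟨r, hr⟩) := by abel
    rw [h1, H30OR.add_self_SC, sub_zero]
    exact (WW S E p).add_mem hxr (hf2 ⟨r, hr⟩ E hE)
  · have h1 : f ⟨r, hr⟩ = (r + f ⟨r, hr⟩) - r := by abel
    rw [h1]
    exact (WW S D p).sub_mem (hf2 ⟨r, hr⟩ D hD) (hR1 r hr)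

theorem exists_T1 (S : Ext K K L a b θ) {D E : K} (hD : D ≠ 0) (hE : E ≠ 0)
    (Sg : Finset (HeightOneSpectrum (𝓞 K))) :
    ∃ T1 : Finset (HeightOneSpectrum (𝓞 K)), ∀ T : Finset (HeightOneSpectrum (𝓞 K)),
      T1 ⊆ Sg ∪ T → ∀ Y YE : AddSubgroup (SC L), IsY S D Sg T Y → IsY S E Sg T YE →
        YE.relIndex Y = 2 ^ ∑ p ∈ plc Sg, kap S D E p := by
  choose R hR using fun p => Cg_set S hD hE Sg p
  refine ⟨((plc Sg).biUnion R).biUnion fun y => (H88OD.fin_supp y).toFinset.image (dn K), ?_⟩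
  intro T hT Y YE hY hYE
  have hinr : ∀ s : K →+* ℝ, (Sum.inr s : HeightOneSpectrum (𝓞 K) ⊕ (K →+* ℝ)) ∈ plc Sg := by
    intro s
    unfold plc
    exact Finset.inr_mem_disjSum.2 (Finset.mem_univ s)
  have hinl : ∀ v : HeightOneSpectrum (𝓞 K), v ∈ Sg →
      (Sum.inl v : HeightOneSpectrum (𝓞 K) ⊕ (K →+* ℝ)) ∈ plc Sg := by
    intro v hv
    unfold plc
    exact Finset.inl_mem_disjSum.2 hv
  have hle : ∀ {F : K}, F ≠ 0 → ∀ Z : AddSubgroup (SC L), IsY S F Sg T Z →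
      ∀ p ∈ plc Sg, ∀ c ∈ Z, c ∈ WW S F p := by
    intro F hF Z hZ p hp c hc
    obtain ⟨h1, h2, h3, _⟩ := (hZ c).1 hc
    rcases p with v | s
    · have hv : v ∈ Sg := by
        unfold plc at hp
        exact Finset.inl_mem_disjSum.1 hp
      exact (mem_Wv S hF).2 ⟨h1, h2 v hv⟩
    · exact (mem_Wr S hF).2 ⟨h1, h3 s⟩
  have hprod : (⨅ p ∈ plc Sg, WW S E p).relIndex Y
      = ∏ p ∈ plc Sg, (WW S E p).relIndex (WW S D p) := by
    refine idx_prod (plc Sg) (WW S D) (WW S E) Y (fun p hp c hc => hle hD Y hY p hp c hc) ?_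
    intro p hp x hx
    obtain ⟨y, hyR, h1, h2, h3, h4⟩ := hR p x hx
    have hall : ∀ q ∈ plc Sg, y ∈ WW S D q := by
      intro q hq
      by_cases e : q = p
      · rw [e]
        exact h3
      · exact h4 q hq e D hD
    refine ⟨y, (hY y).2 ⟨h1, fun v hv => ((mem_Wv S hD).1 (hall _ (hinl v hv))).2,
      fun s => ((mem_Wr S hD).1 (hall _ (hinr s))).2, ?_⟩, h2, fun q hq hne => h4 q hq hne E hE⟩
    intro w hw1 hw2
    by_contra h
    have h5 : dn K w ∈ Sg ∪ T := by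
      apply hT
      refine Finset.mem_biUnion.2 ⟨y, Finset.mem_biUnion.2 ⟨p, hp, hyR⟩, ?_⟩
      refine Finset.mem_image.2 ⟨w, ?_, rfl⟩
      rw [Set.Finite.mem_toFinset]
      exact h
    rcases Finset.mem_union.1 h5 with h6 | h6
    · exact hw1 h6
    · exact hw2 h6
  have hinf : YE ⊓ Y = (⨅ p ∈ plc Sg, WW S E p) ⊓ Y := by
    ext c
    rw [AddSubgroup.mem_inf, AddSubgroup.mem_inf]
    constructor
    · rintro ⟨h1, h2⟩
      refine ⟨?_, h2⟩
      rw [AddSubgroup.mem_iInf]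
      intro p
      rw [AddSubgroup.mem_iInf]
      intro hp
      exact hle hE YE hYE p hp c h1
    · rintro ⟨h1, h2⟩
      refine ⟨?_, h2⟩
      have h3 : ∀ p ∈ plc Sg, c ∈ WW S E p := by
        intro p hp
        rw [AddSubgroup.mem_iInf] at h1
        have h4 := h1 p
        rw [AddSubgroup.mem_iInf] at h4
        exact h4 hp
      obtain ⟨g1, _, _, g4⟩ := (hY c).1 h2
      exact (hYE c).2 ⟨g1, fun v hv => ((mem_Wv S hE).1 (h3 _ (hinl v hv))).2,
        fun s => ((mem_Wr S hE).1 (h3 _ (hinr s))).2, g4⟩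
  rw [← AddSubgroup.inf_relIndex_right, hinf, AddSubgroup.inf_relIndex_right, hprod,
    ← Finset.prod_pow_eq_pow_sum]
  exact Finset.prod_congr rfl fun p _ => two_pow_kap S hD hE p

end H76MB
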