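import Pool.Agent.H76.GM.Fb

/-!
Project MP_78d38b_MQ, the switch for a finite set of twists: definitions.
-/

set_option autoImplicit false
set_option linter.unusedSectionVars false
open scoped Classical

open WithZero NumberField IsDedekindDomain H38RT
open H38T1 (SC sc scu rep eo la si OddP unif)
open H76PP (Cub LC ev scm dn val_le val_one)
open H88OD H26OD H30OD H30ZO H36CY H30OR H76GM

namespace H76MB

/-- The parity of the dimension of the 2-Selmer group over `K` of the twist by `d * D`. -/
noncomputable def pf {K : Type} [Field K] [NumberField K] (a b : 𝓞 K) (D d : K) : ZMod 2 :=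
  if EvS K K a b (d * D) then 0 else 1

/-- The parities of the twists by `D` are balanced on the finite set `Δ`. -/
def Bal {K : Type} [Field K] [NumberField K] (a b : 𝓞 K) (Δ : Finset K) (D : K) : Prop :=
  ∀ I ⊆ Δ, Even I.card → IsSquare (∏ d ∈ I, d) →
    Even (I.filter fun d => ¬ EvS K K a b (d * D)).card

variable {K : Type} [Field K] [NumberField K] {a b : 𝓞 K}

theorem pf_zero {D d : K} : pf a b D d = 0 ↔ EvS K K a b (d * D) := by
  unfold pf
  by_cases h : EvS K K a b (d * D)
  · rw [if_pos h]
    exact iff_of_true rfl h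
  · rw [if_neg h]
    exact iff_of_false one_ne_zero h

theorem pf_one {D d : K} : pf a b D d = 1 ↔ ¬ EvS K K a b (d * D) := by
  unfold pf
  by_cases h : EvS K K a b (d * D)
  · rw [if_pos h]
    exact iff_of_false zero_ne_one (not_not.2 h)
  · rw [if_neg h]
    exact iff_of_true rfl h

theorem pf_eq {D D' d : K} (h : EvS K K a b (d * D) ↔ EvS K K a b (d * D')) :
    pf a b D d = pf a b D' d := by
  unfold pf
  rw [if_congr h rfl rfl]

theorem pf_add {D D' d : K} (h : ¬ (EvS K K a b (d * D) ↔ EvS K K a b (d * D'))) :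
    pf a b D' d = pf a b D d + 1 := by
  unfold pf
  by_cases h1 : EvS K K a b (d * D) <;> by_cases h2 : EvS K K a b (d * D')
  · exact absurd (iff_of_true h1 h2) h
  · rw [if_pos h1, if_neg h2, zero_add]
  · rw [if_neg h1, if_pos h2]
    decide
  · exact absurd (iff_of_false h1 h2) h

theorem sum_pf (D : K) (I : Finset K) :
    ∑ d ∈ I, pf a b D d = (((I.filter fun d => ¬ EvS K K a b (d * D)).card : ℕ) : ZMod 2) := by
  rw [← Finset.sum_boole]
  refine Finset.sum_congr rfl fun d _ => ?_
  unfold pf
  by_cases h1 : EvS K K a b (d * D)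
  · rw [if_pos h1, if_neg (not_not.2 h1)]
  · rw [if_neg h1, if_pos h1]

theorem bal_iff {Δ : Finset K} {D : K} : Bal a b Δ D ↔
    ∀ I ⊆ Δ, Even I.card → IsSquare (∏ d ∈ I, d) → ∑ d ∈ I, pf a b D d = 0 := by
  unfold Bal
  refine forall_congr' fun I => forall_congr' fun _ => forall_congr' fun _ =>
    forall_congr' fun _ => ?_
  rw [sum_pf, ZMod.natCast_eq_zero_iff, even_iff_two_dvd]

end H76MB
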